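import Pool.Agent.Lib.MP_5ee345_lc.Base

/-!
JOB AddInv (`MP_5ee345_lc`): adding a family `P` of sets of one size `s0` keeps the invariants.

`inv_add`. `add A P = P ∪ {f ∈ A : no p ∈ P is contained in f}`.
* `anti`: two members of `P` have the same size, so `⊆` gives `=` (`Finset.eq_of_subset_of_card_le`);
  `f ∈ P`, `g ∈ A` kept: `f ⊆ g` is excluded; `f ∈ A`, `g ∈ P`: excluded by `hno`.
* `hdeg`: for `s ≠ s0`, `deg (add A P) J s ≤ deg A J s`; for `s = s0` it is at most
  `deg A J s0 + deg P J s0`, use `hdeg`.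
* `cnt` for a given `s`. Sets of size `s` removed from `A`: those `f ∈ A`, `f.card = s`, with some
  `p ∈ P`, `p ⊆ f`. If `s ≤ s0` there is none (`p ⊆ f` and `f.card ≤ p.card` give `f = p`, against `hno`).
  If `s > s0` there are at most `∑ p ∈ P, deg A p s ≤ P.card * (2 * (K * beta K (s - s0)))`
  (`hI.hdeg p _ s`, `p.card = s0 ≥ 1`). Sets of size `s` added: `P.card` if `s = s0`, none otherwise; they are
  not in `A` by `hno`. So `lev (add A P) s + removed = lev A s + (if s = s0 then P.card else 0)`,
  and `∑ i ∈ range s, 2 (K beta (s - i)) c' i` exceeds the old sum by `2 (K beta (s - s0)) P.card` if `s0 < s`.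
-/

namespace Pool.Agent.SH5ee

open Finset

variable {L : Type} [DecidableEq L]

theorem inv_empty (K d : ℕ) : Inv K d (∅ : Finset (Finset L)) (fun _ => 0) := by
  refine ⟨?_, ?_, ?_, rfl, ?_⟩
  · intro f hf
    simp at hf
  · intro f hf
    simp at hf
  · intro J _ s _
    simp [deg]
  · intro s
    simp

theorem free_add {A P : Finset (Finset L)} {T : Finset L} (hA : free A T) (hP : free P T) :
    free (add A P) T := by
  intro f hf
  rw [add, mem_union, mem_filter] at hf
  rcases hf with hf | hf
  · exact hP f hf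
  · exact hA f hf.1

private theorem addInv_deg (A P : Finset (Finset L)) (J : Finset L) (s : ℕ) :
    deg (add A P) J s ≤ deg A J s + deg P J s := by
  unfold deg add
  rw [filter_union, add_comm]
  refine (card_union_le _ _).trans (Nat.add_le_add_left (card_le_card ?_) _)
  exact filter_subset_filter _ (filter_subset _ _)

private theorem addInv_degP {P : Finset (Finset L)} {s0 : ℕ} (hcard : ∀ p ∈ P, p.card = s0)
    (J : Finset L) (s : ℕ) (h : s ≠ s0) : deg P J s = 0 := by
  unfold deg
  rw [card_eq_zero, filter_eq_empty_iff]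
  rintro p hp ⟨h1, _⟩
  exact h (h1.symm.trans (hcard p hp))

/-- Number of removed sets of size `s`. -/
private def addInv_rem (A P : Finset (Finset L)) (s : ℕ) : ℕ :=
  (A.filter (fun f => f.card = s ∧ ∃ p ∈ P, p ⊆ f)).card

private theorem addInv_lev {A P : Finset (Finset L)} {s0 : ℕ} (hcard : ∀ p ∈ P, p.card = s0)
    (hno : ∀ p ∈ P, ∀ f ∈ A, ¬ f ⊆ p) (s : ℕ) :
    lev A s + (if s = s0 then P.card else 0) ≤ lev (add A P) s + addInv_rem A P s := by
  have e1 : lev A s ≤ (A.filter (fun f => f.card = s ∧ ∀ p ∈ P, ¬ p ⊆ f)).card +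
      addInv_rem A P s := by
    unfold lev addInv_rem
    refine (card_le_card ?_).trans (card_union_le _ _)
    intro f hf
    rw [mem_filter] at hf
    rw [mem_union, mem_filter, mem_filter]
    by_cases h : ∃ p ∈ P, p ⊆ f
    · exact Or.inr ⟨hf.1, hf.2, h⟩
    · refine Or.inl ⟨hf.1, hf.2, ?_⟩
      intro p hp hpf
      exact h ⟨p, hp, hpf⟩
  have e2 : (A.filter (fun f => f.card = s ∧ ∀ p ∈ P, ¬ p ⊆ f)).card +
      (if s = s0 then P.card else 0) ≤ lev (add A P) s := by
    by_cases h : s = s0
    · rw [if_pos h]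
      unfold lev
      rw [← card_union_of_disjoint]
      · apply card_le_card
        intro f hf
        rw [mem_union, mem_filter] at hf
        rw [mem_filter, add, mem_union, mem_filter]
        rcases hf with hf | hf
        · exact ⟨Or.inr ⟨hf.1, hf.2.2⟩, hf.2.1⟩
        · exact ⟨Or.inl hf, (hcard f hf).trans h.symm⟩
      · rw [disjoint_left]
        intro f hf hfP
        rw [mem_filter] at hf
        exact hno f hfP f hf.1 (Subset.refl f)
    · rw [if_neg h, add_zero]
      unfold lev
      apply card_le_card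
      intro f hf
      rw [mem_filter] at hf
      rw [mem_filter, add, mem_union, mem_filter]
      exact ⟨Or.inr ⟨hf.1, hf.2.2⟩, hf.2.1⟩
  omega

private theorem addInv_rem_zero {A P : Finset (Finset L)} {s0 : ℕ}
    (hcard : ∀ p ∈ P, p.card = s0) (hno : ∀ p ∈ P, ∀ f ∈ A, ¬ f ⊆ p) (s : ℕ) (hs : s ≤ s0) :
    addInv_rem A P s = 0 := by
  unfold addInv_rem
  rw [card_eq_zero, filter_eq_empty_iff]
  rintro f hf ⟨h1, p, hp, hpf⟩
  have h2 : p = f := eq_of_subset_of_card_le hpf (by rw [h1, hcard p hp]; exact hs)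
  exact hno p hp f hf (by rw [h2])

private theorem addInv_rem_le {K d : ℕ} {A P : Finset (Finset L)} {c : ℕ → ℕ} {s0 : ℕ}
    (hI : Inv K d A c) (h1 : 1 ≤ s0) (hcard : ∀ p ∈ P, p.card = s0) (s : ℕ) (hs : s0 < s) :
    addInv_rem A P s ≤ 2 * (K * beta K (s - s0)) * P.card := by
  have e1 : addInv_rem A P s ≤ ∑ p ∈ P, deg A p s := by
    unfold addInv_rem deg
    refine (card_le_card ?_).trans card_biUnion_le
    intro f hf
    rw [mem_filter] at hf
    obtain ⟨hfA, hfs, p, hp, hpf⟩ := hf
    rw [mem_biUnion]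
    exact ⟨p, hp, mem_filter.2 ⟨hfA, hfs, hpf⟩⟩
  refine e1.trans ?_
  have e2 : ∀ p ∈ P, deg A p s ≤ 2 * (K * beta K (s - s0)) := by
    intro p hp
    have hpc := hcard p hp
    have hne : p.Nonempty := by
      rw [← card_pos, hpc]
      omega
    have := hI.hdeg p hne s (by rw [hpc]; exact hs)
    rwa [hpc] at this
  refine (sum_le_card_nsmul P _ _ e2).trans ?_
  rw [smul_eq_mul, mul_comm]

private theorem addInv_sum (g : ℕ → ℕ) (c : ℕ → ℕ) (s0 v s : ℕ) :
    ∑ i ∈ range s, g i * Function.update c s0 (c s0 + v) i =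
      ∑ i ∈ range s, g i * c i + (if s0 < s then g s0 * v else 0) := by
  have e : ∀ i, g i * Function.update c s0 (c s0 + v) i = g i * c i +
      (if s0 = i then g i * v else 0) := by
    intro i
    by_cases h : i = s0
    · subst h
      rw [Function.update_self, if_pos rfl]
      ring
    · rw [Function.update_of_ne h, if_neg (fun h' => h h'.symm), add_zero]
  rw [sum_congr rfl (fun i _ => e i), sum_add_distrib, sum_ite_eq]
  simp only [mem_range]

theorem inv_add {K d : ℕ} {A P : Finset (Finset L)} {c : ℕ → ℕ} {s0 : ℕ} (hI : Inv K d A c)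
    (h1 : 1 ≤ s0) (hd : s0 ≤ d) (hcard : ∀ p ∈ P, p.card = s0) (hno : ∀ p ∈ P, ∀ f ∈ A, ¬ f ⊆ p)
    (hdeg : ∀ J : Finset L, J.Nonempty → J.card < s0 →
      deg A J s0 + deg P J s0 ≤ 2 * (K * beta K (s0 - J.card))) :
    Inv K d (add A P) (Function.update c s0 (c s0 + P.card)) := by
  refine ⟨?_, ?_, ?_, ?_, ?_⟩
  · intro f hf g hg hfg
    rw [add, mem_union, mem_filter] at hf hg
    rcases hf with hf | hf
    · rcases hg with hg | hg
      · exact eq_of_subset_of_card_le hfg (by rw [hcard f hf, hcard g hg])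
      · exact absurd hfg (hg.2 f hf)
    · rcases hg with hg | hg
      · exact absurd hfg (hno g hg f hf.1)
      · exact hI.anti f hf.1 g hg.1 hfg
  · intro f hf
    rw [add, mem_union, mem_filter] at hf
    rcases hf with hf | hf
    · rw [hcard f hf]
      exact ⟨h1, hd⟩
    · exact hI.size f hf.1
  · intro J hJ s hs
    have h2 := addInv_deg A P J s
    by_cases h : s = s0
    · subst h
      exact h2.trans (hdeg J hJ hs)
    · rw [addInv_degP hcard J s h, add_zero] at h2
      exact h2.trans (hI.hdeg J hJ s hs)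
  · rw [Function.update_of_ne (by omega)]
    exact hI.zero
  · intro s
    have h2 := addInv_lev hcard hno s
    have h3 := hI.cnt s
    have h4 := addInv_sum (fun i => 2 * (K * beta K (s - i))) c s0 P.card s
    rw [h4]
    rcases lt_trichotomy s s0 with h | h | h
    · rw [Function.update_of_ne (by omega), if_neg (by omega)]
      rw [if_neg (by omega), addInv_rem_zero hcard hno s h.le] at h2
      omega
    · subst h
      rw [Function.update_self, if_neg (by omega)]
      rw [if_pos rfl, addInv_rem_zero hcard hno s le_rfl] at h2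
      omega
    · rw [Function.update_of_ne (by omega), if_pos h]
      have h5 := addInv_rem_le hI h1 hcard s h
      rw [if_neg (by omega)] at h2
      omega

end Pool.Agent.SH5ee
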