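import Pool.Agent.Lib.MP_5ee345_lc.St

/-!
JOB All (`MP_5ee345_lc`): `AllD d` for all `d ≥ 1`. The imported files may hold `sorry`.

`all_one`: `c = 1`, `N0 = 0`, `ι = Unit`, `S = ∅`, and `lo F = up F = ∅` if `∅ ∈ F`, else
`{F.biUnion id}` (one clause). If `∅ ∉ F`, all `e ∈ F` have exactly one element, so
`dnf F T ↔ ∃ a ∈ F.biUnion id, a ∈ T`. If `∅ ∈ F`, `dnf F T` is true. Bounds: `1 ≤ 2 ^ (ε N)`.

`all_succ`: given `ε`. `AllD d` for `ε / 4` gives `c1, N1`; `StepD (d+1)` for `ε2 = min (ε / 4) (c1 / 4)` gives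
`c2, N2`. Take `c = min c2 (c1 / 4)` and `N0 ≥ N1, N2, 2 / c1, 2 / ε` . Then `cases_comp` with `b = 2 ^ (ε2 N)`,
`b' = 2 ^ (ε N / 4)`, `ok G = ∀ e ∈ G, e.card ≤ d`: `2 * b * W.card ≤ 2 ^ (1 + ε2 N + c N) ≤ 2 ^ (c1 N)` and
`2 * (b * b') ≤ 2 ^ (1 + ε N / 2) ≤ 2 ^ (ε N)`; `cases_mono`.
-/

namespace Pool.Agent.SH5ee

open Finset

theorem all_one : AllD 1 := by
  intro ε hε
  refine ⟨1, one_pos, 0, ?_⟩
  intro L _ _ _ W hW _
  have hb : (1 : ℝ) ≤ 2 ^ (ε * (Fintype.card L : ℝ)) :=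
    Real.one_le_rpow (by norm_num) (mul_nonneg hε.le (Nat.cast_nonneg _))
  have hb0 : (0 : ℝ) ≤ 2 ^ (ε * (Fintype.card L : ℝ)) := zero_le_one.trans hb
  let lo : Finset (Finset L) → Finset (Finset L) := fun F => if ∅ ∈ F then ∅ else {F.biUnion id}
  have hcard : ∀ F, ((lo F).card : ℝ) ≤ 2 ^ (ε * (Fintype.card L : ℝ)) := by
    intro F
    have h1 : (lo F).card ≤ 1 := by
      show (if ∅ ∈ F then (∅ : Finset (Finset L)) else {F.biUnion id}).card ≤ 1
      split_ifs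
      · simp
      · simp
    have h2 : ((lo F).card : ℝ) ≤ 1 := by exact_mod_cast h1
    exact h2.trans hb
  have key : ∀ F ∈ W, ∀ T : Finset L, (∀ x ∈ lo F, ∃ a ∈ x, a ∈ T) ↔ dnf F T := by
    intro F hF T
    by_cases h0 : ∅ ∈ F
    · have h1 : lo F = ∅ := if_pos h0
      rw [h1]
      exact ⟨fun _ => ⟨∅, h0, Finset.empty_subset T⟩, fun _ x hx => absurd hx (Finset.notMem_empty x)⟩
    · have h1 : lo F = {F.biUnion id} := if_neg h0
      rw [h1]
      constructor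
      · intro h
        obtain ⟨a, ha, haT⟩ := h _ (Finset.mem_singleton_self _)
        rw [Finset.mem_biUnion] at ha
        obtain ⟨e, he, hae⟩ := ha
        refine ⟨e, he, fun x hx => ?_⟩
        have h2 : x = a := Finset.card_le_one.mp (hW F hF e he) x hx a hae
        rw [h2]
        exact haT
      · rintro ⟨e, he, heT⟩ x hx
        rw [Finset.mem_singleton] at hx
        rw [hx]
        have h2 : e.Nonempty := by
          rw [Finset.nonempty_iff_ne_empty]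
          intro h3
          exact h0 (h3 ▸ he)
        obtain ⟨a, ha⟩ := h2
        exact ⟨a, Finset.mem_biUnion.mpr ⟨e, he, ha⟩, heT ha⟩
  refine ⟨Unit, inferInstance, fun _ => ∅, fun _ => lo, fun _ => lo, ?_, ?_, ?_, ?_, ?_, ?_⟩
  · simpa using hb
  · intro v
    refine ⟨by simpa using hb0, fun f hf => absurd hf (Finset.notMem_empty f)⟩
  · intro v F _
    exact ⟨hcard F, hcard F, fun _ _ => trivial, fun _ _ => trivial⟩
  · intro v F hF T h
    exact (key F hF T).mp h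
  · intro v F hF T _ h
    exact (key F hF T).mpr h
  · intro T
    exact ⟨(), fun f hf => absurd hf (Finset.notMem_empty f),
      fun F hF => ⟨fun h => (key F hF T).mpr h, fun h => (key F hF T).mp h⟩⟩

theorem all_succ (d : ℕ) (hd : 1 ≤ d) (h1 : AllD d) (h2 : StepD (d + 1)) : AllD (d + 1) := by
  intro ε hε
  obtain ⟨c1, hc1, N1, H1⟩ := h1 (ε / 4) (by positivity)
  obtain ⟨c2, hc2, N2, H2⟩ := h2 (min (ε / 4) (c1 / 4)) (lt_min (by positivity) (by positivity))
  refine ⟨min c2 (c1 / 4), lt_min hc2 (by positivity),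
    max (max N1 N2) (max ⌈2 / c1⌉₊ ⌈2 / ε⌉₊), ?_⟩
  intro L _ _ hN W hW hWc
  have hN1 : N1 ≤ Fintype.card L := le_trans (le_trans (le_max_left _ _) (le_max_left _ _)) hN
  have hN2 : N2 ≤ Fintype.card L := le_trans (le_trans (le_max_right _ _) (le_max_left _ _)) hN
  have hN3 : ⌈2 / c1⌉₊ ≤ Fintype.card L := le_trans (le_trans (le_max_left _ _) (le_max_right _ _)) hN
  have hN4 : ⌈2 / ε⌉₊ ≤ Fintype.card L := le_trans (le_trans (le_max_right _ _) (le_max_right _ _)) hN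
  set N : ℝ := (Fintype.card L : ℝ) with hNdef
  have hN0 : 0 ≤ N := Nat.cast_nonneg _
  have hA1 : 2 ≤ c1 * N := by
    have h3 : 2 / c1 ≤ N := (Nat.le_ceil _).trans (Nat.cast_le.mpr hN3)
    rw [div_le_iff₀ hc1] at h3
    linarith
  have hA2 : 2 ≤ ε * N := by
    have h3 : 2 / ε ≤ N := (Nat.le_ceil _).trans (Nat.cast_le.mpr hN4)
    rw [div_le_iff₀ hε] at h3
    linarith
  set ε2 : ℝ := min (ε / 4) (c1 / 4) with hε2
  have hε20 : 0 < ε2 := lt_min (by positivity) (by positivity)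
  have hB1 : ε2 * N ≤ ε / 4 * N := mul_le_mul_of_nonneg_right (min_le_left _ _) hN0
  have hB2 : ε2 * N ≤ c1 / 4 * N := mul_le_mul_of_nonneg_right (min_le_right _ _) hN0
  have hB3 : min c2 (c1 / 4) * N ≤ c2 * N := mul_le_mul_of_nonneg_right (min_le_left _ _) hN0
  have hB4 : min c2 (c1 / 4) * N ≤ c1 / 4 * N := mul_le_mul_of_nonneg_right (min_le_right _ _) hN0
  have h2pos : (0 : ℝ) < 2 := by norm_num
  have h2one : (1 : ℝ) ≤ 2 := by norm_num
  have hC1 := H2 L hN2 W hW (hWc.trans (Real.rpow_le_rpow_of_exponent_le h2one hB3))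
  have hb : (1 : ℝ) ≤ 2 ^ (ε2 * N) := Real.one_le_rpow h2one (by positivity)
  have hb' : (1 : ℝ) ≤ 2 ^ (ε / 4 * N) := Real.one_le_rpow h2one (by positivity)
  have hcomp := cases_comp (fun (C : Finset L) T => ∃ a ∈ C, a ∈ T) _ W (2 ^ (ε2 * N))
    (2 ^ (ε / 4 * N)) hb hb' hC1 (fun W' hok hcard => H1 L hN1 W' hok (hcard.trans (by
      calc 2 * 2 ^ (ε2 * N) * (W.card : ℝ)
          ≤ 2 * 2 ^ (ε2 * N) * 2 ^ (min c2 (c1 / 4) * N) :=
            mul_le_mul_of_nonneg_left hWc (by positivity)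
        _ = 2 ^ (1 + ε2 * N + min c2 (c1 / 4) * N) := by
            rw [Real.rpow_add h2pos, Real.rpow_add h2pos, Real.rpow_one]
        _ ≤ 2 ^ (c1 * N) := by
            refine Real.rpow_le_rpow_of_exponent_le h2one ?_
            linarith)))
  refine cases_mono hcomp ?_
  calc (2 : ℝ) * (2 ^ (ε2 * N) * 2 ^ (ε / 4 * N)) = 2 ^ (1 + ε2 * N + ε / 4 * N) := by
        rw [Real.rpow_add h2pos, Real.rpow_add h2pos, Real.rpow_one, mul_assoc]
    _ ≤ 2 ^ (ε * N) := by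
        refine Real.rpow_le_rpow_of_exponent_le h2one ?_
        linarith

theorem allD (d : ℕ) (hd : 1 ≤ d) : AllD d := by
  induction d, hd using Nat.le_induction with
  | base => exact all_one
  | succ d hd ih => exact all_succ d hd ih (stepD (d + 1) (by omega))

end Pool.Agent.SH5ee
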