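import Mathlib

/-!
Combinatorial core for `MP_5ee345_lc`: definitions.
`L` is a finite set (of literals), a term is a `Finset L`, and `T : Finset L` is the set of true literals.
-/

namespace Pool.Agent.SH5ee

open Finset

/-- truth of the monotone DNF with set of terms `F` when exactly the elements of `T` are true -/
def dnf {L : Type} (F : Finset (Finset L)) (T : Finset L) : Prop := ∃ e ∈ F, e ⊆ T

/-- truth of the monotone CNF with set of clauses `F` -/
def cnf {L : Type} (F : Finset (Finset L)) (T : Finset L) : Prop := ∀ c ∈ F, ∃ a ∈ c, a ∈ T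

/-- `T` contains no member of `A` -/
def free {L : Type} (A : Finset (Finset L)) (T : Finset L) : Prop := ∀ f ∈ A, ¬ f ⊆ T

/-- the number of sets of size `s` in `A` which contain `J` -/
def deg {L : Type} [DecidableEq L] (A : Finset (Finset L)) (J : Finset L) (s : ℕ) : ℕ :=
  (A.filter (fun f => f.card = s ∧ J ⊆ f)).card

/-- the number of sets of size `s` in `A` -/
def lev {L : Type} [DecidableEq L] (A : Finset (Finset L)) (s : ℕ) : ℕ :=
  (A.filter (fun f => f.card = s)).card

/-- add the sets of `P` to `A` and remove their supersets in `A` -/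
def add {L : Type} [DecidableEq L] (A P : Finset (Finset L)) : Finset (Finset L) :=
  P ∪ A.filter (fun f => ∀ p ∈ P, ¬ p ⊆ f)

/-- the numbers `beta K s`; the degree threshold for `s` is `K * beta K s` -/
noncomputable def beta (K : ℕ) : ℕ → ℕ
  | 0 => 1
  | (s + 1) => 1 + 2 * (K * beta K s) +
      ∑ i : Fin s, 2 * (K * beta K (s - i.val)) * beta K (i.val + 1)
termination_by s => s
decreasing_by
  · omega
  · omega
  · have := i.isLt; omega

/-- the invariants of the sparsification process: `c s` is the number of sets of size `s` added so far -/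
structure Inv {L : Type} [DecidableEq L] (K d : ℕ) (A : Finset (Finset L)) (c : ℕ → ℕ) : Prop where
  anti : ∀ f ∈ A, ∀ g ∈ A, f ⊆ g → f = g
  size : ∀ f ∈ A, 1 ≤ f.card ∧ f.card ≤ d
  hdeg : ∀ J : Finset L, J.Nonempty → ∀ s, J.card < s →
    deg A J s ≤ 2 * (K * beta K (s - J.card))
  zero : c 0 = 0
  cnt : ∀ s, c s ≤ lev A s + ∑ i ∈ range s, 2 * (K * beta K (s - i)) * c i

/-- no heavy set -/
def Light {L : Type} [DecidableEq L] (K : ℕ) (A : Finset (Finset L)) : Prop :=
  ∀ J : Finset L, J.Nonempty → ∀ s, J.card < s → deg A J s < K * beta K (s - J.card)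

/-- `(J, i)` is heavy, with `i` smallest and then `J` largest -/
structure Picked {L : Type} [DecidableEq L] (K : ℕ) (A : Finset (Finset L))
    (J : Finset L) (i : ℕ) : Prop where
  ne : J.Nonempty
  lt : J.card < i
  heavy : K * beta K (i - J.card) ≤ deg A J i
  min : ∀ J' : Finset L, J'.Nonempty → ∀ s, s < i → J'.card < s →
    deg A J' s < K * beta K (s - J'.card)
  max : ∀ J' : Finset L, J.card < J'.card → J'.card < i → deg A J' i < K * beta K (i - J'.card)

open Classical in
/-- the heavy pair used in state `A` -/
noncomputable def pick {L : Type} [DecidableEq L] (K : ℕ) (A : Finset (Finset L)) : Finset L × ℕ :=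
  if h : ∃ q : Finset L × ℕ, Picked K A q.1 q.2 then h.choose else (∅, 0)

/-- the petals -/
def petals {L : Type} [DecidableEq L] (A : Finset (Finset L)) (J : Finset L) (i : ℕ) :
    Finset (Finset L) :=
  (A.filter (fun f => f.card = i ∧ J ⊆ f)).image (fun f => f \ J)

/-- heart branch -/
noncomputable def heartF {L : Type} [DecidableEq L] (K : ℕ) (A : Finset (Finset L)) :
    Finset (Finset L) := add A {(pick K A).1}

/-- petal branch -/
noncomputable def petalF {L : Type} [DecidableEq L] (K : ℕ) (A : Finset (Finset L)) :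
    Finset (Finset L) := add A (petals A (pick K A).1 (pick K A).2)

/-- the terms of size `d` of `F` which contain no member of `A` -/
def gph {L : Type} [DecidableEq L] (d : ℕ) (F A : Finset (Finset L)) : Finset (Finset L) :=
  F.filter (fun e => e.card = d ∧ ∀ f ∈ A, ¬ f ⊆ e)

/-- `M` is a matching in `G` with at most `Q` members, and it has `Q` members or is maximal -/
structure IsMt {L : Type} [DecidableEq L] (Q : ℕ) (G M : Finset (Finset L)) : Prop where
  sub : M ⊆ G
  disj : ∀ e ∈ M, ∀ f ∈ M, e ≠ f → Disjoint e f
  card : M.card ≤ Q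
  max : M.card = Q ∨ ∀ e ∈ G, ∃ f ∈ M, ¬ Disjoint e f

open Classical in
/-- a chosen truncated maximal matching of `G` -/
noncomputable def mt {L : Type} [DecidableEq L] (Q : ℕ) (G : Finset (Finset L)) :
    Finset (Finset L) :=
  if h : ∃ M, IsMt Q G M then h.choose else ∅

/-- round: add the matching of `F` -/
noncomputable def roundF {L : Type} [DecidableEq L] (d Q : ℕ) (F A : Finset (Finset L)) :
    Finset (Finset L) := add A (mt Q (gph d F A))

/-- the states reachable with `h` heart steps, `p` petal steps and `r` rounds -/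
inductive Path {L : Type} [DecidableEq L] (K d Q : ℕ) (W : Finset (Finset (Finset L))) :
    ℕ → ℕ → ℕ → Finset (Finset L) → Prop
  | init : Path K d Q W 0 0 0 ∅
  | heart {h p r : ℕ} {A : Finset (Finset L)} :
      Path K d Q W h p r A → Path K d Q W (h + 1) p r (heartF K A)
  | petal {h p r : ℕ} {A : Finset (Finset L)} :
      Path K d Q W h p r A → Path K d Q W h (p + 1) r (petalF K A)
  | round {h p r : ℕ} {A F : Finset (Finset L)} :
      Path K d Q W h p r A → F ∈ W → Path K d Q W h p (r + 1) (roundF d Q F A)

/-- `A` is a correct final state for `T` -/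
def Done {L : Type} [DecidableEq L] (d Q : ℕ) (W : Finset (Finset (Finset L)))
    (A : Finset (Finset L)) (T : Finset L) : Prop :=
  free A T ∧ ∀ F ∈ W, (mt Q (gph d F A)).card < Q ∨ ∃ e ∈ mt Q (gph d F A), e ⊆ T

end Pool.Agent.SH5ee
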