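import Pool.Agent.Lib.MP_5ee345_lc.Beta

/-!
JOB Bd (`MP_5ee345_lc`): bounds from the invariants. `Beta.lean` (imported, may hold `sorry`) gives
`beta_pos`, `beta_rec`.

`lev_le`: `s = 1`: the sets of size `1` in `A` are singletons `{a}`, so there are at most `Fintype.card L`.
In general every `f ∈ A` of size `s ≥ 1` contains some `a`, so
`lev A s ≤ ∑ a : L, deg A {a} s`; for `s ≥ 2` each summand is at most `2 (K beta (s-1))` (`hdeg` with
`J = {a}`, `J.card = 1 < s`); for `s = 1`, `deg A {a} 1 ≤ 1` (only `{a}`).
`c_le`: strong induction on `s`: `c s ≤ lev A s + ∑ i ∈ range s, ...`; the summand `i = 0` is `0` by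
`hI.zero`, the others are bounded by induction; add up with `beta_rec`.
`card_le`: `A` is the disjoint union of its levels `1 ≤ s ≤ d` (`hI.size`).
-/

namespace Pool.Agent.SH5ee

open Finset

variable {L : Type} [DecidableEq L] [Fintype L]

theorem lev_le {K d : ℕ} {A : Finset (Finset L)} {c : ℕ → ℕ} (hI : Inv K d A c) (s : ℕ)
    (hs : 1 ≤ s) : lev A s ≤ (1 + 2 * (K * beta K (s - 1))) * Fintype.card L := by
  have h1 : lev A s ≤ ∑ a : L, deg A {a} s := by
    have hsub : A.filter (fun f => f.card = s) ⊆
        (univ : Finset L).biUnion (fun a => A.filter (fun f => f.card = s ∧ {a} ⊆ f)) := by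
      intro f hf
      rw [mem_filter] at hf
      have hne : f.Nonempty := by
        rw [← card_pos]
        omega
      obtain ⟨a, ha⟩ := hne
      rw [mem_biUnion]
      exact ⟨a, mem_univ a, mem_filter.mpr ⟨hf.1, hf.2, singleton_subset_iff.mpr ha⟩⟩
    exact (card_le_card hsub).trans card_biUnion_le
  have h2 : ∀ a : L, deg A {a} s ≤ 1 + 2 * (K * beta K (s - 1)) := by
    intro a
    rcases Nat.lt_or_ge 1 s with h | h
    · have h3 := hI.hdeg {a} (singleton_nonempty a) s (by rw [card_singleton]; exact h)
      rw [card_singleton] at h3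
      omega
    · have hs1 : s = 1 := by omega
      subst hs1
      have h3 : A.filter (fun f => f.card = 1 ∧ {a} ⊆ f) ⊆ {{a}} := by
        intro f hf
        rw [mem_filter] at hf
        rw [mem_singleton]
        exact (eq_of_subset_of_card_le hf.2.2 (by rw [hf.2.1, card_singleton])).symm
      have h4 := card_le_card h3
      rw [card_singleton] at h4
      unfold deg
      omega
  refine h1.trans ((sum_le_sum fun a _ => h2 a).trans (le_of_eq ?_))
  rw [sum_const, card_univ, smul_eq_mul, mul_comm]

theorem c_le {K d : ℕ} {A : Finset (Finset L)} {c : ℕ → ℕ} (hI : Inv K d A c) (s : ℕ)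
    (hs : 1 ≤ s) : c s ≤ beta K s * Fintype.card L := by
  induction s using Nat.strong_induction_on with
  | _ s ih =>
    have h1 := hI.cnt s
    have h2 := lev_le hI s hs
    have h3 : ∑ i ∈ range s, 2 * (K * beta K (s - i)) * c i ≤
        ∑ i ∈ Ico 1 s, 2 * (K * beta K (s - i)) * (beta K i * Fintype.card L) := by
      rw [range_eq_Ico, sum_eq_sum_Ico_succ_bot (by omega : 0 < s), hI.zero, mul_zero, zero_add]
      refine sum_le_sum fun i hi => ?_
      rw [mem_Ico] at hi
      exact Nat.mul_le_mul_left _ (ih i hi.2 (by omega))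
    have h4 : ∑ i ∈ Ico 1 s, 2 * (K * beta K (s - i)) * (beta K i * Fintype.card L) =
        (∑ i ∈ Ico 1 s, 2 * (K * beta K (s - i)) * beta K i) * Fintype.card L := by
      rw [sum_mul]
      exact sum_congr rfl fun i _ => by ring
    have h5 := beta_rec K s hs
    calc c s ≤ lev A s + ∑ i ∈ range s, 2 * (K * beta K (s - i)) * c i := h1
      _ ≤ (1 + 2 * (K * beta K (s - 1))) * Fintype.card L +
          (∑ i ∈ Ico 1 s, 2 * (K * beta K (s - i)) * beta K i) * Fintype.card L := by
        rw [← h4]
        exact Nat.add_le_add h2 h3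
      _ = beta K s * Fintype.card L := by
        rw [← Nat.add_mul, h5]

theorem card_le {K d : ℕ} {A : Finset (Finset L)} {c : ℕ → ℕ} (hI : Inv K d A c) :
    A.card ≤ (∑ s ∈ Icc 1 d, (1 + 2 * (K * beta K (s - 1)))) * Fintype.card L := by
  have h1 : A.card = ∑ s ∈ Icc 1 d, lev A s := by
    unfold lev
    exact card_eq_sum_card_fiberwise (f := fun f : Finset L => f.card) (t := Icc 1 d)
      (fun f hf => by
        rw [mem_coe, mem_Icc]
        exact hI.size f hf)
  rw [h1, sum_mul]
  refine sum_le_sum fun s hs => ?_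
  rw [mem_Icc] at hs
  exact lev_le hI s hs.1

end Pool.Agent.SH5ee
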