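import Pool.Agent.Lib.MP_5ee345_lc.Base

/-!
JOB Beta (`MP_5ee345_lc`): the numbers `beta K s`.

`beta_rec`: unfold `beta` at `s = u + 1` (`rw [beta]`) and reindex the sum over `Fin u` by `i ↦ i + 1`
(`Finset.sum_Ico_eq_sum_range`, `Finset.sum_range`).

`beta_le`: put `a = (2 d + 4) K`. Strong induction on `s`. `s = 1`: `beta K 1 = 1 + 2 K ≤ a`.
`s ≥ 2`: every term `2 (K beta (s-i)) beta i` (`1 ≤ i < s`) is at most
`2 K a ^ (2 (s-i) - 1) a ^ (2 i - 1) = 2 K a ^ (2 s - 2)`, so
`beta K s ≤ 1 + 2 K a ^ (2 s - 3) + (s - 1) 2 K a ^ (2 s - 2) ≤ (2 d + 4) K a ^ (2 s - 2)`,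
because `s ≤ d`, `1 ≤ a ^ (2 s - 2)` and `a ^ (2 s - 3) ≤ a ^ (2 s - 2)`.

-/

namespace Pool.Agent.SH5ee

open Finset

theorem beta_pos (K s : ℕ) : 1 ≤ beta K s := by
  cases s with
  | zero => rw [beta]
  | succ s =>
    rw [beta]
    omega

theorem beta_rec (K s : ℕ) (hs : 1 ≤ s) :
    (1 + 2 * (K * beta K (s - 1))) + ∑ i ∈ Ico 1 s, 2 * (K * beta K (s - i)) * beta K i
      = beta K s := by
  obtain ⟨u, rfl⟩ : ∃ u, s = u + 1 := ⟨s - 1, by omega⟩
  rw [beta, Finset.sum_Ico_eq_sum_range, show u + 1 - 1 = u by omega, Finset.sum_range]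
  congr 1
  refine Finset.sum_congr rfl fun i _ => ?_
  rw [show u + 1 - (1 + i.val) = u - i.val by omega, add_comm 1 i.val]

theorem beta_le (K d : ℕ) (hK : 1 ≤ K) (s : ℕ) (hs : 1 ≤ s) (hsd : s ≤ d) :
    beta K s ≤ ((2 * d + 4) * K) ^ (2 * s - 1) := by
  set a : ℕ := (2 * d + 4) * K with ha
  have ha1 : 1 ≤ a := by
    rw [ha]
    exact Nat.mul_pos (by omega) hK
  induction s using Nat.strong_induction_on with
  | _ s ih =>
    rcases Nat.lt_or_ge s 2 with h2 | h2
    · have h1 : s = 1 := by omega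
      subst h1
      rw [← beta_rec K 1 le_rfl]
      have h3 : beta K (1 - 1) = 1 := by
        show beta K 0 = 1
        rw [beta]
      rw [h3, Finset.Ico_self, Finset.sum_empty]
      have h4 : a ^ (2 * 1 - 1) = a := by
        rw [show 2 * 1 - 1 = 1 by norm_num, pow_one]
      rw [h4, ha]
      nlinarith
    · obtain ⟨u, rfl⟩ : ∃ u, s = u + 2 := ⟨s - 2, by omega⟩
      set E : ℕ := a ^ (2 * u + 2) with hE
      have hE1 : 1 ≤ E := Nat.one_le_pow _ _ ha1
      have h5 : beta K (u + 2 - 1) ≤ E := by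
        have h6 := ih (u + 1) (by omega) (by omega) (by omega)
        refine (show beta K (u + 2 - 1) ≤ a ^ (2 * (u + 1) - 1) from h6).trans ?_
        exact Nat.pow_le_pow_right ha1 (by omega)
      have h7 : ∀ i ∈ Ico 1 (u + 2), 2 * (K * beta K (u + 2 - i)) * beta K i ≤ 2 * K * E := by
        intro i hi
        rw [Finset.mem_Ico] at hi
        have h8 := ih (u + 2 - i) (by omega) (by omega) (by omega)
        have h9 := ih i (by omega) (by omega) (by omega)
        have h10 : a ^ (2 * (u + 2 - i) - 1) * a ^ (2 * i - 1) = E := by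
          rw [← pow_add, hE]
          congr 1
          omega
        calc 2 * (K * beta K (u + 2 - i)) * beta K i
            = 2 * K * (beta K (u + 2 - i) * beta K i) := by ring
          _ ≤ 2 * K * (a ^ (2 * (u + 2 - i) - 1) * a ^ (2 * i - 1)) :=
              Nat.mul_le_mul_left _ (Nat.mul_le_mul h8 h9)
          _ = 2 * K * E := by rw [h10]
      have h11 := Finset.sum_le_card_nsmul (Ico 1 (u + 2))
        (fun i => 2 * (K * beta K (u + 2 - i)) * beta K i) (2 * K * E) h7
      rw [Nat.card_Ico, smul_eq_mul, show u + 2 - 1 = u + 1 by omega] at h11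
      rw [← beta_rec K (u + 2) (by omega)]
      have h12 : 2 * (K * beta K (u + 2 - 1)) ≤ 2 * K * E := by
        rw [← mul_assoc]
        exact Nat.mul_le_mul_left _ h5
      have h13 : a ^ (2 * (u + 2) - 1) = a * E := by
        rw [hE, ← pow_succ']
        congr 1
      have h14 : 1 ≤ K * E := Nat.mul_pos hK hE1
      have h15 : (2 * u + 8) * (K * E) ≤ a * E := by
        rw [ha, mul_assoc]
        exact Nat.mul_le_mul_right _ (by omega)
      rw [h13]
      have h16 : (u + 1) * (2 * K * E) = (2 * u + 2) * (K * E) := by ring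
      have h17 : 2 * K * E = 2 * (K * E) := by ring
      have h18 : (2 * u + 8) * (K * E) = (2 * u + 2) * (K * E) + 6 * (K * E) := by ring
      rw [h16] at h11
      rw [h17] at h12
      rw [h18] at h15
      generalize (2 * u + 2) * (K * E) = y at h11 h15
      omega

end Pool.Agent.SH5ee
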