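import Pool.Agent.Lib.MP_5ee345_lc.Base

/-!
Definitions for `MP_5ee345_lc`: families of approximations, and their composition (JOB Cases).

`cases_comp`. From `h1`: `ι, S, lo, up`. For `v : ι` let
`W' v = W.biUnion (fun F => lo v F ∪ up v F)` (members satisfy `ok`, and `(W' v).card ≤ 2 * b * W.card`).
`h2 (W' v)` gives `ι' v, S' v, lo' v, up' v` (use `choose`). The result: index type `Σ v, ι' v` (card is
`∑ v, card (ι' v) ≤ b * b'`), side condition `S v ∪ S' v w` (at most `b + b' ≤ 2 b b'` members),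
`lo'' (v, w) F = (lo v F).biUnion (lo' v w)`, `up'' (v, w) F = (up v F).biUnion (up' v w)` (at most `b b'`
members). Soundness: if all `x ∈ lo'' F` hold at `T`, then for each `G ∈ lo v F` all `x ∈ lo' v w G` hold, so
`dnf G T`; so `dnf F T`. `up`: `free (S ∪ S') T` gives `free S T`, `free S' T`; `dnf F T` gives `dnf G T` for
all `G ∈ up v F`, so all `x ∈ up' v w G` hold. Completeness: for `T` take `v`, then `w`.
-/

namespace Pool.Agent.SH5ee

open Finset

/-- there is a family, indexed by at most `b` cases, of side conditions `S` and of lower and upper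
approximations of all DNFs of `W`, each a conjunction of at most `b` items `x` with `ok x`, such that for every
`T` one case is exact for all members of `W` -/
def Cases {L X : Type} (hold : X → Finset L → Prop) (ok : X → Prop)
    (W : Finset (Finset (Finset L))) (b : ℝ) : Prop :=
  ∃ (ι : Type) (_ : Fintype ι) (S : ι → Finset (Finset L))
    (lo up : ι → Finset (Finset L) → Finset X),
    (Fintype.card ι : ℝ) ≤ b ∧
    (∀ v, ((S v).card : ℝ) ≤ b ∧ ∀ f ∈ S v, f.Nonempty) ∧
    (∀ v, ∀ F ∈ W, ((lo v F).card : ℝ) ≤ b ∧ ((up v F).card : ℝ) ≤ b ∧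
      (∀ x ∈ lo v F, ok x) ∧ (∀ x ∈ up v F, ok x)) ∧
    (∀ v, ∀ F ∈ W, ∀ T : Finset L, (∀ x ∈ lo v F, hold x T) → dnf F T) ∧
    (∀ v, ∀ F ∈ W, ∀ T : Finset L, free (S v) T → dnf F T → ∀ x ∈ up v F, hold x T) ∧
    (∀ T : Finset L, ∃ v, free (S v) T ∧ ∀ F ∈ W,
      (dnf F T → ∀ x ∈ lo v F, hold x T) ∧ ((∀ x ∈ up v F, hold x T) → dnf F T))

/-- one step: DNFs with terms of size `≤ d` become conjunctions of DNFs with terms of size `≤ d - 1` -/
def StepD (d : ℕ) : Prop :=
  ∀ ε : ℝ, 0 < ε → ∃ c : ℝ, 0 < c ∧ ∃ N0 : ℕ, ∀ (L : Type) [Fintype L] [DecidableEq L],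
    N0 ≤ Fintype.card L → ∀ W : Finset (Finset (Finset L)), (∀ F ∈ W, ∀ e ∈ F, e.card ≤ d) →
      (W.card : ℝ) ≤ 2 ^ (c * (Fintype.card L : ℝ)) →
      Cases (fun (G : Finset (Finset L)) T => dnf G T) (fun G => ∀ e ∈ G, e.card ≤ d - 1) W
        (2 ^ (ε * (Fintype.card L : ℝ)))

/-- the whole reduction: DNFs with terms of size `≤ d` become CNFs -/
def AllD (d : ℕ) : Prop :=
  ∀ ε : ℝ, 0 < ε → ∃ c : ℝ, 0 < c ∧ ∃ N0 : ℕ, ∀ (L : Type) [Fintype L] [DecidableEq L],
    N0 ≤ Fintype.card L → ∀ W : Finset (Finset (Finset L)), (∀ F ∈ W, ∀ e ∈ F, e.card ≤ d) →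
      (W.card : ℝ) ≤ 2 ^ (c * (Fintype.card L : ℝ)) →
      Cases (fun (C : Finset L) T => ∃ a ∈ C, a ∈ T) (fun _ => True) W
        (2 ^ (ε * (Fintype.card L : ℝ)))

private theorem Cases_card {α β : Type} [DecidableEq β] (s : Finset α) (f : α → Finset β) (b c : ℝ)
    (hs : (s.card : ℝ) ≤ b) (hc : 0 ≤ c) (h : ∀ a ∈ s, ((f a).card : ℝ) ≤ c) :
    ((s.biUnion f).card : ℝ) ≤ b * c := by
  have h1 : ((s.biUnion f).card : ℝ) ≤ ∑ a ∈ s, ((f a).card : ℝ) := by
    exact_mod_cast Finset.card_biUnion_le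
  refine h1.trans ((Finset.sum_le_sum h).trans ?_)
  rw [Finset.sum_const, nsmul_eq_mul]
  exact mul_le_mul_of_nonneg_right hs hc

theorem cases_comp {L X : Type} [DecidableEq L] (hold : X → Finset L → Prop)
    (ok : Finset (Finset L) → Prop) (W : Finset (Finset (Finset L))) (b b' : ℝ) (hb : 1 ≤ b)
    (hb' : 1 ≤ b')
    (h1 : Cases (fun (G : Finset (Finset L)) T => dnf G T) ok W b)
    (h2 : ∀ W' : Finset (Finset (Finset L)), (∀ G ∈ W', ok G) →
      (W'.card : ℝ) ≤ 2 * b * W.card → Cases hold (fun _ => True) W' b') :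
    Cases hold (fun _ => True) W (2 * (b * b')) := by
  classical
  obtain ⟨ι, fι, S, lo, up, hc, hS, hlu, hlo, hup, hcomp⟩ := h1
  have hbb : b * b' ≤ 2 * (b * b') := by nlinarith
  have hb1 : b ≤ b * b' := le_mul_of_one_le_right (by linarith) hb'
  have hb2 : b' ≤ b * b' := le_mul_of_one_le_left (by linarith) hb
  set W' : ι → Finset (Finset (Finset L)) := fun v => W.biUnion (fun F => lo v F ∪ up v F) with hW'
  have hmem1 : ∀ v, ∀ F ∈ W, ∀ G ∈ lo v F, G ∈ W' v := by
    intro v F hF G hG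
    rw [hW', mem_biUnion]
    exact ⟨F, hF, mem_union_left _ hG⟩
  have hmem2 : ∀ v, ∀ F ∈ W, ∀ G ∈ up v F, G ∈ W' v := by
    intro v F hF G hG
    rw [hW', mem_biUnion]
    exact ⟨F, hF, mem_union_right _ hG⟩
  have h2' : ∀ v, Cases hold (fun _ => True) (W' v) b' := by
    intro v
    refine h2 (W' v) ?_ ?_
    · intro G hG
      rw [hW', mem_biUnion] at hG
      obtain ⟨F, hF, hG⟩ := hG
      obtain ⟨-, -, g1, g2⟩ := hlu v F hF
      rcases mem_union.mp hG with hG | hG
      · exact g1 G hG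
      · exact g2 G hG
    · have h3 := Cases_card W (fun F => lo v F ∪ up v F) W.card (2 * b) le_rfl (by linarith) (by
        intro F hF
        obtain ⟨g1, g2, -, -⟩ := hlu v F hF
        have h4 : ((lo v F ∪ up v F).card : ℝ) ≤ ((lo v F).card : ℝ) + ((up v F).card : ℝ) := by
          exact_mod_cast Finset.card_union_le _ _
        linarith)
      rw [mul_comm]
      exact h3
  choose ι' fι' S' lo' up' hc' hS' hlu' hlo' hup' hcomp' using h2'
  refine ⟨Σ v, ι' v, inferInstance, fun q => S q.1 ∪ S' q.1 q.2,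
    fun q F => (lo q.1 F).biUnion (lo' q.1 q.2), fun q F => (up q.1 F).biUnion (up' q.1 q.2),
    ?_, ?_, ?_, ?_, ?_, ?_⟩
  · rw [Fintype.card_sigma]
    push_cast
    have h3 : ∑ v, ((Fintype.card (ι' v) : ℕ) : ℝ) ≤ ∑ _v : ι, b' :=
      Finset.sum_le_sum fun v _ => hc' v
    rw [Finset.sum_const, nsmul_eq_mul, Finset.card_univ] at h3
    have h4 : (Fintype.card ι : ℝ) * b' ≤ b * b' := mul_le_mul_of_nonneg_right hc (by linarith)
    linarith
  · rintro ⟨v, w⟩
    constructor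
    · have h3 : ((S v ∪ S' v w).card : ℝ) ≤ ((S v).card : ℝ) + ((S' v w).card : ℝ) := by
        exact_mod_cast Finset.card_union_le _ _
      have h4 := (hS v).1
      have h5 := (hS' v w).1
      show ((S v ∪ S' v w).card : ℝ) ≤ 2 * (b * b')
      linarith
    · intro f hf
      rcases mem_union.mp hf with hf | hf
      · exact (hS v).2 f hf
      · exact (hS' v w).2 f hf
  · rintro ⟨v, w⟩ F hF
    obtain ⟨g1, g2, -, -⟩ := hlu v F hF
    refine ⟨?_, ?_, fun _ _ => trivial, fun _ _ => trivial⟩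
    · refine (Cases_card (lo v F) (lo' v w) b b' g1 (by linarith) ?_).trans hbb
      intro G hG
      exact (hlu' v w G (hmem1 v F hF G hG)).1
    · refine (Cases_card (up v F) (up' v w) b b' g2 (by linarith) ?_).trans hbb
      intro G hG
      exact (hlu' v w G (hmem2 v F hF G hG)).2.1
  · rintro ⟨v, w⟩ F hF T hT
    refine hlo v F hF T fun G hG => ?_
    refine hlo' v w G (hmem1 v F hF G hG) T fun x hx => ?_
    exact hT x (mem_biUnion.mpr ⟨G, hG, hx⟩)
  · rintro ⟨v, w⟩ F hF T hfree hd x hx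
    obtain ⟨G, hG, hx⟩ := mem_biUnion.mp hx
    have f1 : free (S v) T := fun f hf => hfree f (mem_union_left _ hf)
    have f2 : free (S' v w) T := fun f hf => hfree f (mem_union_right _ hf)
    exact hup' v w G (hmem2 v F hF G hG) T f2 (hup v F hF T f1 hd G hG) x hx
  · intro T
    obtain ⟨v, f1, g1⟩ := hcomp T
    obtain ⟨w, f2, g2⟩ := hcomp' v T
    refine ⟨⟨v, w⟩, ?_, ?_⟩
    · intro f hf
      rcases mem_union.mp hf with hf | hf
      · exact f1 f hf
      · exact f2 f hf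
    · intro F hF
      constructor
      · intro hd x hx
        obtain ⟨G, hG, hx⟩ := mem_biUnion.mp hx
        exact (g2 G (hmem1 v F hF G hG)).1 ((g1 F hF).1 hd G hG) x hx
      · intro hx
        refine (g1 F hF).2 fun G hG => ?_
        refine (g2 G (hmem2 v F hF G hG)).2 fun x hx' => ?_
        exact hx x (mem_biUnion.mpr ⟨G, hG, hx'⟩)

/-- a larger bound is allowed -/
theorem cases_mono {L X : Type} {hold : X → Finset L → Prop} {ok : X → Prop}
    {W : Finset (Finset (Finset L))} {b b' : ℝ} (h : Cases hold ok W b) (hb : b ≤ b') :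
    Cases hold ok W b' := by
  obtain ⟨ι, fι, S, lo, up, hc, hS, hlu, hlo, hup, hcomp⟩ := h
  refine ⟨ι, fι, S, lo, up, hc.trans hb, fun v => ⟨(hS v).1.trans hb, (hS v).2⟩, ?_, hlo, hup, hcomp⟩
  intro v F hF
  obtain ⟨g1, g2, g3, g4⟩ := hlu v F hF
  exact ⟨g1.trans hb, g2.trans hb, g3, g4⟩

end Pool.Agent.SH5ee
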