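import Pool.Agent.Lib.MP_5ee345_lc.Base

/-!
JOB Ct (`MP_5ee345_lc`): counting the states.

`path_card`: put `N h p r = card {A | Path K d Q W h p r A}`, `x = 1 - 2 ρ`, `m = W.card`. Claim
`N h p r * (x ^ h * ρ ^ p * ρ ^ r) ≤ m ^ r`, by induction on `h + p + r`. By cases on the last step,
`{A | Path h p r A}` is contained in the union of: `{∅}` if `h = p = r = 0`; the image under `heartF K` of the
set for `(h - 1, p, r)` if `h ≥ 1`; the image under `petalF K` of the set for `(h, p - 1, r)` if `p ≥ 1`;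
the image of `(A, F) ↦ roundF d Q F A` on the set for `(h, p, r - 1)` times `W` if `r ≥ 1`. So for
`h + p + r ≥ 1` the left side is at most `x m ^ r + ρ m ^ r + ρ m m ^ (r-1) = m ^ r`
(`x + ρ + ρ = 1`; missing terms are `0`).

`states_card`: sum of `path_card` over `h ≤ H`, `p ≤ P`, `r ≤ R`: each set has at most
`m ^ r / (x ^ h ρ ^ (p + r)) ≤ m ^ R / (x ^ H ρ ^ (P + R))` members (`1 ≤ m`, `0 < x ≤ 1`, `0 < ρ ≤ 1`).
-/

namespace Pool.Agent.SH5ee

open Finset

variable {L : Type} [DecidableEq L] [Fintype L]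

open Classical in
theorem path_sub (K d Q : ℕ) (W : Finset (Finset (Finset L))) (h p r : ℕ) :
    (univ.filter (fun A : Finset (Finset L) => Path K d Q W h p r A)) ⊆
      ((if h + p + r = 0 then {∅} else ∅) ∪
       (if h = 0 then ∅ else
          (univ.filter (fun A : Finset (Finset L) => Path K d Q W (h - 1) p r A)).image
            (heartF K))) ∪
      ((if p = 0 then ∅ else
          (univ.filter (fun A : Finset (Finset L) => Path K d Q W h (p - 1) r A)).image
            (petalF K)) ∪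
       (if r = 0 then ∅ else
          ((univ.filter (fun A : Finset (Finset L) => Path K d Q W h p (r - 1) A)) ×ˢ W).image
            (fun q => roundF d Q q.2 q.1))) := by
  intro A hA
  rw [mem_filter] at hA
  have hA2 := hA.2
  clear hA
  simp only [mem_union]
  cases hA2 with
  | init => left; left; simp
  | heart hp =>
    left; right
    simp only [Nat.add_eq_zero_iff, one_ne_zero, and_false, if_false, Nat.add_sub_cancel]
    exact mem_image.mpr ⟨_, mem_filter.mpr ⟨mem_univ _, hp⟩, rfl⟩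
  | petal hp =>
    right; left
    simp only [Nat.add_eq_zero_iff, one_ne_zero, and_false, if_false, Nat.add_sub_cancel]
    exact mem_image.mpr ⟨_, mem_filter.mpr ⟨mem_univ _, hp⟩, rfl⟩
  | @round _ _ _ B F hp hF =>
    right; right
    simp only [Nat.add_eq_zero_iff, one_ne_zero, and_false, if_false, Nat.add_sub_cancel]
    exact mem_image.mpr ⟨(B, F), mem_product.mpr ⟨mem_filter.mpr ⟨mem_univ _, hp⟩, hF⟩, rfl⟩

/-- the induction step, numbers only -/
theorem Ct_step_num (N : ℕ → ℕ → ℕ → ℕ) (w : ℕ) (ρ x m : ℝ) (h0 : 0 < ρ) (hx : 0 < x)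
    (hxdef : x = 1 - 2 * ρ) (hm : m = (w : ℝ))
    (hc : ∀ h p r, N h p r ≤
      ((if h + p + r = 0 then 1 else 0) + (if h = 0 then 0 else N (h - 1) p r)) +
      ((if p = 0 then 0 else N h (p - 1) r) + (if r = 0 then 0 else N h p (r - 1) * w)))
    (n : ℕ) : ∀ h p r : ℕ, h + p + r = n →
    (N h p r : ℝ) * (x ^ h * ρ ^ p * ρ ^ r) ≤ m ^ r := by
  induction n using Nat.strong_induction_on with
  | _ n ih =>
  intro h p r hn
  have hm0 : 0 ≤ m := by rw [hm]; exact Nat.cast_nonneg _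
  have hc2 : (N h p r : ℝ) ≤ ((if h + p + r = 0 then 1 else 0) +
      (if h = 0 then 0 else (N (h - 1) p r : ℝ))) +
      ((if p = 0 then 0 else (N h (p - 1) r : ℝ)) +
        (if r = 0 then 0 else (N h p (r - 1) : ℝ) * m)) := by
    have := (Nat.cast_le (α := ℝ)).mpr (hc h p r)
    rw [hm]
    push_cast at this
    exact this
  have hw : 0 ≤ x ^ h * ρ ^ p * ρ ^ r := by positivity
  by_cases hz : h + p + r = 0
  · obtain ⟨⟨rfl, rfl⟩, rfl⟩ : (h = 0 ∧ p = 0) ∧ r = 0 := by omega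
    simp only [if_true, add_zero] at hc2
    simp only [pow_zero, mul_one]
    exact hc2
  -- three terms
  have t1 : (if h = 0 then 0 else (N (h - 1) p r : ℝ)) * (x ^ h * ρ ^ p * ρ ^ r) ≤ x * m ^ r := by
    split_ifs with hh
    · rw [zero_mul]; positivity
    · have := ih (h - 1 + p + r) (by omega) (h - 1) p r rfl
      have e : x ^ h = x * x ^ (h - 1) := by
        rw [← pow_succ']
        congr 1
        omega
      rw [e]
      calc (N (h - 1) p r : ℝ) * (x * x ^ (h - 1) * ρ ^ p * ρ ^ r)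
          = x * ((N (h - 1) p r : ℝ) * (x ^ (h - 1) * ρ ^ p * ρ ^ r)) := by ring
        _ ≤ x * m ^ r := mul_le_mul_of_nonneg_left this hx.le
  have t2 : (if p = 0 then 0 else (N h (p - 1) r : ℝ)) * (x ^ h * ρ ^ p * ρ ^ r) ≤ ρ * m ^ r := by
    split_ifs with hh
    · rw [zero_mul]; positivity
    · have := ih (h + (p - 1) + r) (by omega) h (p - 1) r rfl
      have e : ρ ^ p = ρ * ρ ^ (p - 1) := by
        rw [← pow_succ']
        congr 1
        omega
      rw [e]
      calc (N h (p - 1) r : ℝ) * (x ^ h * (ρ * ρ ^ (p - 1)) * ρ ^ r)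
          = ρ * ((N h (p - 1) r : ℝ) * (x ^ h * ρ ^ (p - 1) * ρ ^ r)) := by ring
        _ ≤ ρ * m ^ r := mul_le_mul_of_nonneg_left this h0.le
  have t3 : (if r = 0 then 0 else (N h p (r - 1) : ℝ) * m) * (x ^ h * ρ ^ p * ρ ^ r) ≤
      ρ * m ^ r := by
    split_ifs with hh
    · rw [zero_mul]; positivity
    · have := ih (h + p + (r - 1)) (by omega) h p (r - 1) rfl
      have e : ρ ^ r = ρ * ρ ^ (r - 1) := by
        rw [← pow_succ']
        congr 1
        omega
      have e2 : m ^ r = m * m ^ (r - 1) := by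
        rw [← pow_succ']
        congr 1
        omega
      rw [e, e2]
      calc (N h p (r - 1) : ℝ) * m * (x ^ h * ρ ^ p * (ρ * ρ ^ (r - 1)))
          = (ρ * m) * ((N h p (r - 1) : ℝ) * (x ^ h * ρ ^ p * ρ ^ (r - 1))) := by ring
        _ ≤ (ρ * m) * m ^ (r - 1) := mul_le_mul_of_nonneg_left this (by positivity)
        _ = ρ * (m * m ^ (r - 1)) := by ring
  rw [if_neg hz, zero_add] at hc2
  calc (N h p r : ℝ) * (x ^ h * ρ ^ p * ρ ^ r)
      ≤ ((if h = 0 then 0 else (N (h - 1) p r : ℝ)) +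
        ((if p = 0 then 0 else (N h (p - 1) r : ℝ)) +
          (if r = 0 then 0 else (N h p (r - 1) : ℝ) * m))) * (x ^ h * ρ ^ p * ρ ^ r) :=
        mul_le_mul_of_nonneg_right hc2 hw
    _ = (if h = 0 then 0 else (N (h - 1) p r : ℝ)) * (x ^ h * ρ ^ p * ρ ^ r) +
        ((if p = 0 then 0 else (N h (p - 1) r : ℝ)) * (x ^ h * ρ ^ p * ρ ^ r) +
          (if r = 0 then 0 else (N h p (r - 1) : ℝ) * m) * (x ^ h * ρ ^ p * ρ ^ r)) := by ring
    _ ≤ x * m ^ r + (ρ * m ^ r + ρ * m ^ r) := add_le_add t1 (add_le_add t2 t3)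
    _ = m ^ r := by rw [hxdef]; ring

open Classical in
theorem path_card (K d Q : ℕ) (W : Finset (Finset (Finset L))) (ρ : ℝ) (h0 : 0 < ρ)
    (h1 : ρ < 1 / 2) (h p r : ℕ) :
    ((univ.filter (fun A : Finset (Finset L) => Path K d Q W h p r A)).card : ℝ) *
      ((1 - 2 * ρ) ^ h * ρ ^ p * ρ ^ r) ≤ (W.card : ℝ) ^ r := by
  refine Ct_step_num (fun h p r =>
    (univ.filter (fun A : Finset (Finset L) => Path K d Q W h p r A)).card) W.card ρ (1 - 2 * ρ) W.card h0 (by linarith) rfl rfl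
    ?_ (h + p + r) h p r rfl
  intro h p r
  refine (card_le_card (path_sub K d Q W h p r)).trans ?_
  refine (card_union_le _ _).trans ?_
  refine Nat.add_le_add ((card_union_le _ _).trans ?_) ((card_union_le _ _).trans ?_)
  · refine Nat.add_le_add ?_ ?_
    · split_ifs <;> simp
    · split_ifs
      · simp
      · exact card_image_le
  · refine Nat.add_le_add ?_ ?_
    · split_ifs
      · simp
      · exact card_image_le
    · split_ifs
      · simp
      · exact card_image_le.trans (card_product _ _).le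

open Classical in
theorem states_card (K d Q : ℕ) (W : Finset (Finset (Finset L))) (hW : 1 ≤ W.card) (ρ : ℝ)
    (h0 : 0 < ρ) (h1 : ρ < 1 / 2) (H P R : ℕ) :
    ((univ.filter (fun A : Finset (Finset L) =>
        ∃ h ≤ H, ∃ p ≤ P, ∃ r ≤ R, Path K d Q W h p r A)).card : ℝ) *
      ((1 - 2 * ρ) ^ H * ρ ^ P * ρ ^ R) ≤
      ((H : ℝ) + 1) * ((P : ℝ) + 1) * ((R : ℝ) + 1) * (W.card : ℝ) ^ R := by
  have hx : (0 : ℝ) < 1 - 2 * ρ := by linarith
  have hx1 : 1 - 2 * ρ ≤ 1 := by linarith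
  have hρ1 : ρ ≤ 1 := by linarith
  have hm1 : (1 : ℝ) ≤ (W.card : ℝ) := by exact_mod_cast hW
  have hsub : (univ.filter (fun A : Finset (Finset L) =>
        ∃ h ≤ H, ∃ p ≤ P, ∃ r ≤ R, Path K d Q W h p r A)) ⊆
      ((range (H + 1)) ×ˢ ((range (P + 1)) ×ˢ (range (R + 1)))).biUnion
        (fun q => univ.filter (fun A : Finset (Finset L) => Path K d Q W q.1 q.2.1 q.2.2 A)) := by
    intro A hA
    rw [mem_filter] at hA
    obtain ⟨_, h, hh, p, hp, r, hr, hpath⟩ := hA
    rw [mem_biUnion]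
    refine ⟨(h, p, r), ?_, mem_filter.mpr ⟨mem_univ _, hpath⟩⟩
    simp only [mem_product, mem_range]
    omega
  have hcard : ((univ.filter (fun A : Finset (Finset L) =>
        ∃ h ≤ H, ∃ p ≤ P, ∃ r ≤ R, Path K d Q W h p r A)).card : ℝ) ≤
      ∑ q ∈ (range (H + 1)) ×ˢ ((range (P + 1)) ×ˢ (range (R + 1))),
        ((univ.filter (fun A : Finset (Finset L) => Path K d Q W q.1 q.2.1 q.2.2 A)).card : ℝ) := by
    have := (card_le_card hsub).trans card_biUnion_le
    exact_mod_cast this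
  have hw : 0 ≤ (1 - 2 * ρ) ^ H * ρ ^ P * ρ ^ R := by positivity
  calc ((univ.filter (fun A : Finset (Finset L) =>
        ∃ h ≤ H, ∃ p ≤ P, ∃ r ≤ R, Path K d Q W h p r A)).card : ℝ) *
      ((1 - 2 * ρ) ^ H * ρ ^ P * ρ ^ R)
      ≤ (∑ q ∈ (range (H + 1)) ×ˢ ((range (P + 1)) ×ˢ (range (R + 1))),
        ((univ.filter (fun A : Finset (Finset L) =>
          Path K d Q W q.1 q.2.1 q.2.2 A)).card : ℝ)) * ((1 - 2 * ρ) ^ H * ρ ^ P * ρ ^ R) :=
        mul_le_mul_of_nonneg_right hcard hw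
    _ = ∑ q ∈ (range (H + 1)) ×ˢ ((range (P + 1)) ×ˢ (range (R + 1))),
        ((univ.filter (fun A : Finset (Finset L) =>
          Path K d Q W q.1 q.2.1 q.2.2 A)).card : ℝ) * ((1 - 2 * ρ) ^ H * ρ ^ P * ρ ^ R) := by
        rw [sum_mul]
    _ ≤ ∑ q ∈ (range (H + 1)) ×ˢ ((range (P + 1)) ×ˢ (range (R + 1))), (W.card : ℝ) ^ R := by
        refine sum_le_sum ?_
        rintro ⟨h, p, r⟩ hq
        simp only [mem_product, mem_range] at hq
        have hh : h ≤ H := by omega
        have hp : p ≤ P := by omega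
        have hr : r ≤ R := by omega
        have e1 : (1 - 2 * ρ) ^ H ≤ (1 - 2 * ρ) ^ h := pow_le_pow_of_le_one hx.le hx1 hh
        have e2 : ρ ^ P ≤ ρ ^ p := pow_le_pow_of_le_one h0.le hρ1 hp
        have e3 : ρ ^ R ≤ ρ ^ r := pow_le_pow_of_le_one h0.le hρ1 hr
        have e4 : (1 - 2 * ρ) ^ H * ρ ^ P * ρ ^ R ≤ (1 - 2 * ρ) ^ h * ρ ^ p * ρ ^ r := by
          apply mul_le_mul (mul_le_mul e1 e2 (by positivity) (by positivity)) e3 (by positivity)
            (by positivity)
        have e5 := path_card K d Q W ρ h0 h1 h p r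
        have e6 : (W.card : ℝ) ^ r ≤ (W.card : ℝ) ^ R := pow_le_pow_right₀ hm1 hr
        calc _ ≤ ((univ.filter (fun A : Finset (Finset L) =>
              Path K d Q W h p r A)).card : ℝ) * ((1 - 2 * ρ) ^ h * ρ ^ p * ρ ^ r) :=
              mul_le_mul_of_nonneg_left e4 (Nat.cast_nonneg _)
          _ ≤ _ := e5.trans e6
    _ = ((H : ℝ) + 1) * ((P : ℝ) + 1) * ((R : ℝ) + 1) * (W.card : ℝ) ^ R := by
        rw [sum_const, card_product, card_product, card_range, card_range, card_range,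
          nsmul_eq_mul]
        push_cast
        ring

end Pool.Agent.SH5ee
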