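import Pool.Agent.Lib.MP_5ee345_lc.Mt

/-!
JOB Ds (`MP_5ee345_lc`): distribution, and lower and upper approximations from a state.

`distrib`: for `e ∈ F` with `e.card = d` choose `a e ∈ e ∩ C`. For `J ⊆ C` let
`D J = {e ∈ F : e.card < d} ∪ {{b} : b ∈ J} ∪ {e.erase (a e) : e ∈ F, e.card = d, a e ∉ J}`, and
`D = image of J ↦ D J over C.powerset`. All sets have size at most `d - 1` (`d ≥ 2`).
`dnf F T → dnf (D J) T`: let `e ∈ F`, `e ⊆ T`; clear if `e.card < d`; else `{a e} ⊆ T` if `a e ∈ J`, and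
`e.erase (a e) ⊆ T` if not. Conversely take `J = C \ T`: `{b} ⊆ T` is impossible for `b ∈ J`; if
`e.erase (a e) ⊆ T` with `a e ∉ J`, then `a e ∈ T` (as `a e ∈ C`), so `e ⊆ T`.

`core`: let `M = mt Q (gph d F A)` (`mt_gph_spec`), `C = M.biUnion id` (`C.card ≤ d * Q`),
`F' = {e ∈ F : e.card < d} ∪ {e ∈ gph d F A : ¬ Disjoint e C} ⊆ F`, and `D` from `distrib` for `F'`, `C`.
`lo = D`; `up = ∅` if `M.card = Q` and `up = D` if `M.card < Q`.
Sound: `dnf F' T → dnf F T` as `F' ⊆ F`. If `free A T`, `dnf F T`, `M.card < Q`: let `e ∈ F`, `e ⊆ T`; if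
`e.card = d` then `e` contains no member of `A` (`free A T`), so `e ∈ gph d F A`, and `IsMt.max` gives a
member of `M` which is not disjoint from `e`, so `e ∈ F'`: `dnf F' T`.
Complete: if `M.card < Q` the same. If some `e ∈ M` has `e ⊆ T`, then `e ∈ F'` (`e` nonempty, `e ⊆ C`), so
`dnf F' T` and `dnf F T` hold. (If `M.card = Q` use the second alternative; if both `M.card < Q` and the
second alternative hold, each argument works.)
-/

namespace Pool.Agent.SH5ee

open Finset

variable {L : Type} [DecidableEq L]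

theorem distrib (d : ℕ) (hd : 2 ≤ d) (F : Finset (Finset L)) (C : Finset L)
    (hF : ∀ e ∈ F, e.card ≤ d) (hC : ∀ e ∈ F, e.card = d → ¬ Disjoint e C) :
    ∃ D : Finset (Finset (Finset L)), D.card ≤ 2 ^ C.card ∧ (∀ G ∈ D, ∀ e ∈ G, e.card ≤ d - 1) ∧
      ∀ T : Finset L, dnf F T ↔ ∀ G ∈ D, dnf G T := by
  classical
  by_cases hex : ∃ e ∈ F, e.card = d
  · obtain ⟨e0, he0, hc0⟩ := hex
    obtain ⟨x0, hx0⟩ : e0.Nonempty := Finset.card_pos.1 (by omega)
    have h1 : ∀ e : Finset L, ∃ x, e ∈ F → e.card = d → x ∈ e ∧ x ∈ C := by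
      intro e
      by_cases he : e ∈ F ∧ e.card = d
      · obtain ⟨x, hx1, hx2⟩ := Finset.not_disjoint_iff.1 (hC e he.1 he.2)
        exact ⟨x, fun _ _ => ⟨hx1, hx2⟩⟩
      · exact ⟨x0, fun h2 h3 => absurd ⟨h2, h3⟩ he⟩
    choose a ha using h1
    refine ⟨C.powerset.image (fun J => F.filter (fun e => e.card < d) ∪
      J.image (fun b => ({b} : Finset L)) ∪
      (F.filter (fun e => e.card = d ∧ a e ∉ J)).image (fun e => e.erase (a e))), ?_, ?_, ?_⟩
    · refine Finset.card_image_le.trans ?_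
      rw [Finset.card_powerset]
    · intro G hG e he
      obtain ⟨J, -, rfl⟩ := Finset.mem_image.1 hG
      rw [Finset.mem_union, Finset.mem_union] at he
      rcases he with (he | he) | he
      · have := (Finset.mem_filter.1 he).2
        omega
      · obtain ⟨b, -, rfl⟩ := Finset.mem_image.1 he
        rw [Finset.card_singleton]
        omega
      · obtain ⟨e', he', rfl⟩ := Finset.mem_image.1 he
        obtain ⟨h2, h3, -⟩ := Finset.mem_filter.1 he'
        rw [Finset.card_erase_of_mem (ha e' h2 h3).1, h3]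
    · intro T
      constructor
      · rintro ⟨e, he, heT⟩ G hG
        obtain ⟨J, -, rfl⟩ := Finset.mem_image.1 hG
        rcases Nat.lt_or_ge e.card d with h2 | h2
        · exact ⟨e, Finset.mem_union_left _ (Finset.mem_union_left _
            (Finset.mem_filter.2 ⟨he, h2⟩)), heT⟩
        · have h3 : e.card = d := le_antisymm (hF e he) h2
          by_cases hJ : a e ∈ J
          · refine ⟨{a e}, Finset.mem_union_left _ (Finset.mem_union_right _
              (Finset.mem_image_of_mem _ hJ)), ?_⟩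
            rw [Finset.singleton_subset_iff]
            exact heT (ha e he h3).1
          · refine ⟨e.erase (a e), Finset.mem_union_right _ (Finset.mem_image.2
              ⟨e, Finset.mem_filter.2 ⟨he, h3, hJ⟩, rfl⟩), ?_⟩
            exact (Finset.erase_subset _ _).trans heT
      · intro h2
        obtain ⟨g, hg, hgT⟩ := h2 _ (Finset.mem_image_of_mem _
          (Finset.mem_powerset.2 (Finset.sdiff_subset : C \ T ⊆ C)))
        rw [Finset.mem_union, Finset.mem_union] at hg
        rcases hg with (hg | hg) | hg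
        · exact ⟨g, (Finset.mem_filter.1 hg).1, hgT⟩
        · obtain ⟨b, hb, rfl⟩ := Finset.mem_image.1 hg
          rw [Finset.singleton_subset_iff] at hgT
          exact absurd hgT (Finset.mem_sdiff.1 hb).2
        · obtain ⟨e, he, rfl⟩ := Finset.mem_image.1 hg
          obtain ⟨h3, h4, h5⟩ := Finset.mem_filter.1 he
          obtain ⟨h6, h7⟩ := ha e h3 h4
          refine ⟨e, h3, ?_⟩
          have h8 : a e ∈ T := by
            by_contra h9
            exact h5 (Finset.mem_sdiff.2 ⟨h7, h9⟩)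
          intro x hx
          by_cases hxa : x = a e
          · rw [hxa]
            exact h8
          · exact hgT (Finset.mem_erase.2 ⟨hxa, hx⟩)
  · refine ⟨{F}, ?_, ?_, ?_⟩
    · rw [Finset.card_singleton]
      exact Nat.one_le_two_pow
    · intro G hG e he
      rw [Finset.mem_singleton] at hG
      rw [hG] at he
      have h2 := hF e he
      have h3 : e.card ≠ d := fun h4 => hex ⟨e, he, h4⟩
      omega
    · intro T
      constructor
      · intro h2 G hG
        rw [Finset.mem_singleton] at hG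
        rw [hG]
        exact h2
      · intro h2
        exact h2 F (Finset.mem_singleton_self F)

theorem core (d Q : ℕ) (hd : 2 ≤ d) (F : Finset (Finset L)) (hF : ∀ e ∈ F, e.card ≤ d)
    (A : Finset (Finset L)) :
    ∃ lo up : Finset (Finset (Finset L)), lo.card ≤ 2 ^ (d * Q) ∧ up.card ≤ 2 ^ (d * Q) ∧
      (∀ G ∈ lo, ∀ e ∈ G, e.card ≤ d - 1) ∧ (∀ G ∈ up, ∀ e ∈ G, e.card ≤ d - 1) ∧
      (∀ T : Finset L, (∀ G ∈ lo, dnf G T) → dnf F T) ∧
      (∀ T : Finset L, free A T → dnf F T → ∀ G ∈ up, dnf G T) ∧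
      (∀ T : Finset L, free A T →
        ((mt Q (gph d F A)).card < Q ∨ ∃ e ∈ mt Q (gph d F A), e ⊆ T) →
        (dnf F T → ∀ G ∈ lo, dnf G T) ∧ ((∀ G ∈ up, dnf G T) → dnf F T)) := by
  classical
  have hM := mt_gph_spec Q d (by omega) F A
  set M := mt Q (gph d F A) with hMdef
  set C := M.biUnion id with hC
  set F' := F.filter (fun e => e.card < d) ∪ (gph d F A).filter (fun e => ¬ Disjoint e C) with hF'
  have hgF : ∀ e ∈ gph d F A, e ∈ F ∧ e.card = d := by
    intro e he
    exact ⟨(Finset.mem_filter.1 he).1, (Finset.mem_filter.1 he).2.1⟩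
  have hsub : F' ⊆ F := by
    intro e he
    rw [hF', Finset.mem_union] at he
    rcases he with he | he
    · exact (Finset.mem_filter.1 he).1
    · exact (hgF e (Finset.mem_filter.1 he).1).1
  have hCcard : C.card ≤ d * Q := by
    have h1 : C.card ≤ ∑ e ∈ M, e.card := Finset.card_biUnion_le
    have h2 : ∑ e ∈ M, e.card = M.card * d := by
      rw [Finset.sum_congr rfl fun e he => (hgF e (hM.sub he)).2, Finset.sum_const, smul_eq_mul]
    rw [h2] at h1
    refine h1.trans ?_
    rw [mul_comm]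
    exact Nat.mul_le_mul_left d hM.card
  obtain ⟨D, hD1, hD2, hD3⟩ := distrib d hd F' C (fun e he => hF e (hsub he)) (by
    intro e he hed
    rw [hF', Finset.mem_union] at he
    rcases he with he | he
    · have := (Finset.mem_filter.1 he).2
      omega
    · exact (Finset.mem_filter.1 he).2)
  have hDc : D.card ≤ 2 ^ (d * Q) := hD1.trans (Nat.pow_le_pow_right (by norm_num) hCcard)
  have hmono : ∀ T : Finset L, dnf F' T → dnf F T := by
    rintro T ⟨e, he, heT⟩
    exact ⟨e, hsub he, heT⟩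
  have hlt : M.card < Q → ∀ T : Finset L, free A T → dnf F T → dnf F' T := by
    rintro h1 T hT ⟨e, he, heT⟩
    rcases Nat.lt_or_ge e.card d with h2 | h2
    · exact ⟨e, Finset.mem_union_left _ (Finset.mem_filter.2 ⟨he, h2⟩), heT⟩
    · have h3 : e.card = d := le_antisymm (hF e he) h2
      have h4 : e ∈ gph d F A :=
        Finset.mem_filter.2 ⟨he, h3, fun f hf hfe => hT f hf (hfe.trans heT)⟩
      rcases hM.max with h5 | h5
      · omega
      · obtain ⟨f, hf, hfe⟩ := h5 e h4
        refine ⟨e, Finset.mem_union_right _ (Finset.mem_filter.2 ⟨h4, ?_⟩), heT⟩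
        intro h6
        exact hfe (Finset.disjoint_of_subset_right (Finset.subset_biUnion_of_mem id hf) h6)
  have hin : ∀ T : Finset L, (∃ e ∈ M, e ⊆ T) → dnf F' T := by
    rintro T ⟨e, he, heT⟩
    have h4 := hM.sub he
    have h5 : e ⊆ C := Finset.subset_biUnion_of_mem id he
    obtain ⟨x, hx⟩ : e.Nonempty := Finset.card_pos.1 (by rw [(hgF e h4).2]; omega)
    exact ⟨e, Finset.mem_union_right _ (Finset.mem_filter.2
      ⟨h4, Finset.not_disjoint_iff.2 ⟨x, hx, h5 hx⟩⟩), heT⟩
  by_cases hQ : M.card < Q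
  · refine ⟨D, D, hDc, hDc, hD2, hD2, ?_, ?_, ?_⟩
    · intro T h1
      exact hmono T ((hD3 T).2 h1)
    · intro T hT h1
      exact (hD3 T).1 (hlt hQ T hT h1)
    · intro T hT _
      exact ⟨fun h1 => (hD3 T).1 (hlt hQ T hT h1), fun h1 => hmono T ((hD3 T).2 h1)⟩
  · refine ⟨D, ∅, hDc, by simp, hD2, ?_, ?_, ?_, ?_⟩
    · intro G hG
      exact absurd hG (Finset.notMem_empty G)
    · intro T h1
      exact hmono T ((hD3 T).2 h1)
    · intro T _ _ G hG
      exact absurd hG (Finset.notMem_empty G)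
    · rintro T hT (h1 | h1)
      · exact absurd h1 hQ
      · exact ⟨fun _ => (hD3 T).1 (hin T h1), fun _ => hmono T (hin T h1)⟩

end Pool.Agent.SH5ee
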