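import Pool.Agent.Lib.MP_5ee345_lc.Beta

/-!
JOB ExK (`MP_5ee345_lc`): choice of `K` and `ρ`. `Beta.lean` is imported: `beta_le`.

`exists_K`: let `B = 1 + ∑ s ∈ Ico 1 d, beta K s` and `ρ = 1 / (4 K B)`. By `beta_le`,
`4 K B ≤ C K ^ D` with `C`, `D` depending on `d` only.
With `(1 - x) ≥ 4 ^ (- x)` for `0 ≤ x ≤ 1/2` (concavity, or: `1 - x ≥ exp (- 2 x)` for
`0 ≤ x ≤ 1/2`, which is enough with an other constant) one gets
`(1 - 2 ρ) ^ h ≥ (1 - 2 ρ) ^ (B N) ≥ exp (- 4 ρ B N) = exp (- N / K)` and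
`ρ ^ p ≥ ρ ^ ((d-1) N / K) = exp (- ((d - 1) N / K) log (4 K B))` (real powers, `ρ < 1`, `p ≤ (d-1) N / K`).
So it is enough that `(1 + (d - 1) log (C K ^ D)) / K ≤ ε log 2`, which is true for all large `K`
because `log K / K → 0` (`Real.isLittleO_log_id_atTop`).
-/

namespace Pool.Agent.SH5ee

open Finset

private theorem ExK_choose (c1 c2 η : ℝ) (hη : 0 < η) (hc2 : 0 ≤ c2) :
    ∃ K : ℕ, 1 ≤ K ∧ 1 + c1 + c2 * Real.log (K : ℝ) ≤ η * K := by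
  have hδ : 0 < η / (2 * (c2 + 1)) := by positivity
  have h1 : ∀ᶠ x : ℝ in Filter.atTop, ‖Real.log x‖ ≤ η / (2 * (c2 + 1)) * ‖id x‖ :=
    Real.isLittleO_log_id_atTop.def hδ
  have h2 : ∀ᶠ x : ℝ in Filter.atTop, (1 + c1) / (η / 2) ≤ x := Filter.eventually_ge_atTop _
  have h3 := (tendsto_natCast_atTop_atTop (R := ℝ)).eventually (h1.and h2)
  obtain ⟨K, hK1, hKl, hK2⟩ := ((Filter.eventually_ge_atTop 1).and h3).exists
  refine ⟨K, hK1, ?_⟩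
  have hK0 : (0 : ℝ) < K := by exact_mod_cast hK1
  have e1 : Real.log (K : ℝ) ≤ η / (2 * (c2 + 1)) * K := by
    have := (le_abs_self _).trans hKl
    rwa [id, Real.norm_eq_abs, abs_of_pos hK0] at this
  have e2 : 1 + c1 ≤ η / 2 * K := by
    rw [div_le_iff₀ (by positivity)] at hK2
    linarith
  have e3 : c2 * Real.log (K : ℝ) ≤ (c2 + 1) * (η / (2 * (c2 + 1)) * K) := by
    have e4 : c2 * Real.log (K : ℝ) ≤ c2 * (η / (2 * (c2 + 1)) * K) :=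
      mul_le_mul_of_nonneg_left e1 hc2
    have e5 : 0 ≤ η / (2 * (c2 + 1)) * K := by positivity
    linarith
  have e6 : (c2 + 1) * (η / (2 * (c2 + 1)) * K) = η / 2 * K := by
    field_simp
  linarith

private theorem ExK_exp {x : ℝ} (h0 : 0 ≤ x) (h1 : x ≤ 1 / 2) : Real.exp (-(2 * x)) ≤ 1 - x := by
  rw [Real.exp_neg, inv_le_iff_one_le_mul₀ (Real.exp_pos _)]
  have h2 : 2 * x + 1 ≤ Real.exp (2 * x) := Real.add_one_le_exp _
  have h3 : (1 - x) * (2 * x + 1) ≤ (1 - x) * Real.exp (2 * x) :=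
    mul_le_mul_of_nonneg_left h2 (by linarith)
  nlinarith

private theorem ExK_B (d K : ℕ) (hK : 1 ≤ K) :
    4 * K * (1 + ∑ s ∈ Ico 1 d, beta K s) ≤ ((2 * d + 4) * K) ^ (2 * d + 2) := by
  obtain ⟨a, ha⟩ : ∃ a, a = (2 * d + 4) * K := ⟨_, rfl⟩
  have ha1 : 1 ≤ a := by
    rw [ha]
    exact Nat.mul_pos (by omega) hK
  have ha2 : 2 * d + 4 ≤ a := by
    rw [ha]
    exact Nat.le_mul_of_pos_right _ hK
  have h1 : ∑ s ∈ Ico 1 d, beta K s ≤ ∑ s ∈ Ico 1 d, a ^ (2 * d) := by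
    refine sum_le_sum fun s hs => ?_
    obtain ⟨h2, h3⟩ := mem_Ico.1 hs
    refine (beta_le K d hK s h2 h3.le).trans ?_
    rw [ha]
    exact Nat.pow_le_pow_right (by rw [← ha]; exact ha1) (by omega)
  rw [sum_const, Nat.card_Ico, smul_eq_mul] at h1
  have h4 : 1 ≤ a ^ (2 * d) := Nat.one_le_pow _ _ ha1
  have h5 : (d - 1) * a ^ (2 * d) ≤ d * a ^ (2 * d) := Nat.mul_le_mul_right _ (by omega)
  have h6 : 1 + ∑ s ∈ Ico 1 d, beta K s ≤ a * a ^ (2 * d) := by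
    have h7 : (1 + d) * a ^ (2 * d) ≤ a * a ^ (2 * d) := Nat.mul_le_mul_right _ (by omega)
    have h8 : (1 + d) * a ^ (2 * d) = a ^ (2 * d) + d * a ^ (2 * d) := by ring
    omega
  have h9 : 4 * K ≤ a := by
    rw [ha]
    exact Nat.mul_le_mul_right _ (by omega)
  calc 4 * K * (1 + ∑ s ∈ Ico 1 d, beta K s) ≤ a * (a * a ^ (2 * d)) := Nat.mul_le_mul h9 h6
    _ = ((2 * d + 4) * K) ^ (2 * d + 2) := by
      rw [← ha]
      ring

theorem exists_K (d : ℕ) (ε : ℝ) (hε : 0 < ε) : ∃ K : ℕ, 1 ≤ K ∧ ∃ ρ : ℝ, 0 < ρ ∧ ρ < 1 / 2 ∧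
    ∀ N h p : ℕ, h ≤ (∑ s ∈ Ico 1 d, beta K s) * N → p * K ≤ (d - 1) * N →
      (2 : ℝ) ^ (-(ε * (N : ℝ))) ≤ (1 - 2 * ρ) ^ h * ρ ^ p := by
  have hlog2 : 0 < Real.log 2 := Real.log_pos (by norm_num)
  obtain ⟨K, hK1, hK⟩ := ExK_choose (((d : ℝ) * (2 * d + 2)) * Real.log (2 * d + 4))
    ((d : ℝ) * (2 * d + 2)) (ε * Real.log 2) (by positivity) (by positivity)
  refine ⟨K, hK1, ?_⟩
  have hK0 : (0 : ℝ) < K := by exact_mod_cast hK1
  have hK1' : (1 : ℝ) ≤ K := by exact_mod_cast hK1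
  obtain ⟨S, hS⟩ : ∃ S : ℕ, S = ∑ s ∈ Ico 1 d, beta K s := ⟨_, rfl⟩
  have hB := ExK_B d K hK1
  rw [← hS] at hB ⊢
  obtain ⟨B, hBdef⟩ : ∃ B : ℝ, B = 1 + (S : ℝ) := ⟨_, rfl⟩
  have hS0 : (0 : ℝ) ≤ S := Nat.cast_nonneg S
  have hB1 : 1 ≤ B := by rw [hBdef]; linarith
  have hB0 : 0 < B := by linarith
  obtain ⟨M, hM⟩ : ∃ M : ℝ, M = 4 * K * B := ⟨_, rfl⟩
  have hM4 : 4 ≤ M := by
    rw [hM]
    nlinarith
  have hM0 : 0 < M := by linarith
  have hlogM0 : 0 ≤ Real.log M := Real.log_nonneg (by linarith)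
  have hlogM : Real.log M ≤ (2 * d + 2) * (Real.log (2 * d + 4) + Real.log K) := by
    have h1 : M ≤ (((2 : ℝ) * d + 4) * K) ^ (2 * d + 2) := by
      rw [hM, hBdef]
      exact_mod_cast hB
    have h2 := Real.log_le_log hM0 h1
    rw [Real.log_pow, Real.log_mul (by positivity) (ne_of_gt hK0)] at h2
    push_cast at h2
    exact h2
  have hcond : 1 + ((d - 1 : ℕ) : ℝ) * Real.log M ≤ ε * Real.log 2 * K := by
    refine le_trans ?_ hK
    have h1 : ((d - 1 : ℕ) : ℝ) ≤ d := by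
      have : d - 1 ≤ d := Nat.sub_le _ _
      exact_mod_cast this
    have h2 : ((d - 1 : ℕ) : ℝ) * Real.log M ≤ d * Real.log M :=
      mul_le_mul_of_nonneg_right h1 hlogM0
    have h3 : (d : ℝ) * Real.log M ≤ d * ((2 * d + 2) * (Real.log (2 * d + 4) + Real.log K)) :=
      mul_le_mul_of_nonneg_left hlogM (Nat.cast_nonneg d)
    have h4 : (d : ℝ) * ((2 * d + 2) * (Real.log (2 * d + 4) + Real.log K)) =
        (d : ℝ) * (2 * d + 2) * Real.log (2 * d + 4) + (d : ℝ) * (2 * d + 2) * Real.log K := by ring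
    linarith
  have hρ0 : 0 < M⁻¹ := inv_pos.2 hM0
  have hρ4 : M⁻¹ ≤ 1 / 4 := by
    rw [inv_le_comm₀ hM0 (by norm_num)]
    linarith
  refine ⟨M⁻¹, hρ0, by linarith, ?_⟩
  intro N h p hh hp
  have hN0 : (0 : ℝ) ≤ N := Nat.cast_nonneg N
  -- the first factor
  have f1 : Real.exp (-(N / K)) ≤ (1 - 2 * M⁻¹) ^ h := by
    have g1 : Real.exp (-(2 * (2 * M⁻¹))) ≤ 1 - 2 * M⁻¹ := ExK_exp (by positivity) (by linarith)
    have g2 : Real.exp (-(2 * (2 * M⁻¹))) ^ h ≤ (1 - 2 * M⁻¹) ^ h :=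
      pow_le_pow_left₀ (Real.exp_pos _).le g1 h
    refine le_trans ?_ g2
    rw [← Real.exp_nat_mul]
    apply Real.exp_le_exp.2
    have g3 : (h : ℝ) ≤ B * N := by
      have g4 : (h : ℝ) ≤ S * N := by exact_mod_cast hh
      have g5 : (S : ℝ) * N ≤ B * N := mul_le_mul_of_nonneg_right (by rw [hBdef]; linarith) hN0
      linarith
    have g6 : (h : ℝ) * (4 * M⁻¹) ≤ B * N * (4 * M⁻¹) :=
      mul_le_mul_of_nonneg_right g3 (by positivity)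
    have g7 : B * N * (4 * M⁻¹) = N / K := by
      rw [hM]
      field_simp
    linarith
  have f2 : Real.exp (-(((d - 1 : ℕ) : ℝ) * Real.log M * (N / K))) ≤ M⁻¹ ^ p := by
    have g1 : M⁻¹ = Real.exp (-Real.log M) := by
      rw [Real.exp_neg, Real.exp_log hM0]
    rw [g1, ← Real.exp_nat_mul]
    apply Real.exp_le_exp.2
    have g2 : (p : ℝ) ≤ ((d - 1 : ℕ) : ℝ) * (N / K) := by
      rw [← mul_div_assoc, le_div_iff₀ hK0]
      exact_mod_cast hp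
    have g3 : (p : ℝ) * Real.log M ≤ ((d - 1 : ℕ) : ℝ) * (N / K) * Real.log M :=
      mul_le_mul_of_nonneg_right g2 hlogM0
    linarith
  have f3 : Real.exp (-(N / K)) * Real.exp (-(((d - 1 : ℕ) : ℝ) * Real.log M * (N / K))) ≤
      (1 - 2 * M⁻¹) ^ h * M⁻¹ ^ p :=
    mul_le_mul f1 f2 (Real.exp_pos _).le (pow_nonneg (by linarith) _)
  refine le_trans ?_ f3
  rw [← Real.exp_add, Real.rpow_def_of_pos (by norm_num : (0 : ℝ) < 2)]
  apply Real.exp_le_exp.2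
  have f4 : (1 + ((d - 1 : ℕ) : ℝ) * Real.log M) * (N / K) ≤ ε * Real.log 2 * K * (N / K) :=
    mul_le_mul_of_nonneg_right hcond (by positivity)
  have f5 : ε * Real.log 2 * K * (N / K) = Real.log 2 * (ε * N) := by
    field_simp
  rw [f5] at f4
  linarith

end Pool.Agent.SH5ee
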