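import Mathlib

/-!
JOB FinNum (`MP_5ee345_lc`): numerical facts for the final theorem.

`num_k`: `k = Nat.clog 2 m`; `m ≤ 2 ^ k` (`Nat.le_pow_clog`), `2 ^ k ≤ 2 m` (for `m = 1`, `k = 0`; else
`2 ^ (k - 1) < m`), so `2 ^ k ≤ 2 * 2 ^ (n / (4 ℓ))`, `k ≤ 1 + n / (4 ℓ)` (real), and a natural number
`k ≤ 1 + x / 4` with real `x = n / ℓ ≥ 0` satisfies `k ≤ ⌊x⌋ + 1` (if `x < 1` then `k ≤ 1`; else
`1 + x / 4 ≤ x ≤ ⌊x⌋ + 1`...), and `⌊(n : ℝ) / ℓ⌋ = n / ℓ` (`Nat.floor_div_eq_div`).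
`num_A`: with `b = 2 ^ (n / (4 ℓ)) ≥ 1`: `2 ^ k ≤ 2 b`, `Z ≤ 4 b (4 n + 1) t (2 s)`, `k t + 1 ≤ (n + 1) t + 1`, so the left
side is at most `C (n + 1) ^ 2 b ^ 2 s + 1` with `C` depending on `t`, `b ^ 2 = 2 ^ (n / (2 ℓ))`, and
`(n + 1) ^ 2 ≤ C' 2 ^ (n / (2 ℓ))`; `2 ^ (n / (2 ℓ)) * 2 ^ (n / (2 ℓ)) = 2 ^ (n / ℓ)`.
`num_C`: the left side is at most `C 4 ^ n = C (2 ^ (2 c n)) ^ (1 / c) ≤ C s ^ (1 / c) ≤ C s ^ g` for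
`g ≥ 1 / c` (`s ≥ 1`).
-/

namespace Pool.Agent.SH5ee

/-- a polynomial is at most a constant times an exponential -/
theorem poly_le_exp (C : ℝ) (D : ℕ) (δ : ℝ) (hδ : 0 < δ) : ∃ C' : ℝ, 0 < C' ∧ ∀ N : ℕ,
    C * ((N : ℝ) + 1) ^ D ≤ C' * 2 ^ (δ * (N : ℝ)) := by
  obtain ⟨a, ha⟩ : ∃ a, a = δ * Real.log 2 := ⟨_, rfl⟩
  have hlog : 0 < Real.log 2 := Real.log_pos (by norm_num)
  have ha0 : 0 < a := by rw [ha]; positivity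
  have hfac : (0 : ℝ) < (Nat.factorial D : ℝ) := by exact_mod_cast Nat.factorial_pos D
  refine ⟨|C| * ((Nat.factorial D : ℝ) / a ^ D) * Real.exp a + 1, by positivity, fun N => ?_⟩
  have h1 : (a * ((N : ℝ) + 1)) ^ D / (Nat.factorial D : ℝ) ≤ Real.exp (a * ((N : ℝ) + 1)) :=
    Real.pow_div_factorial_le_exp _ (by positivity) D
  have h2 : ((N : ℝ) + 1) ^ D ≤ ((Nat.factorial D : ℝ) / a ^ D) * (Real.exp a * Real.exp (a * N)) := by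
    rw [← Real.exp_add]
    have e : a + a * (N : ℝ) = a * ((N : ℝ) + 1) := by ring
    rw [e]
    rw [div_le_iff₀ hfac, mul_pow] at h1
    rw [div_mul_eq_mul_div, le_div_iff₀ (by positivity)]
    linarith
  have h3 : (2 : ℝ) ^ (δ * (N : ℝ)) = Real.exp (a * N) := by
    rw [Real.rpow_def_of_pos (by norm_num), ha]
    congr 1
    ring
  rw [h3]
  have h4 : C * ((N : ℝ) + 1) ^ D ≤ |C| * ((N : ℝ) + 1) ^ D :=
    mul_le_mul_of_nonneg_right (le_abs_self C) (by positivity)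
  have h5 : |C| * ((N : ℝ) + 1) ^ D ≤
      |C| * (((Nat.factorial D : ℝ) / a ^ D) * (Real.exp a * Real.exp (a * N))) :=
    mul_le_mul_of_nonneg_left h2 (abs_nonneg C)
  have h6 : 0 < Real.exp (a * N) := Real.exp_pos _
  calc C * ((N : ℝ) + 1) ^ D ≤ |C| * (((Nat.factorial D : ℝ) / a ^ D) * (Real.exp a * Real.exp (a * N))) :=
        h4.trans h5
    _ = |C| * ((Nat.factorial D : ℝ) / a ^ D) * Real.exp a * Real.exp (a * N) := by ring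
    _ ≤ (|C| * ((Nat.factorial D : ℝ) / a ^ D) * Real.exp a + 1) * Real.exp (a * N) := by
        rw [add_mul]
        linarith

theorem num_k (n ℓ m : ℕ) (hℓ : 1 ≤ ℓ) (hm : 1 ≤ m) (h : (m : ℝ) ≤ 2 ^ ((n : ℝ) / (4 * ℓ))) :
    ∃ k : ℕ, m ≤ 2 ^ k ∧ (2 : ℝ) ^ k ≤ 2 * 2 ^ ((n : ℝ) / (4 * ℓ)) ∧ k ≤ n / ℓ + 1 := by
  have h1 : m ≤ 2 ^ Nat.clog 2 m := Nat.le_pow_clog one_lt_two m
  have h2 : 2 ^ Nat.clog 2 m ≤ 2 * m := by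
    rcases Nat.lt_or_ge 1 m with h3 | h3
    · have h4 := Nat.pow_pred_clog_lt_self one_lt_two h3
      have h5 : 0 < Nat.clog 2 m := Nat.clog_pos one_lt_two h3
      have h6 : 2 ^ Nat.clog 2 m = 2 * 2 ^ (Nat.clog 2 m).pred := by
        conv_lhs => rw [← Nat.succ_pred_eq_of_pos h5]
        rw [pow_succ]
        ring
      omega
    · have h4 : m = 1 := by omega
      subst h4
      simp
  have hℓ0 : (0 : ℝ) < (ℓ : ℝ) := by exact_mod_cast hℓ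
  have h3 : (2 : ℝ) ^ Nat.clog 2 m ≤ 2 * 2 ^ ((n : ℝ) / (4 * ℓ)) := by
    have h4 : (2 : ℝ) ^ Nat.clog 2 m ≤ 2 * (m : ℝ) := by exact_mod_cast h2
    linarith
  refine ⟨Nat.clog 2 m, h1, h3, ?_⟩
  have h4 : (2 : ℝ) ^ ((Nat.clog 2 m : ℕ) : ℝ) ≤ (2 : ℝ) ^ (1 + (n : ℝ) / (4 * ℓ)) := by
    rw [Real.rpow_natCast, Real.rpow_add (by norm_num), Real.rpow_one]
    exact h3
  have h5 : ((Nat.clog 2 m : ℕ) : ℝ) ≤ 1 + (n : ℝ) / (4 * ℓ) :=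
    (Real.rpow_le_rpow_left_iff (by norm_num)).1 h4
  have h6 : Nat.clog 2 m - 1 ≤ n / ℓ := by
    rw [Nat.le_div_iff_mul_le (by omega)]
    rcases Nat.eq_zero_or_pos (Nat.clog 2 m) with h7 | h7
    · rw [h7]
      simp
    · have h8 : (((Nat.clog 2 m - 1 : ℕ) : ℝ)) = ((Nat.clog 2 m : ℕ) : ℝ) - 1 := by
        rw [Nat.cast_sub h7, Nat.cast_one]
      have h9 : ((Nat.clog 2 m - 1 : ℕ) : ℝ) * (ℓ : ℝ) ≤ (n : ℝ) := by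
        rw [h8]
        have h10 : ((Nat.clog 2 m : ℕ) : ℝ) - 1 ≤ (n : ℝ) / (4 * ℓ) := by linarith
        have h11 := mul_le_mul_of_nonneg_right h10 hℓ0.le
        have h12 : (n : ℝ) / (4 * ℓ) * ℓ = n / 4 := by
          field_simp
        have h13 : (0 : ℝ) ≤ n := Nat.cast_nonneg n
        linarith
      exact_mod_cast h9
  omega

theorem num_A (t ℓ : ℕ) (hℓ : 1 ≤ ℓ) : ∃ g : ℕ, ∀ n k Z s : ℕ, 1 ≤ s → k ≤ n + 1 →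
    (2 : ℝ) ^ k ≤ 2 * 2 ^ ((n : ℝ) / (4 * ℓ)) →
    (Z : ℝ) ≤ (2 ^ ((n : ℝ) / (4 * ℓ)) + 3) * (4 * (n : ℝ) + 1) * (t : ℝ) * ((s : ℝ) + 1) →
    ((2 ^ k * (Z * (k * t + 1)) + 1 : ℕ) : ℝ) ≤ g * 2 ^ ((n : ℝ) / ℓ) * (s : ℝ) := by
  have hℓ0 : (0 : ℝ) < (ℓ : ℝ) := by exact_mod_cast hℓ
  obtain ⟨C', hC', hpoly⟩ := poly_le_exp (64 * (t : ℝ) * ((t : ℝ) + 1)) 2 (1 / (2 * ℓ)) (by positivity)
  refine ⟨⌈C' + 1⌉₊, fun n k Z s hs hk h2k hZ => ?_⟩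
  have hs1 : (1 : ℝ) ≤ s := by exact_mod_cast hs
  have hn0 : (0 : ℝ) ≤ n := Nat.cast_nonneg n
  have ht0 : (0 : ℝ) ≤ t := Nat.cast_nonneg t
  obtain ⟨b, hb⟩ : ∃ b : ℝ, b = 2 ^ ((n : ℝ) / (4 * ℓ)) := ⟨_, rfl⟩
  rw [← hb] at h2k hZ
  have hb1 : 1 ≤ b := by
    rw [hb]
    exact Real.one_le_rpow (by norm_num) (by positivity)
  have hb0 : 0 < b := by linarith
  have hk' : (k : ℝ) ≤ (n : ℝ) + 1 := by exact_mod_cast hk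
  have e1 : ((2 ^ k * (Z * (k * t + 1)) + 1 : ℕ) : ℝ) = (2 : ℝ) ^ k * ((Z : ℝ) * ((k : ℝ) * t + 1)) + 1 := by
    push_cast
    ring
  rw [e1]
  have hZ2 : (Z : ℝ) ≤ (4 * b) * (4 * ((n : ℝ) + 1)) * t * (2 * s) := by
    refine hZ.trans ?_
    have i1 : b + 3 ≤ 4 * b := by linarith
    have i2 : 4 * (n : ℝ) + 1 ≤ 4 * ((n : ℝ) + 1) := by linarith
    have i3 : (s : ℝ) + 1 ≤ 2 * s := by linarith
    have j1 : (b + 3) * (4 * (n : ℝ) + 1) ≤ (4 * b) * (4 * ((n : ℝ) + 1)) :=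
      mul_le_mul i1 i2 (by positivity) (by positivity)
    exact mul_le_mul (mul_le_mul_of_nonneg_right j1 ht0) i3 (by positivity) (by positivity)
  have hkt : (k : ℝ) * t + 1 ≤ ((n : ℝ) + 1) * ((t : ℝ) + 1) := by
    have : (k : ℝ) * t ≤ ((n : ℝ) + 1) * t := mul_le_mul_of_nonneg_right hk' ht0
    nlinarith
  have hk0 : (0 : ℝ) ≤ (k : ℝ) * t + 1 := by positivity
  have h1 : (2 : ℝ) ^ k * ((Z : ℝ) * ((k : ℝ) * t + 1)) ≤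
      (2 * b) * (((4 * b) * (4 * ((n : ℝ) + 1)) * t * (2 * s)) * (((n : ℝ) + 1) * ((t : ℝ) + 1))) := by
    refine mul_le_mul h2k ?_ (by positivity) (by positivity)
    exact mul_le_mul hZ2 hkt hk0 (by positivity)
  have h2 : (2 * b) * (((4 * b) * (4 * ((n : ℝ) + 1)) * t * (2 * s)) * (((n : ℝ) + 1) * ((t : ℝ) + 1))) =
      (64 * (t : ℝ) * ((t : ℝ) + 1) * ((n : ℝ) + 1) ^ 2) * (b * b) * s := by ring
  rw [h2] at h1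
  have hbb : b * b = 2 ^ ((1 : ℝ) / (2 * ℓ) * n) := by
    rw [hb, ← Real.rpow_add (by norm_num)]
    congr 1
    field_simp
    ring
  have hbb2 : (2 : ℝ) ^ ((1 : ℝ) / (2 * ℓ) * n) * 2 ^ ((1 : ℝ) / (2 * ℓ) * n) = 2 ^ ((n : ℝ) / ℓ) := by
    rw [← Real.rpow_add (by norm_num)]
    congr 1
    field_simp
    ring
  have h3 : (64 * (t : ℝ) * ((t : ℝ) + 1) * ((n : ℝ) + 1) ^ 2) * (b * b) * s ≤ C' * 2 ^ ((n : ℝ) / ℓ) * s := by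
    rw [hbb, ← hbb2, ← mul_assoc]
    refine mul_le_mul_of_nonneg_right ?_ (by positivity)
    exact mul_le_mul_of_nonneg_right (hpoly n) (by positivity)
  have h4 : (1 : ℝ) ≤ 2 ^ ((n : ℝ) / ℓ) := Real.one_le_rpow (by norm_num) (by positivity)
  have h5 : (C' + 1) ≤ (⌈C' + 1⌉₊ : ℝ) := Nat.le_ceil _
  have h6 : (1 : ℝ) ≤ 2 ^ ((n : ℝ) / ℓ) * s := by nlinarith
  have h7 : (C' + 1) * (2 ^ ((n : ℝ) / ℓ) * s) ≤ (⌈C' + 1⌉₊ : ℝ) * (2 ^ ((n : ℝ) / ℓ) * s) :=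
    mul_le_mul_of_nonneg_right h5 (by positivity)
  calc (2 : ℝ) ^ k * ((Z : ℝ) * ((k : ℝ) * t + 1)) + 1 ≤ C' * 2 ^ ((n : ℝ) / ℓ) * s + 2 ^ ((n : ℝ) / ℓ) * s := by
        linarith
    _ = (C' + 1) * (2 ^ ((n : ℝ) / ℓ) * s) := by ring
    _ ≤ (⌈C' + 1⌉₊ : ℝ) * (2 ^ ((n : ℝ) / ℓ) * s) := h7
    _ = ⌈C' + 1⌉₊ * 2 ^ ((n : ℝ) / ℓ) * (s : ℝ) := by ring

theorem num_C (t : ℕ) (c : ℝ) (hc : 0 < c) : ∃ g : ℕ, ∀ n s : ℕ, (2 : ℝ) ^ (2 * c * (n : ℝ)) ≤ s →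
    ((2 ^ n * (n * t + 1) + 2 * t + 2 : ℕ) : ℝ) ≤ g * (s : ℝ) ^ g := by
  obtain ⟨g0, hg0⟩ : ∃ g0 : ℕ, g0 = ⌈1 / c⌉₊ := ⟨_, rfl⟩
  refine ⟨max (3 * t + 3) g0, fun n s hs => ?_⟩
  have hs1 : (1 : ℝ) ≤ s := by
    have : (1 : ℝ) ≤ (2 : ℝ) ^ (2 * c * (n : ℝ)) := Real.one_le_rpow (by norm_num) (by positivity)
    linarith
  have h1 : (4 : ℝ) ^ n ≤ (s : ℝ) ^ g0 := by
    have e1 : ((2 : ℝ) ^ (2 * c * (n : ℝ))) ^ (1 / c) = (4 : ℝ) ^ n := by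
      rw [← Real.rpow_mul (by norm_num)]
      have e2 : 2 * c * (n : ℝ) * (1 / c) = 2 * (n : ℝ) := by
        field_simp
      rw [e2, Real.rpow_mul (by norm_num), Real.rpow_natCast]
      norm_num
    rw [← e1]
    have h2 : ((2 : ℝ) ^ (2 * c * (n : ℝ))) ^ (1 / c) ≤ (s : ℝ) ^ (1 / c) :=
      Real.rpow_le_rpow (by positivity) hs (by positivity)
    refine h2.trans ?_
    rw [← Real.rpow_natCast]
    refine Real.rpow_le_rpow_of_exponent_le hs1 ?_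
    rw [hg0]
    exact Nat.le_ceil _
  have h2 : (2 ^ n * (n * t + 1) + 2 * t + 2 : ℕ) ≤ (3 * t + 3) * 4 ^ n := by
    have i1 : n * t + 1 ≤ (t + 1) * 2 ^ n := by
      have j1 : n ≤ 2 ^ n := Nat.lt_two_pow_self.le
      have j2 : 1 ≤ 2 ^ n := Nat.one_le_two_pow
      have j3 : n * t ≤ 2 ^ n * t := Nat.mul_le_mul_right t j1
      nlinarith
    have i2 : 2 ^ n * (n * t + 1) ≤ 2 ^ n * ((t + 1) * 2 ^ n) := Nat.mul_le_mul_left _ i1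
    have i3 : 2 ^ n * ((t + 1) * 2 ^ n) = (t + 1) * 4 ^ n := by
      have : (4 : ℕ) ^ n = 2 ^ n * 2 ^ n := by
        rw [← mul_pow]
        norm_num
      rw [this]
      ring
    have i4 : 1 ≤ 4 ^ n := Nat.one_le_pow _ _ (by norm_num)
    nlinarith
  have h3 : ((2 ^ n * (n * t + 1) + 2 * t + 2 : ℕ) : ℝ) ≤ ((3 * t + 3 : ℕ) : ℝ) * (4 : ℝ) ^ n := by
    exact_mod_cast h2
  have h4 : ((3 * t + 3 : ℕ) : ℝ) ≤ ((max (3 * t + 3) g0 : ℕ) : ℝ) := by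
    exact_mod_cast le_max_left _ _
  have h5 : (s : ℝ) ^ g0 ≤ (s : ℝ) ^ (max (3 * t + 3) g0) := pow_le_pow_right₀ hs1 (le_max_right _ _)
  refine h3.trans (mul_le_mul h4 (h1.trans h5) (by positivity) (by positivity))

end Pool.Agent.SH5ee
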