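import Pool.Agent.Lib.MP_5ee345_lc.FmA

/-!
JOB FmE (`MP_5ee345_lc`): selector variables. `FmA.lean` is imported (may hold `sorry`).

`selector`: as `Fintype.card ι ≤ 2 ^ k = card (Fin k → Bool)` and `ι` is nonempty there is a surjection
`π : (Fin k → Bool) → ι`. Let `φ'` be the list
`(Finset.univ : Finset (Fin k → Bool)).toList.flatMap (fun y0 => (Φ (π y0)).map (fun δ =>
   (List.ofFn (fun j : Fin k => emb t (Sum.inr j, !(y0 j)))) ++ ren (fun a => (Sum.inl a.1, a.2)) (t + 1) δ))`.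
`Holds (litVal (Sum.elim x y)) (t+2) true φ'` iff for all `y0` and all `δ ∈ Φ (π y0)`: `∃ j, y j ≠ y0 j` or
`Holds (litVal x) (t+1) false δ` (`holds_emb`, `holds_ren`), iff all `δ ∈ Φ (π y)` hold, iff `Φ (π y)` holds.
Sizes: `δ` becomes a formula of size `size δ + k (t + 2)` (`size_emb`, `size_ren`); `Φ (π y0)` has at most
`Z` children of total size at most `Z`.

-/

namespace Pool.Agent.SH5ee

private theorem FmE_flat {α β : Type} (g : α → List β) (s : β → ℕ) (B : ℕ)
    (h : ∀ y, ((g y).map s).sum ≤ B) (l : List α) :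
    ((l.flatMap g).map s).sum ≤ l.length * B := by
  induction l with
  | nil => simp
  | cons a l ih =>
    rw [List.flatMap_cons, List.map_append, List.sum_append, List.length_cons, add_mul, one_mul]
    have := h a
    omega

private theorem FmE_add (l : List ℕ) (c : ℕ) : (l.map (fun x => x + c)).sum = l.sum + l.length * c := by
  induction l with
  | nil => simp
  | cons a l ih =>
    rw [List.map_cons, List.sum_cons, ih, List.sum_cons, List.length_cons, add_mul, one_mul]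
    omega

variable {V : Type}

/-- the literals which say that the selector variables are different from `y0` -/
private def FmE_sel (V : Type) (t k : ℕ) (y0 : Fin k → Bool) : List (Fm ((V ⊕ Fin k) × Bool) t) :=
  List.ofFn (fun j : Fin k => emb t ((Sum.inr j, !(y0 j)) : (V ⊕ Fin k) × Bool))

/-- the renaming of the old literals -/
private def FmE_old (V : Type) (k : ℕ) (a : V × Bool) : (V ⊕ Fin k) × Bool := (Sum.inl a.1, a.2)

/-- the new child -/
private def FmE_ch (t k : ℕ) (y0 : Fin k → Bool) (δ : Fm (V × Bool) (t + 1)) :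
    Fm ((V ⊕ Fin k) × Bool) (t + 1) :=
  (FmE_sel V t k y0 ++ (ren (FmE_old V k) (t + 1) δ : List (Fm ((V ⊕ Fin k) × Bool) t)) :
    List (Fm ((V ⊕ Fin k) × Bool) t))

private theorem FmE_ch_holds (t k : ℕ) (y0 : Fin k → Bool) (δ : Fm (V × Bool) (t + 1))
    (x : V → Bool) (y : Fin k → Bool) :
    Fm.Holds (litVal (Sum.elim x y)) (t + 1) false (FmE_ch t k y0 δ) ↔
      y ≠ y0 ∨ Fm.Holds (litVal x) (t + 1) false δ := by
  have h1 : Fm.Holds (litVal (Sum.elim x y)) (t + 1) false (FmE_ch t k y0 δ) ↔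
      (∃ φ ∈ FmE_sel V t k y0, Fm.Holds (litVal (Sum.elim x y)) t true φ) ∨
        Fm.Holds (litVal (Sum.elim x y)) (t + 1) false (ren (FmE_old V k) (t + 1) δ) := by
    show (∃ φ ∈ (FmE_sel V t k y0 ++ (ren (FmE_old V k) (t + 1) δ :
      List (Fm ((V ⊕ Fin k) × Bool) t))), Fm.Holds (litVal (Sum.elim x y)) t true φ) ↔
      (∃ φ ∈ FmE_sel V t k y0, Fm.Holds (litVal (Sum.elim x y)) t true φ) ∨
        ∃ φ ∈ (ren (FmE_old V k) (t + 1) δ : List (Fm ((V ⊕ Fin k) × Bool) t)),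
          Fm.Holds (litVal (Sum.elim x y)) t true φ
    constructor
    · rintro ⟨φ, hφ, h⟩
      rcases List.mem_append.1 hφ with h2 | h2
      · exact Or.inl ⟨φ, h2, h⟩
      · exact Or.inr ⟨φ, h2, h⟩
    · rintro (⟨φ, hφ, h⟩ | ⟨φ, hφ, h⟩)
      · exact ⟨φ, List.mem_append.2 (Or.inl hφ), h⟩
      · exact ⟨φ, List.mem_append.2 (Or.inr hφ), h⟩
  have h2 : (∃ φ ∈ FmE_sel V t k y0, Fm.Holds (litVal (Sum.elim x y)) t true φ) ↔ y ≠ y0 := by
    unfold FmE_sel
    constructor
    · rintro ⟨φ, hφ, h⟩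
      obtain ⟨j, rfl⟩ := (List.mem_ofFn' _ _).1 hφ
      have h3 := (holds_emb _ t true _).1 h
      have h4 : y j = !(y0 j) := h3
      intro h5
      rw [h5] at h4
      cases hb : y0 j <;> rw [hb] at h4 <;> exact absurd h4 (by decide)
    · intro h
      obtain ⟨j, hj⟩ := Function.ne_iff.1 h
      refine ⟨emb t ((Sum.inr j, !(y0 j)) : (V ⊕ Fin k) × Bool), (List.mem_ofFn' _ _).2 ⟨j, rfl⟩, ?_⟩
      rw [holds_emb]
      show y j = !(y0 j)
      cases hb : y0 j <;> cases hc : y j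
      · exact absurd (hc.trans hb.symm) hj
      · rfl
      · rfl
      · exact absurd (hc.trans hb.symm) hj
  rw [h1, h2, holds_ren]
  exact Iff.rfl

private theorem FmE_ch_wf (t k : ℕ) (y0 : Fin k → Bool) (δ : Fm (V × Bool) (t + 1))
    (h : Fm.Wf 1 (t + 1) δ) : Fm.Wf 1 (t + 1) (FmE_ch t k y0 δ) := by
  obtain ⟨h1, h2⟩ := wf_ren (FmE_old V k) 1 (t + 1) δ h
  refine ⟨?_, ?_⟩
  · intro h3
    have h4 : FmE_sel V t k y0 ++ (ren (FmE_old V k) (t + 1) δ :
      List (Fm ((V ⊕ Fin k) × Bool) t)) = [] := h3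
    exact h1 (List.append_eq_nil_iff.1 h4).2
  · intro φ hφ
    rcases List.mem_append.1 hφ with h3 | h3
    · obtain ⟨j, rfl⟩ := (List.mem_ofFn' _ _).1 h3
      exact wf_emb t _
    · exact h2 φ h3

private theorem FmE_ch_size (t k : ℕ) (y0 : Fin k → Bool) (δ : Fm (V × Bool) (t + 1)) :
    Fm.size (t + 1) (FmE_ch t k y0 δ) = Fm.size (t + 1) δ + k * (t + 2) := by
  have h1 := size_ren (FmE_old V k) (t + 1) δ
  have h2 : Fm.size (t + 1) (ren (FmE_old V k) (t + 1) δ) =
      ((ren (FmE_old V k) (t + 1) δ : List (Fm ((V ⊕ Fin k) × Bool) t)).map (Fm.size t)).sum + 1 := rfl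
  have h3 : Fm.size (t + 1) (FmE_ch t k y0 δ) = ((FmE_sel V t k y0 ++
      (ren (FmE_old V k) (t + 1) δ : List (Fm ((V ⊕ Fin k) × Bool) t))).map (Fm.size t)).sum + 1 := rfl
  have h4 : ((FmE_sel V t k y0).map (Fm.size t)).sum = k * (t + 2) := by
    unfold FmE_sel
    rw [List.map_ofFn]
    have h5 : (Fm.size t ∘ fun j : Fin k => emb t ((Sum.inr j, !(y0 j)) : (V ⊕ Fin k) × Bool)) =
        fun _ => t + 2 := by
      funext j
      exact size_emb t _
    rw [h5, List.sum_ofFn]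
    simp
  rw [h3, List.map_append, List.sum_append, h4]
  omega

variable {V : Type} [Fintype V] [DecidableEq V]

theorem selector (t k Z : ℕ) (ι : Type) [Fintype ι] [Nonempty ι] (hk : Fintype.card ι ≤ 2 ^ k)
    (Φ : ι → Fm (V × Bool) (t + 2)) (hΦ : ∀ v, Fm.Wf 1 (t + 2) (Φ v))
    (hZ : ∀ v, Fm.size (t + 2) (Φ v) ≤ Z) :
    ∃ φ' : Fm ((V ⊕ Fin k) × Bool) (t + 2), Fm.Wf 1 (t + 2) φ' ∧
      Fm.size (t + 2) φ' ≤ 2 ^ k * (Z * (k * (t + 2) + 1)) + 1 ∧
      ∀ x : V → Bool, (∃ y : Fin k → Bool,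
        Fm.Holds (litVal (Sum.elim x y)) (t + 2) true φ') ↔
          ∃ v, Fm.Holds (litVal x) (t + 2) true (Φ v) := by
  classical
  -- the surjection
  obtain ⟨π, hπ⟩ : ∃ π : (Fin k → Bool) → ι, Function.Surjective π := by
    have h1 : Fintype.card ι ≤ Fintype.card (Fin k → Bool) := by
      rw [Fintype.card_fun, Fintype.card_bool, Fintype.card_fin]
      exact hk
    obtain ⟨f⟩ := Function.Embedding.nonempty_of_card_le h1
    exact ⟨Function.invFun f, Function.invFun_surjective f.injective⟩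
  obtain ⟨l, hl⟩ : ∃ l, l = (Finset.univ : Finset (Fin k → Bool)).toList := ⟨_, rfl⟩
  have hlm : ∀ y, y ∈ l := by
    intro y
    rw [hl, Finset.mem_toList]
    exact Finset.mem_univ y
  have hll : l.length = 2 ^ k := by
    rw [hl, Finset.length_toList, Finset.card_univ, Fintype.card_fun, Fintype.card_bool,
      Fintype.card_fin]
  refine ⟨(l.flatMap (fun y0 => ((Φ (π y0) : List (Fm (V × Bool) (t + 1))).map (FmE_ch t k y0))) :
    List (Fm ((V ⊕ Fin k) × Bool) (t + 1))), ⟨?_, ?_⟩, ?_, ?_⟩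
  · intro h
    obtain ⟨h1, -⟩ := hΦ (π (fun _ => true))
    have h2 := (List.flatMap_eq_nil_iff.1 h) (fun _ => true) (hlm _)
    exact h1 (List.map_eq_nil_iff.1 h2)
  · intro φ hφ
    obtain ⟨y0, -, h1⟩ := List.mem_flatMap.1 hφ
    obtain ⟨δ, h2, rfl⟩ := List.mem_map.1 h1
    exact FmE_ch_wf t k y0 δ ((hΦ (π y0)).2 δ h2)
  · show ((l.flatMap (fun y0 => ((Φ (π y0) : List (Fm (V × Bool) (t + 1))).map
      (FmE_ch t k y0)))).map (Fm.size (t + 1))).sum + 1 ≤ _
    refine Nat.add_le_add_right ?_ 1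
    rw [← hll]
    refine FmE_flat _ _ _ ?_ l
    intro y0
    have h1 : Fm.size (t + 2) (Φ (π y0)) =
      ((Φ (π y0) : List (Fm (V × Bool) (t + 1))).map (Fm.size (t + 1))).sum + 1 := rfl
    have h2 := hZ (π y0)
    have h3 := children_le (t + 1) (Φ (π y0) : List (Fm (V × Bool) (t + 1)))
    have h4 : (((Φ (π y0) : List (Fm (V × Bool) (t + 1))).map (FmE_ch t k y0)).map
        (Fm.size (t + 1))) = ((Φ (π y0) : List (Fm (V × Bool) (t + 1))).map
          (Fm.size (t + 1))).map (fun x => x + k * (t + 2)) := by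
      rw [List.map_map, List.map_map]
      refine List.map_congr_left fun δ _ => ?_
      exact FmE_ch_size t k y0 δ
    rw [h4, FmE_add, List.length_map]
    have h5 : (Φ (π y0) : List (Fm (V × Bool) (t + 1))).length + 1 ≤
      Fm.size (t + 2) (Φ (π y0)) := h3
    have h6 : (Φ (π y0) : List (Fm (V × Bool) (t + 1))).length * (k * (t + 2)) ≤
        Z * (k * (t + 2)) := Nat.mul_le_mul_right _ (by omega)
    have h7 : Z * (k * (t + 2) + 1) = Z * (k * (t + 2)) + Z := by ring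
    rw [h7]
    omega
  · intro x
    have key : ∀ y : Fin k → Bool, Fm.Holds (litVal (Sum.elim x y)) (t + 2) true
        (l.flatMap (fun y0 => ((Φ (π y0) : List (Fm (V × Bool) (t + 1))).map (FmE_ch t k y0))) :
          List (Fm ((V ⊕ Fin k) × Bool) (t + 1))) ↔
        Fm.Holds (litVal x) (t + 2) true (Φ (π y)) := by
      intro y
      show (∀ φ ∈ (l.flatMap (fun y0 => ((Φ (π y0) : List (Fm (V × Bool) (t + 1))).map
        (FmE_ch t k y0)))), Fm.Holds (litVal (Sum.elim x y)) (t + 1) false φ) ↔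
        ∀ δ ∈ (Φ (π y) : List (Fm (V × Bool) (t + 1))), Fm.Holds (litVal x) (t + 1) false δ
      constructor
      · intro h δ hδ
        have h1 := h (FmE_ch t k y δ) (List.mem_flatMap.2 ⟨y, hlm y, List.mem_map.2 ⟨δ, hδ, rfl⟩⟩)
        rcases (FmE_ch_holds t k y δ x y).1 h1 with h2 | h2
        · exact absurd rfl h2
        · exact h2
      · intro h φ hφ
        obtain ⟨y0, -, h1⟩ := List.mem_flatMap.1 hφ
        obtain ⟨δ, h2, rfl⟩ := List.mem_map.1 h1
        rw [FmE_ch_holds]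
        by_cases hy : y = y0
        · right
          rw [← hy] at h2
          exact h δ h2
        · exact Or.inl hy
    constructor
    · rintro ⟨y, hy⟩
      exact ⟨π y, (key y).1 hy⟩
    · rintro ⟨v, hv⟩
      obtain ⟨y, rfl⟩ := hπ v
      exact ⟨y, (key y).2 hv⟩

end Pool.Agent.SH5ee
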