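import Pool.Agent.Lib.MP_5ee345_lc.FmA

/-!
JOB FmG (`MP_5ee345_lc`): the full CNF of a predicate. `FmA.lean` is imported (may hold `sorry`).

`fullCnf`: if `P` is true everywhere, use the single clause `[emb t (v0, true), emb t (v0, false)]`
(size `2 (t+2) + 2`). Otherwise the list over all `z` with `¬ P z` of the clause
`Finset.univ.toList.map (fun v => emb t (v, !(z v)))`, which says that the assignment is not `z`.
-/

namespace Pool.Agent.SH5ee

variable {V : Type} [Fintype V] [DecidableEq V]

private theorem FmG_sum_const {α : Type} (l : List α) (h : α → ℕ) (c : ℕ) (hc : ∀ a ∈ l, h a = c) :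
    (l.map h).sum = l.length * c := by
  induction l with
  | nil => simp
  | cons a l ih =>
    rw [List.map_cons, List.sum_cons, hc a List.mem_cons_self, ih (fun b hb => hc b (List.mem_cons_of_mem a hb)),
      List.length_cons]
    ring

/-- the clause which says that the assignment is not `z` -/
noncomputable def FmG_cl (t : ℕ) (z : V → Bool) : Fm (V × Bool) (t + 1) :=
  ((Finset.univ : Finset V).toList.map (fun v => emb t (v, !(z v))) : List (Fm (V × Bool) t))

theorem FmG_holds (t : ℕ) (z x : V → Bool) :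
    Fm.Holds (litVal x) (t + 1) false (FmG_cl t z) ↔ x ≠ z := by
  have h1 : Fm.Holds (litVal x) (t + 1) false (FmG_cl t z) ↔
      ∃ ψ ∈ ((Finset.univ : Finset V).toList.map (fun v => emb t (v, !(z v))) : List (Fm (V × Bool) t)),
        Fm.Holds (litVal x) t true ψ := Iff.rfl
  rw [h1]
  constructor
  · rintro ⟨ψ, hψ, hv⟩ hxz
    rw [List.mem_map] at hψ
    obtain ⟨v, -, rfl⟩ := hψ
    rw [holds_emb] at hv
    have hv' : x v = !(z v) := hv
    rw [hxz] at hv'
    cases hz : z v <;> rw [hz] at hv' <;> simp at hv'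
  · intro hne
    have h2 : ∃ v, x v ≠ z v := by
      by_contra hcon
      push Not at hcon
      exact hne (funext hcon)
    obtain ⟨v, hv⟩ := h2
    refine ⟨emb t (v, !(z v)), List.mem_map.2 ⟨v, Finset.mem_toList.2 (Finset.mem_univ v), rfl⟩, ?_⟩
    rw [holds_emb]
    show x v = !(z v)
    cases hx : x v <;> cases hz : z v <;> rw [hx, hz] at hv <;> simp_all

theorem FmG_wf (v0 : V) (t : ℕ) (z : V → Bool) : Fm.Wf 1 (t + 1) (FmG_cl t z) := by
  refine ⟨?_, ?_⟩
  · intro h
    have h1 : emb t (v0, !(z v0)) ∈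
        ((Finset.univ : Finset V).toList.map (fun v => emb t (v, !(z v))) : List (Fm (V × Bool) t)) :=
      List.mem_map.2 ⟨v0, Finset.mem_toList.2 (Finset.mem_univ v0), rfl⟩
    have h2 : ((Finset.univ : Finset V).toList.map (fun v => emb t (v, !(z v))) : List (Fm (V × Bool) t)) = [] := h
    rw [h2] at h1
    exact absurd h1 List.not_mem_nil
  · intro ψ hψ
    have hψ' : ψ ∈ ((Finset.univ : Finset V).toList.map (fun v => emb t (v, !(z v))) : List (Fm (V × Bool) t)) := hψ
    rw [List.mem_map] at hψ'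
    obtain ⟨v, -, rfl⟩ := hψ'
    exact wf_emb t _

theorem FmG_size (t : ℕ) (z : V → Bool) :
    Fm.size (t + 1) (FmG_cl t z) = Fintype.card V * (t + 2) + 1 := by
  have h1 : Fm.size (t + 1) (FmG_cl t z) =
      ((((Finset.univ : Finset V).toList.map (fun v => emb t (v, !(z v))) : List (Fm (V × Bool) t)).map
        (Fm.size t)).sum + 1) := rfl
  rw [h1, FmG_sum_const _ (Fm.size t) (t + 2), List.length_map, Finset.length_toList, Finset.card_univ]
  intro a ha
  rw [List.mem_map] at ha
  obtain ⟨v, -, rfl⟩ := ha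
  exact size_emb t _

theorem fullCnf (v0 : V) (t : ℕ) (P : (V → Bool) → Prop) :
    ∃ φ' : Fm (V × Bool) (t + 2), Fm.Wf 1 (t + 2) φ' ∧
      Fm.size (t + 2) φ' ≤ 2 ^ Fintype.card V * (Fintype.card V * (t + 2) + 1) + 2 * (t + 2) + 2 ∧
      ∀ x : V → Bool, Fm.Holds (litVal x) (t + 2) true φ' ↔ P x := by
  classical
  by_cases hall : ∀ x, P x
  · refine ⟨([([emb t (v0, true), emb t (v0, false)] : List (Fm (V × Bool) t))] : List (Fm (V × Bool) (t + 1))),
      ⟨List.cons_ne_nil _ _, ?_⟩, ?_, ?_⟩
    · intro ψ hψ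
      rw [List.mem_singleton] at hψ
      rw [hψ]
      refine ⟨List.cons_ne_nil _ _, ?_⟩
      intro χ hχ
      rw [List.mem_cons, List.mem_singleton] at hχ
      rcases hχ with rfl | rfl
      · exact wf_emb t _
      · exact wf_emb t _
    · have h1 : Fm.size (t + 2) ([([emb t (v0, true), emb t (v0, false)] : List (Fm (V × Bool) t))] :
          List (Fm (V × Bool) (t + 1))) =
          (((Fm.size t (emb t (v0, true)) + (Fm.size t (emb t (v0, false)) + 0)) + 1) + 0) + 1 := rfl
      rw [h1, size_emb, size_emb]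
      have h2 : 0 ≤ 2 ^ Fintype.card V * (Fintype.card V * (t + 2) + 1) := Nat.zero_le _
      linarith
    · intro x
      refine ⟨fun _ => hall x, fun _ => ?_⟩
      intro ψ hψ
      rw [List.mem_singleton] at hψ
      rw [hψ]
      cases hx : x v0
      · refine ⟨emb t (v0, false), List.mem_cons_of_mem _ (List.mem_singleton_self _), ?_⟩
        rw [holds_emb]
        exact hx
      · refine ⟨emb t (v0, true), List.mem_cons_self, ?_⟩
        rw [holds_emb]
        exact hx
  · push Not at hall
    obtain ⟨z0, hz0⟩ := hall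
    obtain ⟨Z, hZ⟩ : ∃ Z : Finset (V → Bool), Z = Finset.univ.filter (fun z => ¬ P z) := ⟨_, rfl⟩
    have hmemZ : ∀ z, z ∈ Z ↔ ¬ P z := by
      intro z
      rw [hZ, Finset.mem_filter]
      exact ⟨fun h => h.2, fun h => ⟨Finset.mem_univ z, h⟩⟩
    refine ⟨(Z.toList.map (fun z => FmG_cl t z) : List (Fm (V × Bool) (t + 1))), ⟨?_, ?_⟩, ?_, ?_⟩
    · intro h
      have h1 : FmG_cl t z0 ∈ (Z.toList.map (fun z => FmG_cl t z) : List (Fm (V × Bool) (t + 1))) :=
        List.mem_map.2 ⟨z0, Finset.mem_toList.2 ((hmemZ z0).2 hz0), rfl⟩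
      rw [h] at h1
      exact absurd h1 List.not_mem_nil
    · intro ψ hψ
      have hψ' : ψ ∈ (Z.toList.map (fun z => FmG_cl t z) : List (Fm (V × Bool) (t + 1))) := hψ
      rw [List.mem_map] at hψ'
      obtain ⟨z, -, rfl⟩ := hψ'
      exact FmG_wf v0 t z
    · have h1 : Fm.size (t + 2) (Z.toList.map (fun z => FmG_cl t z) : List (Fm (V × Bool) (t + 1))) =
          (((Z.toList.map (fun z => FmG_cl t z) : List (Fm (V × Bool) (t + 1))).map (Fm.size (t + 1))).sum + 1) := rfl
      rw [h1, FmG_sum_const _ (Fm.size (t + 1)) (Fintype.card V * (t + 2) + 1), List.length_map,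
        Finset.length_toList]
      · have h2 : Z.card ≤ 2 ^ Fintype.card V := by
          have h3 : Z.card ≤ Fintype.card (V → Bool) := Finset.card_le_univ Z
          rwa [Fintype.card_fun, Fintype.card_bool] at h3
        have h4 := Nat.mul_le_mul_right (Fintype.card V * (t + 2) + 1) h2
        linarith
      · intro a ha
        rw [List.mem_map] at ha
        obtain ⟨z, -, rfl⟩ := ha
        exact FmG_size t z
    · intro x
      have h1 : Fm.Holds (litVal x) (t + 2) true (Z.toList.map (fun z => FmG_cl t z) : List (Fm (V × Bool) (t + 1))) ↔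
          ∀ ψ ∈ (Z.toList.map (fun z => FmG_cl t z) : List (Fm (V × Bool) (t + 1))),
            Fm.Holds (litVal x) (t + 1) false ψ := Iff.rfl
      rw [h1]
      constructor
      · intro h
        by_contra hP
        have h2 := h (FmG_cl t x) (List.mem_map.2 ⟨x, Finset.mem_toList.2 ((hmemZ x).2 hP), rfl⟩)
        rw [FmG_holds] at h2
        exact h2 rfl
      · intro hP ψ hψ
        rw [List.mem_map] at hψ
        obtain ⟨z, hz, rfl⟩ := hψ
        rw [FmG_holds]
        rintro rfl
        exact (hmemZ _).1 (Finset.mem_toList.1 hz) hP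

end Pool.Agent.SH5ee
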