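import Pool.Agent.Lib.MP_5ee345_lc.FmH
import Pool.Agent.Lib.MP_5ee345_lc.FmE
import Pool.Agent.Lib.MP_5ee345_lc.FmG
import Pool.Agent.Lib.MP_5ee345_lc.All
import Pool.Agent.Lib.MP_5ee345_lc.FinNum

/-!
JOB Fin (`MP_5ee345_lc`): the final theorem. The imported files may hold `sorry`.

`t = t' + 2` (`obtain ⟨t', rfl⟩ : ∃ t', t = t' + 2`). `AllD d` (`allD`) with `ε = 1 / (8 ℓ)` gives `c`, `N0`; here
`L = Fin n × Bool`, `Fintype.card L = 2 n`, and `2 ^ (ε * card L) = 2 ^ (n / (4 ℓ)) = b`. `num_A t ℓ` gives `gA`, `num_C t c`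
gives `gC`, `gB = 2 ^ N0 * (N0 * t + 1) + 2 * t + 2`, `g = max (max gA gB) gC + 1`. A well-formed `φ` has a literal
(`wf_nonempty`), so there is `v0 : Fin n`. Let `s = size φ ≥ 1` (`size_pos`).
(A) `N0 ≤ 2 n` and `s ≤ 2 ^ (2 c n)`: `family v0 t' d φ _ b` (its hypothesis `hC`: `W.card ≤ s ≤ 2 ^ (c * card L)`) gives
`ι`, `Φ`; `num_k n ℓ (card ι)` gives `k` with `card ι ≤ 2 ^ k`. `selector` with
`Z = ⌊(b + 3) * (4 n + 1) * (t' + 2) * (s + 1)⌋₊` gives `φ'`, and `num_A` bounds the size by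
`gA * 2 ^ (n / ℓ) * s ≤ g * 2 ^ (n / ℓ) * s ^ g`. The equivalence: `family` then `selector`.
(B) `2 n < N0`: `fullCnf v0 t' (fun x => Fm.Holds (litVal x) t true φ)`, `k = 0`; rename the variables with
`ren (fun a => (Sum.inl a.1, a.2))` (`holds_ren`, `wf_ren`, `size_ren`; the `y : Fin 0 → Bool` exists and is
irrelevant); size at most `gB`, and `1 ≤ 2 ^ (n / ℓ)`, `1 ≤ s ^ g`.
(C) `N0 ≤ 2 n` and `s > 2 ^ (2 c n)`: `fullCnf` again, size at most `gC * s ^ gC` by `num_C`.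
-/

namespace Pool.Agent.SH5ee

private theorem Fin_bound (g' g : ℕ) (h : g' ≤ g) (s E A : ℝ) (hs : 1 ≤ s) (hE : 1 ≤ E)
    (hA : A ≤ g' * s ^ g') : A ≤ g * E * s ^ g := by
  have h1 : (g' : ℝ) ≤ (g : ℝ) := by exact_mod_cast h
  have h2 : s ^ g' ≤ s ^ g := pow_le_pow_right₀ hs h
  have h3 : (0 : ℝ) ≤ g' := Nat.cast_nonneg g'
  have h4 : (g' : ℝ) * s ^ g' ≤ (g : ℝ) * s ^ g := mul_le_mul h1 h2 (by positivity) (by positivity)
  have h5 : (g : ℝ) * s ^ g ≤ (g : ℝ) * s ^ g * E :=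
    le_mul_of_one_le_right (by positivity) hE
  calc A ≤ (g : ℝ) * s ^ g * E := hA.trans (h4.trans h5)
    _ = g * E * s ^ g := by ring

private theorem Fin_full {n : ℕ} (v0 : Fin n) (t' : ℕ) (φ : Fm (Fin n × Bool) (t' + 2)) :
    ∃ φ' : Fm ((Fin n ⊕ Fin 0) × Bool) (t' + 2), Fm.Wf 1 (t' + 2) φ' ∧
      Fm.size (t' + 2) φ' ≤ 2 ^ n * (n * (t' + 2) + 1) + 2 * (t' + 2) + 2 ∧
        ∀ x : Fin n → Bool, Fm.Holds (litVal x) (t' + 2) true φ ↔
          ∃ y : Fin 0 → Bool, Fm.Holds (litVal (Sum.elim x y)) (t' + 2) true φ' := by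
  obtain ⟨φ0, h1, h2, h3⟩ := fullCnf v0 t' (fun x => Fm.Holds (litVal x) (t' + 2) true φ)
  refine ⟨ren (fun a => (Sum.inl a.1, a.2)) (t' + 2) φ0, wf_ren _ 1 (t' + 2) φ0 h1, ?_, ?_⟩
  · rw [size_ren]
    rw [Fintype.card_fin] at h2
    exact h2
  · intro x
    have h4 : ∀ y : Fin 0 → Bool, Fm.Holds (litVal (Sum.elim x y)) (t' + 2) true
        (ren (fun a => (Sum.inl a.1, a.2)) (t' + 2) φ0) ↔ Fm.Holds (litVal x) (t' + 2) true φ0 := by
      intro y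
      rw [holds_ren]
      exact Iff.rfl
    constructor
    · intro h
      exact ⟨fun i => i.elim0, (h4 _).2 ((h3 x).2 h)⟩
    · rintro ⟨y, hy⟩
      exact (h3 x).1 ((h4 y).1 hy)

theorem main_thm (t d ℓ : ℕ) (ht : 2 ≤ t) (hd : 1 ≤ d) (hℓ : 1 ≤ ℓ) :
    ∃ g : ℕ, ∀ (n : ℕ) (φ : Fm (Fin n × Bool) t), Fm.Wf d t φ →
      ∃ k : ℕ, k ≤ n / ℓ + 1 ∧ ∃ φ' : Fm ((Fin n ⊕ Fin k) × Bool) t, Fm.Wf 1 t φ' ∧
        (Fm.size t φ' : ℝ) ≤ g * 2 ^ ((n : ℝ) / ℓ) * (Fm.size t φ : ℝ) ^ g ∧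
        (Fm.size t φ ^ g ≤ 2 ^ n → (Fm.size t φ' : ℝ) ≤ g * 2 ^ ((n : ℝ) / ℓ) * Fm.size t φ) ∧
        ∀ x : Fin n → Bool, Fm.Holds (litVal x) t true φ ↔
          ∃ y : Fin k → Bool, Fm.Holds (litVal (Sum.elim x y)) t true φ' := by
  obtain ⟨t', rfl⟩ : ∃ t', t = t' + 2 := ⟨t - 2, by omega⟩
  have hℓ0 : (0 : ℝ) < (ℓ : ℝ) := by exact_mod_cast hℓ
  obtain ⟨c, hc, N0, hall⟩ := allD d hd (1 / (8 * ℓ)) (by positivity)
  obtain ⟨gA, hgA⟩ := num_A (t' + 2) ℓ hℓ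
  obtain ⟨gC, hgC⟩ := num_C (t' + 2) c hc
  obtain ⟨gB, hgB⟩ : ∃ gB : ℕ, gB = 2 ^ N0 * (N0 * (t' + 2) + 1) + 2 * (t' + 2) + 2 := ⟨_, rfl⟩
  obtain ⟨g, hg⟩ : ∃ g : ℕ, g = max (max gA gB) gC + (⌈1 / (2 * c)⌉₊ + 1) := ⟨_, rfl⟩
  have hgA' : gA ≤ g := by
    rw [hg]
    exact ((le_max_left gA gB).trans (le_max_left _ gC)).trans (Nat.le_add_right _ _)
  have hgB' : gB ≤ g := by
    rw [hg]
    exact ((le_max_right gA gB).trans (le_max_left _ gC)).trans (Nat.le_add_right _ _)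
  have hgC' : gC ≤ g := by
    rw [hg]
    exact (le_max_right _ gC).trans (Nat.le_add_right _ _)
  have hg1 : 1 ≤ g := by
    rw [hg]
    omega
  have hgc : 1 ≤ 2 * c * (g : ℝ) := by
    have i1 : 1 / (2 * c) ≤ (⌈1 / (2 * c)⌉₊ : ℝ) := Nat.le_ceil _
    have i2 : (⌈1 / (2 * c)⌉₊ : ℝ) ≤ (g : ℝ) := by
      have : ⌈1 / (2 * c)⌉₊ ≤ g := by rw [hg]; omega
      exact_mod_cast this
    have i3 : 1 / (2 * c) ≤ (g : ℝ) := i1.trans i2
    rw [div_le_iff₀ (by positivity)] at i3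
    linarith
  refine ⟨g, fun n φ hφ => ?_⟩
  obtain ⟨v00⟩ := wf_nonempty d (t' + 2) φ hφ
  have v0 : Fin n := v00.1
  obtain ⟨s, hs⟩ : ∃ s : ℕ, s = Fm.size (t' + 2) φ := ⟨_, rfl⟩
  have hs1 : 1 ≤ s := by
    rw [hs]
    exact size_pos (t' + 2) φ
  have hs1' : (1 : ℝ) ≤ (s : ℝ) := by exact_mod_cast hs1
  have hE : (1 : ℝ) ≤ (2 : ℝ) ^ ((n : ℝ) / ℓ) := Real.one_le_rpow (by norm_num) (by positivity)
  rw [← hs]
  by_cases hN : N0 ≤ 2 * n
  · by_cases hsz : (s : ℝ) ≤ 2 ^ (2 * c * (n : ℝ))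
    · -- case (A)
      have hcardL : Fintype.card (Fin n × Bool) = 2 * n := by
        rw [Fintype.card_prod, Fintype.card_fin, Fintype.card_bool]
        ring
      have hcardL' : ((Fintype.card (Fin n × Bool) : ℕ) : ℝ) = 2 * (n : ℝ) := by
        rw [hcardL]
        push_cast
        ring
      obtain ⟨b, hb⟩ : ∃ b : ℝ, b = 2 ^ ((n : ℝ) / (4 * ℓ)) := ⟨_, rfl⟩
      have hb1 : 1 ≤ b := by
        rw [hb]
        exact Real.one_le_rpow (by norm_num) (by positivity)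
      have hCases : ∀ W : Finset (Finset (Finset (Fin n × Bool))), (∀ F ∈ W, ∀ e ∈ F, e.card ≤ d) →
          W.card ≤ Fm.size (t' + 2) φ →
          Cases (fun (C : Finset (Fin n × Bool)) T => ∃ a ∈ C, a ∈ T) (fun _ => True) W b := by
        intro W hW hWc
        have h1 := hall (Fin n × Bool) (by rw [hcardL]; exact hN) W hW (by
          rw [hcardL']
          have h2 : (W.card : ℝ) ≤ (s : ℝ) := by
            rw [hs]
            exact_mod_cast hWc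
          refine h2.trans (hsz.trans (le_of_eq ?_))
          congr 1
          ring)
        rw [hcardL'] at h1
        have h2 : (2 : ℝ) ^ (1 / (8 * (ℓ : ℝ)) * (2 * (n : ℝ))) = b := by
          rw [hb]
          congr 1
          field_simp
          ring
        rw [h2] at h1
        exact h1
      obtain ⟨ι, hι1, hι2, Φ, hcard, hwf, hsize, hequiv⟩ := family v0 t' d φ hφ b hb1 hCases
      have hcard1 : 1 ≤ Fintype.card ι := Fintype.card_pos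
      obtain ⟨k, hk1, hk2, hk3⟩ := num_k n ℓ (Fintype.card ι) hℓ hcard1 (by rw [← hb]; exact hcard)
      rw [← hs, Fintype.card_fin] at hsize
      obtain ⟨Z, hZ⟩ : ∃ Z : ℕ, Z = ⌊(b + 3) * (4 * (n : ℝ) + 1) * ((t' : ℝ) + 2) * ((s : ℝ) + 1)⌋₊ := ⟨_, rfl⟩
      have hZ1 : ∀ v, Fm.size (t' + 2) (Φ v) ≤ Z := by
        intro v
        rw [hZ]
        exact Nat.le_floor (hsize v)
      have hZ2 : (Z : ℝ) ≤ (2 ^ ((n : ℝ) / (4 * ℓ)) + 3) * (4 * (n : ℝ) + 1) * ((t' + 2 : ℕ) : ℝ) * ((s : ℝ) + 1) := by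
        rw [hZ, ← hb]
        refine (Nat.floor_le (by positivity)).trans (le_of_eq ?_)
        push_cast
        ring
      obtain ⟨φ', h1, h2, h3⟩ := selector t' k Z ι hk1 Φ hwf hZ1
      have hkn : k ≤ n + 1 := hk3.trans (Nat.add_le_add_right (Nat.div_le_self n ℓ) 1)
      have h4 := hgA n k Z s hs1 hkn hk2 hZ2
      have h5 : (Fm.size (t' + 2) φ' : ℝ) ≤ ((2 ^ k * (Z * (k * (t' + 2) + 1)) + 1 : ℕ) : ℝ) := by
        exact_mod_cast h2
      have h6 : (gA : ℝ) ≤ (g : ℝ) := by exact_mod_cast hgA'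
      have hlin : (Fm.size (t' + 2) φ' : ℝ) ≤ g * 2 ^ ((n : ℝ) / ℓ) * (s : ℝ) :=
        (h5.trans h4).trans
          (mul_le_mul_of_nonneg_right (mul_le_mul_of_nonneg_right h6 (by positivity)) (by positivity))
      refine ⟨k, hk3, φ', h1, ?_, fun _ => hlin, ?_⟩
      · refine hlin.trans ?_
        have h7 : (s : ℝ) ≤ (s : ℝ) ^ g := by
          calc (s : ℝ) = (s : ℝ) ^ 1 := (pow_one _).symm
            _ ≤ (s : ℝ) ^ g := pow_le_pow_right₀ hs1' hg1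
        exact mul_le_mul_of_nonneg_left h7 (by positivity)
      · intro x
        rw [hequiv x, h3 x]
    · -- case (C)
      push Not at hsz
      obtain ⟨φ', h1, h2, h3⟩ := Fin_full v0 t' φ
      refine ⟨0, Nat.zero_le _, φ', h1, ?_, ?_, h3⟩
      · have h4 := hgC n s hsz.le
        have h5 : (Fm.size (t' + 2) φ' : ℝ) ≤
            ((2 ^ n * (n * (t' + 2) + 1) + 2 * (t' + 2) + 2 : ℕ) : ℝ) := by
          exact_mod_cast h2
        exact Fin_bound gC g hgC' s _ _ hs1' hE (h5.trans h4)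
      · intro hsg
        exfalso
        have i1 : ((s : ℝ)) ^ g ≤ (2 : ℝ) ^ n := by exact_mod_cast hsg
        have i2 : ((2 : ℝ) ^ (2 * c * (n : ℝ))) ^ g < (s : ℝ) ^ g :=
          pow_lt_pow_left₀ hsz (by positivity) (by omega)
        have i3 : ((2 : ℝ) ^ (2 * c * (n : ℝ))) ^ g = (2 : ℝ) ^ (2 * c * (n : ℝ) * g) := by
          rw [← Real.rpow_natCast, ← Real.rpow_mul (by norm_num)]
        have i4 : (2 : ℝ) ^ n ≤ (2 : ℝ) ^ (2 * c * (n : ℝ) * g) := by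
          rw [← Real.rpow_natCast]
          apply Real.rpow_le_rpow_of_exponent_le (by norm_num)
          have : (0 : ℝ) ≤ (n : ℝ) := Nat.cast_nonneg n
          nlinarith
        rw [i3] at i2
        linarith
  · -- case (B)
    obtain ⟨φ', h1, h2, h3⟩ := Fin_full v0 t' φ
    have hn : n ≤ N0 := by omega
    have h4 : Fm.size (t' + 2) φ' ≤ gB := by
      rw [hgB]
      refine h2.trans ?_
      have i1 : 2 ^ n ≤ 2 ^ N0 := Nat.pow_le_pow_right (by norm_num) hn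
      have i2 : n * (t' + 2) + 1 ≤ N0 * (t' + 2) + 1 := Nat.add_le_add_right (Nat.mul_le_mul_right _ hn) 1
      have i3 := Nat.mul_le_mul i1 i2
      omega
    have i1 : (Fm.size (t' + 2) φ' : ℝ) ≤ (gB : ℝ) := by exact_mod_cast h4
    have i3 : (0 : ℝ) ≤ (gB : ℝ) := Nat.cast_nonneg gB
    refine ⟨0, Nat.zero_le _, φ', h1, ?_, ?_, h3⟩
    · have h5 : (Fm.size (t' + 2) φ' : ℝ) ≤ (gB : ℝ) * (s : ℝ) ^ gB := by
        have i2 : (1 : ℝ) ≤ (s : ℝ) ^ gB := one_le_pow₀ hs1'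
        nlinarith
      exact Fin_bound gB g hgB' s _ _ hs1' hE h5
    · intro _
      have i4 : (gB : ℝ) ≤ (g : ℝ) := by exact_mod_cast hgB'
      have i5 : (gB : ℝ) * 1 ≤ (gB : ℝ) * 2 ^ ((n : ℝ) / ℓ) := mul_le_mul_of_nonneg_left hE i3
      have i6 : (gB : ℝ) * 2 ^ ((n : ℝ) / ℓ) ≤ g * 2 ^ ((n : ℝ) / ℓ) :=
        mul_le_mul_of_nonneg_right i4 (by positivity)
      have i7 : (g : ℝ) * 2 ^ ((n : ℝ) / ℓ) * 1 ≤ g * 2 ^ ((n : ℝ) / ℓ) * (s : ℝ) :=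
        mul_le_mul_of_nonneg_left hs1' (by positivity)
      linarith

end Pool.Agent.SH5ee
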