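import Mathlib

/-!
Formulas of bounded alternation depth as nested lists (`MP_5ee345_lc`).
-/

namespace Pool.Agent.SH5ee

/-- A formula with `t + 1` levels over the literals `α`: a list of literals for `t = 0`, a list of
formulas with `t` levels for `t ≥ 1`. Read with a conjunction on top, and then alternating, it is a
`Γ`-formula; read with a disjunction on top, and then alternating, it is a `Δ`-formula. -/
abbrev Fm (α : Type) : ℕ → Type
  | 0 => List α
  | t + 1 => List (Fm α t)

/-- all index sets are nonempty, and the lists of literals have at most `d` members: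
with a conjunction on top these are the formulas `Γ_{t,d}`, with a disjunction on top `Δ_{t,d}` -/
def Fm.Wf {α : Type} (d : ℕ) : (t : ℕ) → Fm α t → Prop
  | 0, l => (l : List α) ≠ [] ∧ (l : List α).length ≤ d
  | t + 1, l => (l : List (Fm α t)) ≠ [] ∧ ∀ φ ∈ (l : List (Fm α t)), Fm.Wf d t φ

/-- truth when the literal `a` has the value `val a`; conjunction on top if `p = true`,
disjunction on top if `p = false` -/
def Fm.Holds {α : Type} (val : α → Prop) : (t : ℕ) → (p : Bool) → Fm α t → Prop
  | 0, true, l => ∀ a ∈ (l : List α), val a
  | 0, false, l => ∃ a ∈ (l : List α), val a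
  | t + 1, true, l => ∀ φ ∈ (l : List (Fm α t)), Fm.Holds val t false φ
  | t + 1, false, l => ∃ φ ∈ (l : List (Fm α t)), Fm.Holds val t true φ

/-- size: the number of literal occurrences plus the number of connectives -/
def Fm.size {α : Type} : (t : ℕ) → Fm α t → ℕ
  | 0, l => (l : List α).length + 1
  | t + 1, l => ((l : List (Fm α t)).map (Fm.size t)).sum + 1

/-- the value of the literal `(i, b)` under `x` -/
def litVal {V : Type} (x : V → Bool) (a : V × Bool) : Prop := x a.1 = a.2

/-- the literal `a` as a formula with `t + 1` levels -/
def emb {α : Type} : (t : ℕ) → α → Fm α t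
  | 0, a => ([a] : List α)
  | t + 1, a => ([emb t a] : List (Fm α t))

/-- renaming of literals -/
def ren {α β : Type} (f : α → β) : (t : ℕ) → Fm α t → Fm β t
  | 0, l => ((l : List α).map f : List β)
  | t + 1, l => ((l : List (Fm α t)).map (ren f t) : List (Fm β t))

/-- all subformulas with two levels -/
def bots {α : Type} : (t : ℕ) → Fm α (t + 2) → List (Fm α 1)
  | 0, l => (l : List (Fm α 1))
  | t + 1, l => (l : List (Fm α (t + 2))).flatMap (bots t)

/-- replace each subformula `ψ` with two levels by the list `f ψ` of such formulas -/
def sbst {α : Type} (f : Fm α 1 → List (Fm α 1)) : (t : ℕ) → Fm α (t + 2) → Fm α (t + 2)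
  | 0, l => ((l : List (Fm α 1)).flatMap f : List (Fm α 1))
  | t + 1, l => ((l : List (Fm α (t + 2))).map (sbst f t) : List (Fm α (t + 2)))

/-- the polarity at the third level from below -/
def pol : ℕ → Bool → Bool
  | 0, p => p
  | t + 1, p => pol t (!p)

/-- `l` is a list of formulas with two levels, seen as a formula with three levels -/
def asTwo {α : Type} (l : List (Fm α 1)) : Fm α 2 := l

/-- negation of a literal -/
def negLit {V : Type} (a : V × Bool) : V × Bool := (a.1, !a.2)

/-- the literals which are true under `x` -/
def trueLits {V : Type} [Fintype V] [DecidableEq V] (x : V → Bool) : Finset (V × Bool) :=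
  Finset.univ.filter (fun a => x a.1 = a.2)

/-- the family of sets of literals described by a formula with two levels, `g` applied to all literals -/
def fam {V : Type} [DecidableEq V] (g : V × Bool → V × Bool) (ψ : Fm (V × Bool) 1) :
    Finset (Finset (V × Bool)) :=
  ((ψ : List (Fm (V × Bool) 0)).map
    (fun e => ((e : List (V × Bool)).map g).toFinset)).toFinset

/-- a set of sets of literals as a formula with three levels whose lists of literals are single -/
noncomputable def cnfFm {V : Type} (g : V × Bool → V × Bool) (F : Finset (Finset (V × Bool))) :
    Fm (V × Bool) 2 :=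
  asTwo (F.toList.map (fun c => (c.toList.map (fun a => emb 0 (g a)) : List (Fm (V × Bool) 0))))

open Classical in
/-- an equivalent nonempty CNF with nonempty clauses -/
noncomputable def nrm {V : Type} (v : V) (F : Finset (Finset (V × Bool))) :
    Finset (Finset (V × Bool)) :=
  if ∅ ∈ F then {{(v, true)}, {(v, false)}} else
    if F = ∅ then {{(v, true), (v, false)}} else F

end Pool.Agent.SH5ee
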