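import Pool.Agent.Lib.MP_5ee345_lc.Fm

/-!
JOB FmA (`MP_5ee345_lc`): basic facts on nested-list formulas. All by induction on `t`, with cases on the
polarity; unfold `Fm.Holds`, `Fm.Wf`, `Fm.size`, `emb`, `ren` by `simp only` or `show`. Remember that
`Fm α (t + 1)` is (reducibly) `List (Fm α t)`.
-/

namespace Pool.Agent.SH5ee

variable {α β : Type}

theorem holds_emb (val : α → Prop) (t : ℕ) (p : Bool) (a : α) :
    Fm.Holds val t p (emb t a) ↔ val a := by
  induction t generalizing p with
  | zero =>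
    cases p
    · show (∃ b ∈ ([a] : List α), val b) ↔ val a
      simp
    · show (∀ b ∈ ([a] : List α), val b) ↔ val a
      simp
  | succ t ih =>
    cases p
    · show (∃ φ ∈ ([emb t a] : List (Fm α t)), Fm.Holds val t true φ) ↔ val a
      rw [← ih true]
      simp
    · show (∀ φ ∈ ([emb t a] : List (Fm α t)), Fm.Holds val t false φ) ↔ val a
      rw [← ih false]
      simp

theorem wf_emb (t : ℕ) (a : α) : Fm.Wf 1 t (emb t a) := by
  induction t with
  | zero =>
    show ([a] : List α) ≠ [] ∧ ([a] : List α).length ≤ 1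
    simp
  | succ t ih =>
    show ([emb t a] : List (Fm α t)) ≠ [] ∧ ∀ φ ∈ ([emb t a] : List (Fm α t)), Fm.Wf 1 t φ
    refine ⟨List.cons_ne_nil _ _, fun φ hφ => ?_⟩
    rw [List.mem_singleton] at hφ
    rw [hφ]
    exact ih

theorem size_emb (t : ℕ) (a : α) : Fm.size t (emb t a) = t + 2 := by
  induction t with
  | zero => rfl
  | succ t ih =>
    show (([emb t a] : List (Fm α t)).map (Fm.size t)).sum + 1 = t + 1 + 2
    rw [List.map_cons, List.map_nil, List.sum_cons, List.sum_nil, ih]
    omega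

theorem holds_ren (f : α → β) (val : β → Prop) (t : ℕ) (p : Bool) (φ : Fm α t) :
    Fm.Holds val t p (ren f t φ) ↔ Fm.Holds (fun a => val (f a)) t p φ := by
  induction t generalizing p with
  | zero =>
    cases p
    · show (∃ b ∈ ((φ : List α).map f), val b) ↔ ∃ a ∈ (φ : List α), val (f a)
      constructor
      · rintro ⟨b, hb, h⟩
        obtain ⟨a, ha, rfl⟩ := List.mem_map.1 hb
        exact ⟨a, ha, h⟩
      · rintro ⟨a, ha, h⟩
        exact ⟨f a, List.mem_map.2 ⟨a, ha, rfl⟩, h⟩
    · show (∀ b ∈ ((φ : List α).map f), val b) ↔ ∀ a ∈ (φ : List α), val (f a)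
      constructor
      · intro h a ha
        exact h (f a) (List.mem_map.2 ⟨a, ha, rfl⟩)
      · intro h b hb
        obtain ⟨a, ha, rfl⟩ := List.mem_map.1 hb
        exact h a ha
  | succ t ih =>
    cases p
    · show (∃ b ∈ ((φ : List (Fm α t)).map (ren f t)), Fm.Holds val t true b) ↔
        ∃ a ∈ (φ : List (Fm α t)), Fm.Holds (fun a => val (f a)) t true a
      constructor
      · rintro ⟨b, hb, h⟩
        obtain ⟨a, ha, rfl⟩ := List.mem_map.1 hb
        exact ⟨a, ha, (ih true a).1 h⟩
      · rintro ⟨a, ha, h⟩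
        exact ⟨ren f t a, List.mem_map.2 ⟨a, ha, rfl⟩, (ih true a).2 h⟩
    · show (∀ b ∈ ((φ : List (Fm α t)).map (ren f t)), Fm.Holds val t false b) ↔
        ∀ a ∈ (φ : List (Fm α t)), Fm.Holds (fun a => val (f a)) t false a
      constructor
      · intro h a ha
        exact (ih false a).1 (h (ren f t a) (List.mem_map.2 ⟨a, ha, rfl⟩))
      · intro h b hb
        obtain ⟨a, ha, rfl⟩ := List.mem_map.1 hb
        exact (ih false a).2 (h a ha)

theorem wf_ren (f : α → β) (d t : ℕ) (φ : Fm α t) (h : Fm.Wf d t φ) : Fm.Wf d t (ren f t φ) := by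
  induction t with
  | zero =>
    have h' : (φ : List α) ≠ [] ∧ (φ : List α).length ≤ d := h
    show ((φ : List α).map f) ≠ [] ∧ ((φ : List α).map f).length ≤ d
    refine ⟨fun h0 => h'.1 (List.map_eq_nil_iff.1 h0), ?_⟩
    rw [List.length_map]
    exact h'.2
  | succ t ih =>
    have h' : (φ : List (Fm α t)) ≠ [] ∧ ∀ ψ ∈ (φ : List (Fm α t)), Fm.Wf d t ψ := h
    show ((φ : List (Fm α t)).map (ren f t)) ≠ [] ∧
      ∀ ψ ∈ ((φ : List (Fm α t)).map (ren f t)), Fm.Wf d t ψ
    refine ⟨fun h0 => h'.1 (List.map_eq_nil_iff.1 h0), fun ψ hψ => ?_⟩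
    obtain ⟨a, ha, rfl⟩ := List.mem_map.1 hψ
    exact ih a (h'.2 a ha)

theorem size_ren (f : α → β) (t : ℕ) (φ : Fm α t) : Fm.size t (ren f t φ) = Fm.size t φ := by
  induction t with
  | zero =>
    show ((φ : List α).map f).length + 1 = (φ : List α).length + 1
    rw [List.length_map]
  | succ t ih =>
    show (((φ : List (Fm α t)).map (ren f t)).map (Fm.size t)).sum + 1 =
      ((φ : List (Fm α t)).map (Fm.size t)).sum + 1
    rw [List.map_map]
    have h1 : Fm.size t ∘ ren f t = Fm.size t := funext fun a => ih a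
    rw [h1]

theorem size_pos (t : ℕ) (φ : Fm α t) : 1 ≤ Fm.size t φ := by
  cases t with
  | zero =>
    show 1 ≤ (φ : List α).length + 1
    omega
  | succ t =>
    show 1 ≤ ((φ : List (Fm α t)).map (Fm.size t)).sum + 1
    omega

/-- the number of children of a formula is at most its size minus one -/
theorem children_le (t : ℕ) (l : List (Fm α t)) :
    l.length + 1 ≤ Fm.size (t + 1) (l : Fm α (t + 1)) := by
  show l.length + 1 ≤ (l.map (Fm.size t)).sum + 1
  induction l with
  | nil => simp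
  | cons a l ih =>
    rw [List.map_cons, List.sum_cons, List.length_cons]
    have := size_pos t a
    omega

/-- a well-formed formula has a literal -/
theorem wf_nonempty (d t : ℕ) (φ : Fm α t) (h : Fm.Wf d t φ) : Nonempty α := by
  induction t with
  | zero =>
    have h' : (φ : List α) ≠ [] ∧ (φ : List α).length ≤ d := h
    obtain ⟨a, -⟩ := List.exists_mem_of_ne_nil _ h'.1
    exact ⟨a⟩
  | succ t ih =>
    have h' : (φ : List (Fm α t)) ≠ [] ∧ ∀ ψ ∈ (φ : List (Fm α t)), Fm.Wf d t ψ := h
    obtain ⟨ψ, hψ⟩ := List.exists_mem_of_ne_nil _ h'.1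
    exact ih ψ (h'.2 ψ hψ)

end Pool.Agent.SH5ee
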