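import Pool.Agent.Lib.MP_5ee345_lc.FmA

/-!
JOB FmB (`MP_5ee345_lc`): substitution at the two lowest levels. `FmA.lean` is imported (may hold `sorry`).
All by induction on `t` (generalizing the polarity `p`), cases on `p`.
`t = 0`: `sbst f 0 l = l.flatMap f`, `bots 0 l = l`, `pol 0 p = p`;
`Fm.Holds val 2 true (l.flatMap f) ↔ ∀ ψ ∈ l, Fm.Holds val 2 true (asTwo (f ψ))` (`List.mem_flatMap`),
`Fm.Holds val 2 true l ↔ ∀ ψ ∈ l, Fm.Holds val 1 false ψ`; the same with `false` and `∃`.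
`t + 1`: `sbst f (t+1) l = l.map (sbst f t)`, `bots (t+1) l = l.flatMap (bots t)`, `pol (t+1) p = pol t (!p)`.
`size_sbst`: `t = 0`: `size 2 (asTwo (f ψ)) ≤ B` says that the sum of the sizes of the members of `f ψ` is at most
`B - 1`; so the sum over `l.flatMap f` is at most `(B - 1) * l.length`, and `l.length + 1 ≤ size 2 l`.
-/

namespace Pool.Agent.SH5ee

variable {α : Type}

theorem holds_of_sbst (val : α → Prop) (f : Fm α 1 → List (Fm α 1)) (t : ℕ) (p : Bool)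
    (φ : Fm α (t + 2))
    (h : ∀ ψ ∈ bots t φ, Fm.Holds val 2 (pol t p) (asTwo (f ψ)) →
      Fm.Holds val 1 (!pol t p) ψ) :
    Fm.Holds val (t + 2) p (sbst f t φ) → Fm.Holds val (t + 2) p φ := by
  induction t generalizing p with
  | zero =>
    cases p
    · intro h1
      obtain ⟨x, hx, h2⟩ : ∃ x ∈ (φ : List (Fm α 1)).flatMap f, Fm.Holds val 1 true x := h1
      obtain ⟨ψ, hψ, h3⟩ := List.mem_flatMap.1 hx
      exact ⟨ψ, hψ, h ψ hψ ⟨x, h3, h2⟩⟩
    · intro h1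
      have h1' : ∀ x ∈ (φ : List (Fm α 1)).flatMap f, Fm.Holds val 1 false x := h1
      intro ψ hψ
      exact h ψ hψ fun x hx => h1' x (List.mem_flatMap.2 ⟨ψ, hψ, hx⟩)
  | succ t ih =>
    cases p
    · intro h1
      obtain ⟨x, hx, h2⟩ : ∃ x ∈ (φ : List (Fm α (t + 2))).map (sbst f t),
        Fm.Holds val (t + 2) true x := h1
      obtain ⟨χ, hχ, rfl⟩ := List.mem_map.1 hx
      refine ⟨χ, hχ, ih true χ (fun ψ hψ => ?_) h2⟩
      exact h ψ (List.mem_flatMap.2 ⟨χ, hχ, hψ⟩)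
    · intro h1
      have h1' : ∀ x ∈ (φ : List (Fm α (t + 2))).map (sbst f t), Fm.Holds val (t + 2) false x := h1
      intro χ hχ
      refine ih false χ (fun ψ hψ => ?_) (h1' _ (List.mem_map.2 ⟨χ, hχ, rfl⟩))
      exact h ψ (List.mem_flatMap.2 ⟨χ, hχ, hψ⟩)

theorem sbst_of_holds (val : α → Prop) (f : Fm α 1 → List (Fm α 1)) (t : ℕ) (p : Bool)
    (φ : Fm α (t + 2))
    (h : ∀ ψ ∈ bots t φ, Fm.Holds val 1 (!pol t p) ψ →
      Fm.Holds val 2 (pol t p) (asTwo (f ψ))) :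
    Fm.Holds val (t + 2) p φ → Fm.Holds val (t + 2) p (sbst f t φ) := by
  induction t generalizing p with
  | zero =>
    cases p
    · intro h1
      obtain ⟨ψ, hψ, h2⟩ : ∃ x ∈ (φ : List (Fm α 1)), Fm.Holds val 1 true x := h1
      obtain ⟨x, hx, h3⟩ : ∃ x ∈ f ψ, Fm.Holds val 1 true x := h ψ hψ h2
      exact ⟨x, List.mem_flatMap.2 ⟨ψ, hψ, hx⟩, h3⟩
    · intro h1
      have h1' : ∀ x ∈ (φ : List (Fm α 1)), Fm.Holds val 1 false x := h1
      intro x hx
      obtain ⟨ψ, hψ, h3⟩ := List.mem_flatMap.1 hx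
      exact h ψ hψ (h1' ψ hψ) x h3
  | succ t ih =>
    cases p
    · intro h1
      obtain ⟨χ, hχ, h2⟩ : ∃ x ∈ (φ : List (Fm α (t + 2))), Fm.Holds val (t + 2) true x := h1
      refine ⟨sbst f t χ, List.mem_map.2 ⟨χ, hχ, rfl⟩, ih true χ (fun ψ hψ => ?_) h2⟩
      exact h ψ (List.mem_flatMap.2 ⟨χ, hχ, hψ⟩)
    · intro h1
      have h1' : ∀ x ∈ (φ : List (Fm α (t + 2))), Fm.Holds val (t + 2) false x := h1
      intro x hx
      obtain ⟨χ, hχ, rfl⟩ := List.mem_map.1 hx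
      refine ih false χ (fun ψ hψ => ?_) (h1' χ hχ)
      exact h ψ (List.mem_flatMap.2 ⟨χ, hχ, hψ⟩)

theorem wf_sbst (f : Fm α 1 → List (Fm α 1)) (d t : ℕ) (φ : Fm α (t + 2))
    (h : ∀ ψ ∈ bots t φ, Fm.Wf 1 2 (asTwo (f ψ))) (hφ : Fm.Wf d (t + 2) φ) :
    Fm.Wf 1 (t + 2) (sbst f t φ) := by
  induction t with
  | zero =>
    obtain ⟨h1, h2⟩ := hφ
    refine ⟨?_, ?_⟩
    · intro h3
      obtain ⟨ψ, hψ⟩ := List.exists_mem_of_ne_nil _ h1
      exact (h ψ hψ).1 ((List.flatMap_eq_nil_iff.1 h3) ψ hψ)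
    · intro x hx
      obtain ⟨ψ, hψ, h3⟩ := List.mem_flatMap.1 hx
      exact (h ψ hψ).2 x h3
  | succ t ih =>
    obtain ⟨h1, h2⟩ := hφ
    refine ⟨?_, ?_⟩
    · intro h3
      exact h1 (List.map_eq_nil_iff.1 h3)
    · intro x hx
      obtain ⟨χ, hχ, rfl⟩ := List.mem_map.1 hx
      exact ih χ (fun ψ hψ => h ψ (List.mem_flatMap.2 ⟨χ, hχ, hψ⟩)) (h2 χ hχ)

private theorem FmB_flat {γ β : Type} (g : γ → List β) (s : β → ℕ) (B : ℕ) (l : List γ)
    (h : ∀ y ∈ l, ((g y).map s).sum ≤ B) : ((l.flatMap g).map s).sum ≤ l.length * B := by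
  induction l with
  | nil => simp
  | cons a l ih =>
    rw [List.flatMap_cons, List.map_append, List.sum_append, List.length_cons, add_mul, one_mul]
    have h1 := h a List.mem_cons_self
    have h2 := ih fun y hy => h y (List.mem_cons_of_mem _ hy)
    omega

private theorem FmB_sum {γ : Type} (g s : γ → ℕ) (B : ℕ) (l : List γ)
    (h : ∀ y ∈ l, g y ≤ B * s y) : (l.map g).sum ≤ B * (l.map s).sum := by
  induction l with
  | nil => simp
  | cons a l ih =>
    rw [List.map_cons, List.sum_cons, List.map_cons, List.sum_cons, mul_add]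
    have h1 := h a List.mem_cons_self
    have h2 := ih fun y hy => h y (List.mem_cons_of_mem _ hy)
    omega

private theorem FmB_len {γ β : Type} (g : γ → List β) (s : γ → ℕ) (l : List γ)
    (h : ∀ y ∈ l, (g y).length ≤ s y) : (l.flatMap g).length ≤ (l.map s).sum := by
  induction l with
  | nil => simp
  | cons a l ih =>
    rw [List.flatMap_cons, List.length_append, List.map_cons, List.sum_cons]
    have h1 := h a List.mem_cons_self
    have h2 := ih fun y hy => h y (List.mem_cons_of_mem _ hy)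
    omega

theorem size_sbst (f : Fm α 1 → List (Fm α 1)) (t : ℕ) (φ : Fm α (t + 2)) (B : ℕ) (hB : 1 ≤ B)
    (h : ∀ ψ ∈ bots t φ, Fm.size 2 (asTwo (f ψ)) ≤ B) :
    Fm.size (t + 2) (sbst f t φ) ≤ B * Fm.size (t + 2) φ := by
  induction t with
  | zero =>
    have h1 : Fm.size 2 (sbst f 0 φ) =
      (((φ : List (Fm α 1)).flatMap f).map (Fm.size 1)).sum + 1 := rfl
    have h2 : (((φ : List (Fm α 1)).flatMap f).map (Fm.size 1)).sum ≤
        (φ : List (Fm α 1)).length * (B - 1) := by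
      refine FmB_flat f _ _ _ fun ψ hψ => ?_
      have h3 : ((f ψ).map (Fm.size 1)).sum + 1 ≤ B := h ψ hψ
      omega
    have h4 : (φ : List (Fm α 1)).length + 1 ≤ Fm.size 2 φ := children_le 1 φ
    show Fm.size 2 (sbst f 0 φ) ≤ B * Fm.size 2 φ
    rw [h1]
    obtain ⟨C, rfl⟩ : ∃ C, B = C + 1 := ⟨B - 1, by omega⟩
    rw [Nat.add_sub_cancel] at h2
    have h5 : (C + 1) * ((φ : List (Fm α 1)).length + 1) ≤ (C + 1) * Fm.size 2 φ :=
      Nat.mul_le_mul_left _ h4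
    have h6 : (C + 1) * ((φ : List (Fm α 1)).length + 1) =
      (φ : List (Fm α 1)).length * C + (φ : List (Fm α 1)).length + C + 1 := by ring
    omega
  | succ t ih =>
    have h1 : Fm.size (t + 3) (sbst f (t + 1) φ) =
      (((φ : List (Fm α (t + 2))).map (sbst f t)).map (Fm.size (t + 2))).sum + 1 := rfl
    have h2 : Fm.size (t + 3) φ = ((φ : List (Fm α (t + 2))).map (Fm.size (t + 2))).sum + 1 := rfl
    show Fm.size (t + 3) (sbst f (t + 1) φ) ≤ B * Fm.size (t + 3) φ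
    rw [h1, h2, List.map_map, mul_add, mul_one]
    refine Nat.add_le_add ?_ hB
    refine FmB_sum _ _ _ _ fun χ hχ => ?_
    exact ih χ fun ψ hψ => h ψ (List.mem_flatMap.2 ⟨χ, hχ, hψ⟩)

theorem bots_length (t : ℕ) (φ : Fm α (t + 2)) : (bots t φ).length ≤ Fm.size (t + 2) φ := by
  induction t with
  | zero =>
    have h4 : (φ : List (Fm α 1)).length + 1 ≤ Fm.size 2 φ := children_le 1 φ
    have h5 : (bots 0 φ).length = (φ : List (Fm α 1)).length := rfl
    show (bots 0 φ).length ≤ Fm.size 2 φ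
    omega
  | succ t ih =>
    have h1 : (bots (t + 1) φ).length = ((φ : List (Fm α (t + 2))).flatMap (bots t)).length := rfl
    have h2 : Fm.size (t + 3) φ = ((φ : List (Fm α (t + 2))).map (Fm.size (t + 2))).sum + 1 := rfl
    show (bots (t + 1) φ).length ≤ Fm.size (t + 3) φ
    rw [h1, h2]
    exact (FmB_len _ _ _ fun χ _ => ih χ).trans (Nat.le_succ _)

theorem bots_wf (d t : ℕ) (φ : Fm α (t + 2)) (hφ : Fm.Wf d (t + 2) φ) :
    ∀ ψ ∈ bots t φ, Fm.Wf d 1 ψ := by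
  induction t with
  | zero => exact fun ψ hψ => hφ.2 ψ hψ
  | succ t ih =>
    intro ψ hψ
    obtain ⟨χ, hχ, h1⟩ := List.mem_flatMap.1 hψ
    exact ih χ (hφ.2 χ hχ) ψ h1

end Pool.Agent.SH5ee
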