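import Pool.Agent.Lib.MP_5ee345_lc.FmA
import Pool.Agent.Lib.MP_5ee345_lc.Base

/-!
JOB FmC (`MP_5ee345_lc`): families of sets of literals and formulas. `Base.lean` has `dnf`.
`a ∈ trueLits x ↔ x a.1 = a.2`; `litVal x (negLit a) ↔ a ∉ trueLits x` (Bool).
`holds_fam_false`: `Fm.Holds _ 1 false ψ` is `∃ e ∈ ψ, ∀ a ∈ e, x a.1 = a.2`; the members of `fam id ψ` are the
`e.toFinset`. `holds_fam_true`: `∀ e ∈ ψ, ∃ a ∈ e, x a.1 = a.2`, the negation of
`∃ e ∈ ψ, (e.map negLit).toFinset ⊆ trueLits x`.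
`cnfFm g F` is a list of lists of one-element lists; `Finset.mem_toList`.
`size_cnfFm`: a clause `c` gives a formula of size `2 * c.card + 1 ≤ 4 * card V + 1`.
`nrm`: with `trueLits x` exactly one of `(v, true)`, `(v, false)` is true.
-/

namespace Pool.Agent.SH5ee

section aux

variable {V : Type}

open Classical in
theorem FmC_nrm1 (v : V) (F : Finset (Finset (V × Bool))) (h : ∅ ∈ F) (c : Finset (V × Bool)) :
    c ∈ nrm v F ↔ c = {(v, true)} ∨ c = {(v, false)} := by
  unfold nrm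
  rw [if_pos h, Finset.mem_insert, Finset.mem_singleton]

open Classical in
theorem FmC_nrm2 (v : V) (F : Finset (Finset (V × Bool))) (h : ∅ ∉ F) (h2 : F = ∅)
    (c : Finset (V × Bool)) :
    c ∈ nrm v F ↔ ∀ a, a ∈ c ↔ (a = (v, true) ∨ a = (v, false)) := by
  unfold nrm
  rw [if_neg h, if_pos h2, Finset.mem_singleton]
  constructor
  · rintro rfl a
    rw [Finset.mem_insert, Finset.mem_singleton]
  · intro h3
    ext a
    rw [h3 a, Finset.mem_insert, Finset.mem_singleton]

open Classical in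
theorem FmC_nrm3 (v : V) (F : Finset (Finset (V × Bool))) (h : ∅ ∉ F) (h2 : F ≠ ∅) :
    nrm v F = F := by
  unfold nrm
  rw [if_neg h, if_neg h2]

open Classical in
theorem FmC_ne (v : V) (F : Finset (Finset (V × Bool))) : (nrm v F).Nonempty := by
  unfold nrm
  split_ifs with h1 h2
  · exact Finset.insert_nonempty _ _
  · exact Finset.singleton_nonempty _
  · exact Finset.nonempty_iff_ne_empty.2 h2

open Classical in
theorem FmC_card (v : V) (F : Finset (Finset (V × Bool))) : (nrm v F).card ≤ F.card + 2 := by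
  unfold nrm
  split_ifs with h1 h2
  · exact Finset.card_le_two.trans (Nat.le_add_left 2 _)
  · rw [Finset.card_singleton]
    omega
  · exact Nat.le_add_right _ _

end aux

variable {V : Type} [Fintype V] [DecidableEq V]

theorem mem_trueLits (x : V → Bool) (a : V × Bool) : a ∈ trueLits x ↔ x a.1 = a.2 := by
  simp [trueLits]

theorem litVal_negLit (x : V → Bool) (a : V × Bool) : litVal x (negLit a) ↔ a ∉ trueLits x := by
  rw [mem_trueLits]
  unfold litVal negLit
  cases x a.1 <;> cases a.2 <;> simp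

theorem holds_fam_false (x : V → Bool) (ψ : Fm (V × Bool) 1) :
    Fm.Holds (litVal x) 1 false ψ ↔ dnf (fam id ψ) (trueLits x) := by
  change (∃ e ∈ (ψ : List (Fm (V × Bool) 0)), ∀ a ∈ (e : List (V × Bool)), litVal x a) ↔
    ∃ e ∈ fam id ψ, e ⊆ trueLits x
  constructor
  · rintro ⟨e, he, h⟩
    refine ⟨((e : List (V × Bool)).map id).toFinset,
      List.mem_toFinset.2 (List.mem_map.2 ⟨e, he, rfl⟩), fun a ha => ?_⟩
    rw [List.mem_toFinset, List.map_id] at ha
    exact (mem_trueLits x a).2 (h a ha)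
  · rintro ⟨e', he', h⟩
    obtain ⟨e, he, rfl⟩ := List.mem_map.1 (List.mem_toFinset.1 he')
    refine ⟨e, he, fun a ha => (mem_trueLits x a).1 (h ?_)⟩
    rw [List.mem_toFinset, List.map_id]
    exact ha

theorem holds_fam_true (x : V → Bool) (ψ : Fm (V × Bool) 1) :
    Fm.Holds (litVal x) 1 true ψ ↔ ¬ dnf (fam negLit ψ) (trueLits x) := by
  change (∀ e ∈ (ψ : List (Fm (V × Bool) 0)), ∃ a ∈ (e : List (V × Bool)), litVal x a) ↔
    ¬ ∃ e ∈ fam negLit ψ, e ⊆ trueLits x
  constructor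
  · rintro h ⟨e', he', h'⟩
    obtain ⟨e, he, rfl⟩ := List.mem_map.1 (List.mem_toFinset.1 he')
    obtain ⟨a, ha, hv⟩ := h e he
    have h1 : negLit a ∈ trueLits x := h' (List.mem_toFinset.2 (List.mem_map.2 ⟨a, ha, rfl⟩))
    have h2 : litVal x (negLit a) := (mem_trueLits x _).1 h1
    exact (litVal_negLit x a).1 h2 ((mem_trueLits x a).2 hv)
  · intro h e he
    by_contra hcon
    push Not at hcon
    apply h
    refine ⟨((e : List (V × Bool)).map negLit).toFinset,
      List.mem_toFinset.2 (List.mem_map.2 ⟨e, he, rfl⟩), fun b hb => ?_⟩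
    obtain ⟨a, ha, rfl⟩ := List.mem_map.1 (List.mem_toFinset.1 hb)
    have h1 : a ∉ trueLits x := fun h2 => hcon a ha ((mem_trueLits x a).1 h2)
    exact (mem_trueLits x _).2 ((litVal_negLit x a).2 h1)

theorem card_fam (g : V × Bool → V × Bool) (d : ℕ) (ψ : Fm (V × Bool) 1) (h : Fm.Wf d 1 ψ) :
    ∀ e ∈ fam g ψ, e.card ≤ d := by
  intro e' he'
  obtain ⟨e, he, rfl⟩ := List.mem_map.1 (List.mem_toFinset.1 he')
  have h1 : (e : List (V × Bool)) ≠ [] ∧ (e : List (V × Bool)).length ≤ d := h.2 e he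
  refine (List.toFinset_card_le _).trans ?_
  rw [List.length_map]
  exact h1.2

theorem holds_cnfFm_true (x : V → Bool) (F : Finset (Finset (V × Bool))) :
    Fm.Holds (litVal x) 2 true (cnfFm id F) ↔ ∀ c ∈ F, ∃ a ∈ c, a ∈ trueLits x := by
  change (∀ φ ∈ F.toList.map (fun c => (c.toList.map (fun a => emb 0 (id a)) :
      List (Fm (V × Bool) 0))), ∃ e ∈ φ, ∀ a ∈ (e : List (V × Bool)), litVal x a) ↔ _
  constructor
  · intro h c hc
    obtain ⟨e, he, h1⟩ := h _ (List.mem_map.2 ⟨c, Finset.mem_toList.2 hc, rfl⟩)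
    obtain ⟨a, ha, rfl⟩ := List.mem_map.1 he
    refine ⟨a, Finset.mem_toList.1 ha, (mem_trueLits x a).2 (h1 a ?_)⟩
    exact List.mem_singleton.2 rfl
  · intro h φ hφ
    obtain ⟨c, hc, rfl⟩ := List.mem_map.1 hφ
    obtain ⟨a, ha, h1⟩ := h c (Finset.mem_toList.1 hc)
    refine ⟨emb 0 a, List.mem_map.2 ⟨a, Finset.mem_toList.2 ha, rfl⟩, fun b hb => ?_⟩
    have h2 : b = a := List.mem_singleton.1 hb
    rw [h2]
    exact (mem_trueLits x a).1 h1

theorem holds_cnfFm_false (x : V → Bool) (F : Finset (Finset (V × Bool))) :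
    Fm.Holds (litVal x) 2 false (cnfFm negLit F) ↔ ¬ ∀ c ∈ F, ∃ a ∈ c, a ∈ trueLits x := by
  change (∃ φ ∈ F.toList.map (fun c => (c.toList.map (fun a => emb 0 (negLit a)) :
      List (Fm (V × Bool) 0))), ∀ e ∈ φ, ∃ a ∈ (e : List (V × Bool)), litVal x a) ↔ _
  constructor
  · rintro ⟨φ, hφ, h⟩ h'
    obtain ⟨c, hc, rfl⟩ := List.mem_map.1 hφ
    obtain ⟨a, ha, h1⟩ := h' c (Finset.mem_toList.1 hc)
    obtain ⟨b, hb, h2⟩ := h _ (List.mem_map.2 ⟨a, Finset.mem_toList.2 ha, rfl⟩)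
    have h3 : b = negLit a := List.mem_singleton.1 hb
    rw [h3] at h2
    exact (litVal_negLit x a).1 h2 h1
  · intro h
    push Not at h
    obtain ⟨c, hc, h1⟩ := h
    refine ⟨_, List.mem_map.2 ⟨c, Finset.mem_toList.2 hc, rfl⟩, fun e he => ?_⟩
    obtain ⟨a, ha, rfl⟩ := List.mem_map.1 he
    exact ⟨negLit a, List.mem_singleton.2 rfl,
      (litVal_negLit x a).2 (h1 a (Finset.mem_toList.1 ha))⟩

theorem wf_cnfFm (g : V × Bool → V × Bool) (F : Finset (Finset (V × Bool))) (hF : F.Nonempty)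
    (hc : ∀ c ∈ F, c.Nonempty) : Fm.Wf 1 2 (cnfFm g F) := by
  change (F.toList.map (fun c => (c.toList.map (fun a => emb 0 (g a)) :
      List (Fm (V × Bool) 0))) ≠ []) ∧ ∀ φ ∈ F.toList.map (fun c =>
        (c.toList.map (fun a => emb 0 (g a)) : List (Fm (V × Bool) 0))),
          φ ≠ [] ∧ ∀ e ∈ φ, (e : List (V × Bool)) ≠ [] ∧ (e : List (V × Bool)).length ≤ 1
  refine ⟨?_, fun φ hφ => ?_⟩
  · intro h
    rw [List.map_eq_nil_iff, Finset.toList_eq_nil] at h
    exact hF.ne_empty h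
  · obtain ⟨c, hc', rfl⟩ := List.mem_map.1 hφ
    refine ⟨?_, fun e he => ?_⟩
    · intro h
      rw [List.map_eq_nil_iff, Finset.toList_eq_nil] at h
      exact (hc c (Finset.mem_toList.1 hc')).ne_empty h
    · obtain ⟨a, ha, rfl⟩ := List.mem_map.1 he
      exact ⟨List.cons_ne_nil _ _, le_rfl⟩

theorem size_cnfFm (g : V × Bool → V × Bool) (F : Finset (Finset (V × Bool))) :
    Fm.size 2 (cnfFm g F) ≤ F.card * (4 * Fintype.card V + 1) + 1 := by
  change ((F.toList.map (fun c => (c.toList.map (fun a => emb 0 (g a)) :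
      List (Fm (V × Bool) 0)))).map (Fm.size 1)).sum + 1 ≤ _
  refine Nat.add_le_add_right ?_ 1
  refine (List.sum_le_card_nsmul _ (4 * Fintype.card V + 1) ?_).trans ?_
  · intro k hk
    obtain ⟨φ, hφ, rfl⟩ := List.mem_map.1 hk
    obtain ⟨c, hc, rfl⟩ := List.mem_map.1 hφ
    change ((c.toList.map (fun a => emb 0 (g a))).map (Fm.size 0)).sum + 1 ≤ _
    refine Nat.add_le_add_right ?_ 1
    refine (List.sum_le_card_nsmul _ 2 ?_).trans ?_
    · intro k hk
      obtain ⟨e, he, rfl⟩ := List.mem_map.1 hk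
      obtain ⟨a, ha, rfl⟩ := List.mem_map.1 he
      exact le_rfl
    · rw [List.length_map, List.length_map, Finset.length_toList, smul_eq_mul]
      have h1 : c.card ≤ Fintype.card (V × Bool) := Finset.card_le_univ c
      rw [Fintype.card_prod, Fintype.card_bool] at h1
      omega
  · rw [List.length_map, List.length_map, Finset.length_toList, smul_eq_mul]

theorem nrm_nonempty (v : V) (F : Finset (Finset (V × Bool))) : (nrm v F).Nonempty := by
  exact FmC_ne v F

theorem nrm_clause (v : V) (F : Finset (Finset (V × Bool))) : ∀ c ∈ nrm v F, c.Nonempty := by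
  intro c hc
  by_cases h1 : ∅ ∈ F
  · rcases (FmC_nrm1 v F h1 c).1 hc with rfl | rfl
    · exact Finset.singleton_nonempty _
    · exact Finset.singleton_nonempty _
  · by_cases h2 : F = ∅
    · exact ⟨(v, true), ((FmC_nrm2 v F h1 h2 c).1 hc _).2 (Or.inl rfl)⟩
    · rw [FmC_nrm3 v F h1 h2] at hc
      rw [Finset.nonempty_iff_ne_empty]
      rintro rfl
      exact h1 hc

theorem nrm_card (v : V) (F : Finset (Finset (V × Bool))) : (nrm v F).card ≤ F.card + 2 := by
  exact FmC_card v F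

theorem nrm_holds (v : V) (F : Finset (Finset (V × Bool))) (x : V → Bool) :
    (∀ c ∈ nrm v F, ∃ a ∈ c, a ∈ trueLits x) ↔ ∀ c ∈ F, ∃ a ∈ c, a ∈ trueLits x := by
  by_cases h1 : ∅ ∈ F
  · constructor
    · intro h
      obtain ⟨a, ha, ha'⟩ := h {(v, true)} ((FmC_nrm1 v F h1 _).2 (Or.inl rfl))
      obtain ⟨b, hb, hb'⟩ := h {(v, false)} ((FmC_nrm1 v F h1 _).2 (Or.inr rfl))
      rw [Finset.mem_singleton] at ha hb
      subst ha
      subst hb
      have h3 : x v = true := (mem_trueLits x _).1 ha'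
      have h4 : x v = false := (mem_trueLits x _).1 hb'
      rw [h3] at h4
      exact absurd h4 (by decide)
    · intro h
      obtain ⟨a, ha, _⟩ := h ∅ h1
      exact absurd ha (Finset.notMem_empty a)
  · by_cases h2 : F = ∅
    · constructor
      · intro _ c hc
        rw [h2] at hc
        exact absurd hc (Finset.notMem_empty c)
      · intro _ c hc
        have h3 := (FmC_nrm2 v F h1 h2 c).1 hc
        cases hxv : x v
        · exact ⟨(v, false), (h3 _).2 (Or.inr rfl), (mem_trueLits x _).2 hxv⟩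
        · exact ⟨(v, true), (h3 _).2 (Or.inl rfl), (mem_trueLits x _).2 hxv⟩
    · rw [FmC_nrm3 v F h1 h2]

end Pool.Agent.SH5ee
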