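import Pool.Agent.Lib.MP_5ee345_lc.FmC

/-!
JOB FmD (`MP_5ee345_lc`): the formula of one case. 

`holds_caseFm`: the top level is a conjunction (`p = true`), so the list append is the conjunction of both; the
formula `(f.toList.map (emb t ∘ negLit))` with a disjunction on top holds iff some `a ∈ f` is not in
`trueLits x` (`holds_emb`, `litVal_negLit`), that is `¬ f ⊆ trueLits x`.
`wf_caseFm`: `wf_emb`, the members of `S` are nonempty.
`size_caseFm`: a clause `f` costs `f.card * (t + 2) + 1 ≤ 2 card V (t+2) + 1` (`size_emb`).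

-/

namespace Pool.Agent.SH5ee

variable {V : Type} [Fintype V] [DecidableEq V]

/-- the conjunction of `φ` and of the clauses `¬ f ⊆ trueLits x`, `f ∈ S` -/
noncomputable def caseFm (t : ℕ) (φ : Fm (V × Bool) (t + 2)) (S : Finset (Finset (V × Bool))) :
    Fm (V × Bool) (t + 2) :=
  ((φ : List (Fm (V × Bool) (t + 1))) ++
    S.toList.map (fun f => (f.toList.map (fun a => emb t (negLit a)) : List (Fm (V × Bool) t))) :
    List (Fm (V × Bool) (t + 1)))

/-- the clause of `f` -/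
private noncomputable def FmD_cl (t : ℕ) (f : Finset (V × Bool)) : Fm (V × Bool) (t + 1) :=
  (f.toList.map (fun a => emb t (negLit a)) : List (Fm (V × Bool) t))

private theorem FmD_holds (x : V → Bool) (t : ℕ) (f : Finset (V × Bool)) :
    Fm.Holds (litVal x) (t + 1) false (FmD_cl t f) ↔ ¬ f ⊆ trueLits x := by
  have h1 : Fm.Holds (litVal x) (t + 1) false (FmD_cl t f) ↔
      ∃ ψ ∈ f.toList.map (fun a => emb t (negLit a)), Fm.Holds (litVal x) t true ψ := Iff.rfl
  rw [h1, Finset.not_subset]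
  constructor
  · rintro ⟨ψ, hψ, hh⟩
    obtain ⟨a, ha, rfl⟩ := List.mem_map.1 hψ
    exact ⟨a, Finset.mem_toList.1 ha, (litVal_negLit x a).1 ((holds_emb _ t true _).1 hh)⟩
  · rintro ⟨a, ha, hh⟩
    exact ⟨_, List.mem_map.2 ⟨a, Finset.mem_toList.2 ha, rfl⟩,
      (holds_emb _ t true _).2 ((litVal_negLit x a).2 hh)⟩

theorem holds_caseFm (x : V → Bool) (t : ℕ) (φ : Fm (V × Bool) (t + 2))
    (S : Finset (Finset (V × Bool))) :
    Fm.Holds (litVal x) (t + 2) true (caseFm t φ S) ↔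
      Fm.Holds (litVal x) (t + 2) true φ ∧ free S (trueLits x) := by
  have h1 : Fm.Holds (litVal x) (t + 2) true (caseFm t φ S) ↔
      ∀ ψ ∈ (φ : List (Fm (V × Bool) (t + 1))) ++ S.toList.map (fun f => FmD_cl t f),
        Fm.Holds (litVal x) (t + 1) false ψ := Iff.rfl
  have h2 : Fm.Holds (litVal x) (t + 2) true φ ↔
      ∀ ψ ∈ (φ : List (Fm (V × Bool) (t + 1))), Fm.Holds (litVal x) (t + 1) false ψ := Iff.rfl
  rw [h1, h2]
  constructor
  · intro h
    refine ⟨fun ψ hψ => h ψ (List.mem_append_left _ hψ), fun f hf => ?_⟩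
    exact (FmD_holds x t f).1 (h _ (List.mem_append_right _
      (List.mem_map.2 ⟨f, Finset.mem_toList.2 hf, rfl⟩)))
  · rintro ⟨ha, hb⟩ ψ hψ
    rcases List.mem_append.1 hψ with h | h
    · exact ha ψ h
    · obtain ⟨f, hf, rfl⟩ := List.mem_map.1 h
      exact (FmD_holds x t f).2 (hb f (Finset.mem_toList.1 hf))

theorem wf_caseFm (t : ℕ) (φ : Fm (V × Bool) (t + 2)) (S : Finset (Finset (V × Bool)))
    (hφ : Fm.Wf 1 (t + 2) φ) (hS : ∀ f ∈ S, f.Nonempty) : Fm.Wf 1 (t + 2) (caseFm t φ S) := by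
  have h1 : Fm.Wf 1 (t + 2) (caseFm t φ S) ↔
      (φ : List (Fm (V × Bool) (t + 1))) ++ S.toList.map (fun f => FmD_cl t f) ≠ [] ∧
      ∀ ψ ∈ (φ : List (Fm (V × Bool) (t + 1))) ++ S.toList.map (fun f => FmD_cl t f),
        Fm.Wf 1 (t + 1) ψ := Iff.rfl
  have h2 : Fm.Wf 1 (t + 2) φ ↔ (φ : List (Fm (V × Bool) (t + 1))) ≠ [] ∧
      ∀ ψ ∈ (φ : List (Fm (V × Bool) (t + 1))), Fm.Wf 1 (t + 1) ψ := Iff.rfl
  rw [h1]
  rw [h2] at hφ
  refine ⟨fun h => hφ.1 (List.append_eq_nil_iff.1 h).1, fun ψ hψ => ?_⟩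
  rcases List.mem_append.1 hψ with h | h
  · exact hφ.2 ψ h
  · obtain ⟨f, hf, rfl⟩ := List.mem_map.1 h
    have hne := hS f (Finset.mem_toList.1 hf)
    have h3 : Fm.Wf 1 (t + 1) (FmD_cl t f) ↔
        f.toList.map (fun a => emb t (negLit a)) ≠ [] ∧
        ∀ ψ ∈ f.toList.map (fun a => emb t (negLit a)), Fm.Wf 1 t ψ := Iff.rfl
    rw [h3]
    refine ⟨?_, fun ψ hψ => ?_⟩
    · intro h4
      have h5 := List.map_eq_nil_iff.1 h4
      rw [Finset.toList_eq_nil] at h5
      exact hne.ne_empty h5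
    · obtain ⟨a, -, rfl⟩ := List.mem_map.1 hψ
      exact wf_emb t _

private theorem FmD_sum {β : Type} (l : List β) (g : β → ℕ) (c : ℕ) (h : ∀ a ∈ l, g a ≤ c) :
    (l.map g).sum ≤ l.length * c := by
  induction l with
  | nil => simp
  | cons a l ih =>
    rw [List.map_cons, List.sum_cons, List.length_cons, Nat.add_mul, one_mul, add_comm]
    exact Nat.add_le_add (ih fun b hb => h b (List.mem_cons_of_mem _ hb)) (h a List.mem_cons_self)

private theorem FmD_size (t : ℕ) (f : Finset (V × Bool)) :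
    Fm.size (t + 1) (FmD_cl t f) ≤ 2 * Fintype.card V * (t + 2) + 1 := by
  have h1 : Fm.size (t + 1) (FmD_cl t f) =
      ((f.toList.map (fun a => emb t (negLit a))).map (Fm.size t)).sum + 1 := rfl
  rw [h1, List.map_map]
  refine Nat.add_le_add_right ?_ 1
  refine (FmD_sum f.toList _ (t + 2) (fun a _ => ?_)).trans ?_
  · exact (size_emb t (negLit a)).le
  · rw [Finset.length_toList]
    refine Nat.mul_le_mul_right _ ?_
    refine (Finset.card_le_univ f).trans (le_of_eq ?_)
    rw [Fintype.card_prod, Fintype.card_bool, Nat.mul_comm]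

theorem size_caseFm (t : ℕ) (φ : Fm (V × Bool) (t + 2)) (S : Finset (Finset (V × Bool))) :
    Fm.size (t + 2) (caseFm t φ S) ≤
      Fm.size (t + 2) φ + S.card * (2 * Fintype.card V * (t + 2) + 1) := by
  have h1 : Fm.size (t + 2) (caseFm t φ S) =
      (((φ : List (Fm (V × Bool) (t + 1))) ++ S.toList.map (fun f => FmD_cl t f)).map
        (Fm.size (t + 1))).sum + 1 := rfl
  have h2 : Fm.size (t + 2) φ =
      ((φ : List (Fm (V × Bool) (t + 1))).map (Fm.size (t + 1))).sum + 1 := rfl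
  have h3 : ((S.toList.map (fun f => FmD_cl t f)).map (Fm.size (t + 1))).sum ≤
      S.card * (2 * Fintype.card V * (t + 2) + 1) := by
    rw [List.map_map]
    refine (FmD_sum S.toList _ (2 * Fintype.card V * (t + 2) + 1) (fun f _ => FmD_size t f)).trans ?_
    rw [Finset.length_toList]
  rw [h1, h2, List.map_append, List.sum_append]
  omega

end Pool.Agent.SH5ee
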