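import Pool.Agent.Lib.MP_5ee345_lc.FmB
import Pool.Agent.Lib.MP_5ee345_lc.FmD
import Pool.Agent.Lib.MP_5ee345_lc.Cases

/-!
JOB FmH (`MP_5ee345_lc`): the family of formulas of all cases. The imported files may hold `sorry`.

`family`: let `q = pol t true`, `g = id` if `q = true` and `g = negLit` if `q = false`,
`W = ((bots t φ).map (fam g)).toFinset`. From `Cases`: `ι, S, lo, up`. For `v : ι` let
`f ψ = cnfFm id (nrm v0 (lo v (fam id ψ)))` if `q = true`, and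
`f ψ = cnfFm negLit (nrm v0 (up v (fam negLit ψ)))` if `q = false`, and `Φ v = caseFm t (sbst f t φ) (S v)`.
`q = true`: `Holds 2 true (f ψ) ↔ ∀ c ∈ lo v _, ∃ a ∈ c, a ∈ trueLits x`, `Holds 1 false ψ ↔ dnf (fam id ψ) (trueLits x)`:
soundness of `lo` and `holds_of_sbst` give `Holds (Φ v) → Holds φ`, completeness for `T = trueLits x` and
`sbst_of_holds` give the converse for one `v`.
`q = false`: `Holds 2 false (f ψ) ↔ ¬ ∀ c ∈ up v _, ...`, `Holds 1 true ψ ↔ ¬ dnf (fam negLit ψ) (trueLits x)`: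
soundness of `up` (needs `free (S v) (trueLits x)`, which is part of `Holds (Φ v)`), contraposed.
Sizes: `size 2 (f ψ) ≤ (⌊b⌋₊ + 2) * (4 M + 1) + 1`, `M = card V`; so
`size (Φ v) ≤ ((b + 2) (4 M + 1) + 1) s + b (2 M (t + 2) + 1) ≤ (b + 3) (4 M + 1) (t + 2) (s + 1)`.
-/

namespace Pool.Agent.SH5ee

variable {V : Type} [Fintype V] [DecidableEq V]

private theorem FmH_num (b M t s B S z : ℝ) (hb : 1 ≤ b) (hM : 0 ≤ M) (ht : 0 ≤ t) (hs : 0 ≤ s)
    (hS : S ≤ b) (hS0 : 0 ≤ S)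
    (hB : B ≤ (b + 2) * (4 * M + 1) + 1) (hz : z ≤ B * s + S * (2 * M * (t + 2) + 1)) :
    z ≤ (b + 3) * (4 * M + 1) * (t + 2) * (s + 1) := by
  have h1 : B ≤ (b + 3) * (4 * M + 1) := by nlinarith
  have h2 : B * s ≤ (b + 3) * (4 * M + 1) * s := mul_le_mul_of_nonneg_right h1 hs
  have h3 : 0 ≤ 2 * M * (t + 2) + 1 := by positivity
  have h4 : S * (2 * M * (t + 2) + 1) ≤ b * (2 * M * (t + 2) + 1) :=
    mul_le_mul_of_nonneg_right hS h3
  have h5 : 2 * M * (t + 2) + 1 ≤ (4 * M + 1) * (t + 2) := by nlinarith [mul_nonneg hM ht]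
  have h6 : b * (2 * M * (t + 2) + 1) ≤ (b + 3) * ((4 * M + 1) * (t + 2)) :=
    mul_le_mul (by linarith) h5 h3 (by linarith)
  have h7 : 0 ≤ (b + 3) * (4 * M + 1) := by positivity
  have h8 : (b + 3) * (4 * M + 1) * s ≤ (b + 3) * (4 * M + 1) * ((t + 2) * s) := by
    refine mul_le_mul_of_nonneg_left ?_ h7
    nlinarith [mul_nonneg ht hs]
  calc z ≤ B * s + S * (2 * M * (t + 2) + 1) := hz
    _ ≤ (b + 3) * (4 * M + 1) * ((t + 2) * s) + (b + 3) * ((4 * M + 1) * (t + 2)) := by linarith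
    _ = (b + 3) * (4 * M + 1) * (t + 2) * (s + 1) := by ring

private theorem FmH_aux (t d : ℕ) (φ : Fm (V × Bool) (t + 2)) (hφ : Fm.Wf d (t + 2) φ)
    (b : ℝ) (hb : 1 ≤ b) (ι : Type) [Fintype ι] (S : ι → Finset (Finset (V × Bool)))
    (f : ι → Fm (V × Bool) 1 → List (Fm (V × Bool) 1))
    (hcard : (Fintype.card ι : ℝ) ≤ b)
    (hS : ∀ v, ((S v).card : ℝ) ≤ b ∧ ∀ f ∈ S v, f.Nonempty)
    (hwf : ∀ v, ∀ ψ ∈ bots t φ, Fm.Wf 1 2 (asTwo (f v ψ)))
    (hsz : ∀ v, ∀ ψ ∈ bots t φ,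
      Fm.size 2 (asTwo (f v ψ)) ≤ (⌊b⌋₊ + 2) * (4 * Fintype.card V + 1) + 1)
    (hsound : ∀ v, ∀ x : V → Bool, free (S v) (trueLits x) → ∀ ψ ∈ bots t φ,
      Fm.Holds (litVal x) 2 (pol t true) (asTwo (f v ψ)) →
        Fm.Holds (litVal x) 1 (!pol t true) ψ)
    (hcompl : ∀ x : V → Bool, ∃ v, free (S v) (trueLits x) ∧ ∀ ψ ∈ bots t φ,
      Fm.Holds (litVal x) 1 (!pol t true) ψ →
        Fm.Holds (litVal x) 2 (pol t true) (asTwo (f v ψ))) :
    ∃ (ι : Type) (_ : Fintype ι) (_ : Nonempty ι) (Φ : ι → Fm (V × Bool) (t + 2)),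
      (Fintype.card ι : ℝ) ≤ b ∧
      (∀ v, Fm.Wf 1 (t + 2) (Φ v)) ∧
      (∀ v, (Fm.size (t + 2) (Φ v) : ℝ) ≤
        (b + 3) * (4 * (Fintype.card V : ℝ) + 1) * ((t : ℝ) + 2) *
          ((Fm.size (t + 2) φ : ℝ) + 1)) ∧
      ∀ x : V → Bool, Fm.Holds (litVal x) (t + 2) true φ ↔
        ∃ v, Fm.Holds (litVal x) (t + 2) true (Φ v) := by
  refine ⟨ι, inferInstance, ⟨(hcompl (fun _ => true)).choose⟩,
    fun v => caseFm t (sbst (f v) t φ) (S v), hcard, ?_, ?_, ?_⟩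
  · intro v
    exact wf_caseFm t _ _ (wf_sbst (f v) d t φ (hwf v) hφ) (hS v).2
  · intro v
    have h1 := size_caseFm t (sbst (f v) t φ) (S v)
    have h2 := size_sbst (f v) t φ ((⌊b⌋₊ + 2) * (4 * Fintype.card V + 1) + 1) (by omega) (hsz v)
    have h3 : (Fm.size (t + 2) (caseFm t (sbst (f v) t φ) (S v)) : ℝ) ≤
        (((⌊b⌋₊ : ℝ) + 2) * (4 * (Fintype.card V : ℝ) + 1) + 1) * (Fm.size (t + 2) φ : ℝ) +
        ((S v).card : ℝ) * (2 * (Fintype.card V : ℝ) * ((t : ℝ) + 2) + 1) := by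
      have h4 := h1.trans (Nat.add_le_add_right h2 _)
      exact_mod_cast h4
    have hfl : (⌊b⌋₊ : ℝ) ≤ b := Nat.floor_le (by linarith)
    refine FmH_num b (Fintype.card V : ℝ) (t : ℝ) (Fm.size (t + 2) φ : ℝ) _ ((S v).card : ℝ) _
      hb (Nat.cast_nonneg _) (Nat.cast_nonneg _) (Nat.cast_nonneg _) (hS v).1
      (Nat.cast_nonneg _) ?_ h3
    have h5 : (0 : ℝ) ≤ 4 * (Fintype.card V : ℝ) + 1 := by positivity
    have h6 := mul_le_mul_of_nonneg_right hfl h5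
    linarith
  · intro x
    constructor
    · intro h
      obtain ⟨v, hv1, hv2⟩ := hcompl x
      exact ⟨v, (holds_caseFm x t _ _).2 ⟨sbst_of_holds (litVal x) (f v) t true φ hv2 h, hv1⟩⟩
    · rintro ⟨v, hv⟩
      obtain ⟨h1, h2⟩ := (holds_caseFm x t _ _).1 hv
      exact holds_of_sbst (litVal x) (f v) t true φ (hsound v x h2) h1

private theorem FmH_size (v0 : V) (g : V × Bool → V × Bool) (F : Finset (Finset (V × Bool)))
    (b : ℝ) (hF : (F.card : ℝ) ≤ b) :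
    Fm.size 2 (asTwo (cnfFm g (nrm v0 F))) ≤ (⌊b⌋₊ + 2) * (4 * Fintype.card V + 1) + 1 := by
  have h1 := size_cnfFm g (nrm v0 F)
  have h2 := nrm_card v0 F
  have h3 : F.card ≤ ⌊b⌋₊ := Nat.le_floor hF
  have h4 : (nrm v0 F).card * (4 * Fintype.card V + 1) ≤
      (⌊b⌋₊ + 2) * (4 * Fintype.card V + 1) := Nat.mul_le_mul_right _ (by omega)
  exact h1.trans (by omega)

theorem family (v0 : V) (t d : ℕ) (φ : Fm (V × Bool) (t + 2)) (hφ : Fm.Wf d (t + 2) φ)
    (b : ℝ) (hb : 1 ≤ b)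
    (hC : ∀ W : Finset (Finset (Finset (V × Bool))), (∀ F ∈ W, ∀ e ∈ F, e.card ≤ d) →
      W.card ≤ Fm.size (t + 2) φ →
      Cases (fun (C : Finset (V × Bool)) T => ∃ a ∈ C, a ∈ T) (fun _ => True) W b) :
    ∃ (ι : Type) (_ : Fintype ι) (_ : Nonempty ι) (Φ : ι → Fm (V × Bool) (t + 2)),
      (Fintype.card ι : ℝ) ≤ b ∧
      (∀ v, Fm.Wf 1 (t + 2) (Φ v)) ∧
      (∀ v, (Fm.size (t + 2) (Φ v) : ℝ) ≤
        (b + 3) * (4 * (Fintype.card V : ℝ) + 1) * ((t : ℝ) + 2) *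
          ((Fm.size (t + 2) φ : ℝ) + 1)) ∧
      ∀ x : V → Bool, Fm.Holds (litVal x) (t + 2) true φ ↔
        ∃ v, Fm.Holds (litVal x) (t + 2) true (Φ v) := by
  classical
  rcases hq : pol t true with _ | _
  · have hW : ∀ ψ ∈ bots t φ, fam negLit ψ ∈ ((bots t φ).map (fam negLit)).toFinset := by
      intro ψ hψ
      rw [List.mem_toFinset]
      exact List.mem_map_of_mem hψ
    obtain ⟨ι, hι, S, lo, up, hcard, hS, hlu, hlo, hup, hc⟩ :=
      hC ((bots t φ).map (fam negLit)).toFinset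
        (by
          intro F hF
          rw [List.mem_toFinset, List.mem_map] at hF
          obtain ⟨ψ, hψ, rfl⟩ := hF
          exact card_fam negLit d ψ (bots_wf d t φ hφ ψ hψ))
        (by
          refine (List.toFinset_card_le _).trans ?_
          rw [List.length_map]
          exact bots_length t φ)
    refine FmH_aux t d φ hφ b hb ι S (fun v ψ => cnfFm negLit (nrm v0 (up v (fam negLit ψ))))
      hcard hS ?_ ?_ ?_ ?_
    · intro v ψ hψ
      exact wf_cnfFm negLit _ (nrm_nonempty v0 _) (nrm_clause v0 _)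
    · intro v ψ hψ
      exact FmH_size v0 negLit _ b (hlu v _ (hW ψ hψ)).2.1
    · intro v x hx ψ hψ h
      rw [hq] at h
      rw [hq]
      show Fm.Holds (litVal x) 1 true ψ
      rw [holds_fam_true]
      intro h3
      have h4 : ¬ ∀ c ∈ nrm v0 (up v (fam negLit ψ)), ∃ a ∈ c, a ∈ trueLits x :=
        (holds_cnfFm_false x _).1 h
      exact h4 ((nrm_holds v0 _ x).2 (hup v _ (hW ψ hψ) _ hx h3))
    · intro x
      obtain ⟨v, hv1, hv2⟩ := hc (trueLits x)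
      refine ⟨v, hv1, ?_⟩
      intro ψ hψ h
      rw [hq] at h
      rw [hq]
      have h3 : ¬ dnf (fam negLit ψ) (trueLits x) := (holds_fam_true x ψ).1 h
      refine (holds_cnfFm_false x _).2 ?_
      intro h4
      exact h3 ((hv2 _ (hW ψ hψ)).2 ((nrm_holds v0 _ x).1 h4))
  · have hW : ∀ ψ ∈ bots t φ, fam id ψ ∈ ((bots t φ).map (fam id)).toFinset := by
      intro ψ hψ
      rw [List.mem_toFinset]
      exact List.mem_map_of_mem hψ
    obtain ⟨ι, hι, S, lo, up, hcard, hS, hlu, hlo, hup, hc⟩ :=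
      hC ((bots t φ).map (fam id)).toFinset
        (by
          intro F hF
          rw [List.mem_toFinset, List.mem_map] at hF
          obtain ⟨ψ, hψ, rfl⟩ := hF
          exact card_fam id d ψ (bots_wf d t φ hφ ψ hψ))
        (by
          refine (List.toFinset_card_le _).trans ?_
          rw [List.length_map]
          exact bots_length t φ)
    refine FmH_aux t d φ hφ b hb ι S (fun v ψ => cnfFm id (nrm v0 (lo v (fam id ψ))))
      hcard hS ?_ ?_ ?_ ?_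
    · intro v ψ hψ
      exact wf_cnfFm id _ (nrm_nonempty v0 _) (nrm_clause v0 _)
    · intro v ψ hψ
      exact FmH_size v0 id _ b (hlu v _ (hW ψ hψ)).1
    · intro v x hx ψ hψ h
      rw [hq] at h
      rw [hq]
      show Fm.Holds (litVal x) 1 false ψ
      rw [holds_fam_false]
      have h4 : ∀ c ∈ nrm v0 (lo v (fam id ψ)), ∃ a ∈ c, a ∈ trueLits x :=
        (holds_cnfFm_true x _).1 h
      exact hlo v _ (hW ψ hψ) _ ((nrm_holds v0 _ x).1 h4)
    · intro x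
      obtain ⟨v, hv1, hv2⟩ := hc (trueLits x)
      refine ⟨v, hv1, ?_⟩
      intro ψ hψ h
      rw [hq] at h
      rw [hq]
      have h3 : dnf (fam id ψ) (trueLits x) := (holds_fam_false x ψ).1 h
      exact (holds_cnfFm_true x _).2 ((nrm_holds v0 _ x).2 ((hv2 _ (hW ψ hψ)).1 h3))

end Pool.Agent.SH5ee
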