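import Pool.Agent.Lib.MP_5ee345_lc.AddInv
import Pool.Agent.Lib.MP_5ee345_lc.Beta

/-!
JOB Hp (`MP_5ee345_lc`): heart step and petal step.
`AddInv.lean`, `Beta.lean` are imported (they may hold `sorry`): `inv_add`, `beta_pos`.

`inv_heart`: `deg A J i ≥ K beta (i - J.card) ≥ 1` gives `f ∈ A` with `f.card = i`, `J ⊆ f`; so
`i ≤ d` and `J.card < d`. No `f' ∈ A` is contained in `J`: else `f' ⊆ J ⊆ f`, `f' = f`, but
`f'.card ≤ J.card < i`. Apply `inv_add` with `P = {J}`, `s0 = J.card`; for `J'` nonempty with
`J'.card < J.card`: `deg A J' J.card < K beta (J.card - J'.card)` by `Picked.min` (`J.card < i`) and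
`deg {J} J' J.card ≤ 1`.

`inv_petal`: `s0 = i - J.card`. `P = petals A J i = {f \ J : f ∈ A, f.card = i, J ⊆ f}`; every member
has size `s0`, `1 ≤ s0 < d` (as `i ≤ d`, `1 ≤ J.card < i`); `f ↦ f \ J` is injective on sets containing `J`,
so `P.card = deg A J i ≥ K beta s0`. No `f' ∈ A` is contained in `f \ J`: else `f' ⊆ f`, so `f' = f`, and
`J ⊆ f = f' ⊆ f \ J` contradicts `J ≠ ∅`. For `J'` nonempty with `J'.card < s0`:
`deg A J' s0 < K beta (s0 - J'.card)` by `Picked.min` (`s0 < i`). If some petal contains `J'` then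
`J'` is disjoint from `J`, and `f ↦ f \ J` shows `deg P J' s0 ≤ deg A (J ∪ J') i`, where
`(J ∪ J').card = J.card + J'.card` is `> J.card` and `< i`: this is `< K beta (i - J.card - J'.card)`
by `Picked.max`. If no petal contains `J'`, `deg P J' s0 = 0`.

`free_petals`: `f \ J ⊆ T` and `J ⊆ T` give `f ⊆ T`.
-/

namespace Pool.Agent.SH5ee

open Finset

variable {L : Type} [DecidableEq L]

theorem inv_heart {K d : ℕ} (hK : 1 ≤ K) {A : Finset (Finset L)} {c : ℕ → ℕ} (hI : Inv K d A c)
    {J : Finset L} {i : ℕ} (hP : Picked K A J i) :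
    1 ≤ J.card ∧ J.card < d ∧
      Inv K d (add A {J}) (Function.update c J.card (c J.card + 1)) := by
  have hJ1 : 1 ≤ J.card := hP.ne.card_pos
  have hKb : ∀ s, 1 ≤ K * beta K s := fun s => Nat.mul_pos hK (beta_pos K s)
  have hdpos : 0 < deg A J i := lt_of_lt_of_le (hKb _) hP.heavy
  obtain ⟨f, hf⟩ := Finset.card_pos.mp hdpos
  rw [mem_filter] at hf
  obtain ⟨hfA, hfc, hJf⟩ := hf
  have hid : i ≤ d := by
    have := (hI.size f hfA).2
    omega
  have hJd : J.card < d := lt_of_lt_of_le hP.lt hid
  refine ⟨hJ1, hJd, ?_⟩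
  have h := inv_add (K := K) (d := d) (A := A) (P := {J}) (c := c) (s0 := J.card) hI hJ1 hJd.le
    (by
      intro p hp
      rw [mem_singleton] at hp
      rw [hp])
    (by
      intro p hp f' hf' hsub
      rw [mem_singleton] at hp
      rw [hp] at hsub
      have h1 : f' = f := hI.anti f' hf' f hfA (hsub.trans hJf)
      have h2 := card_le_card hsub
      have h3 := hP.lt
      rw [h1, hfc] at h2
      omega)
    (by
      intro J' hJ' hlt
      have h1 := hP.min J' hJ' J.card hP.lt hlt
      have h2 : deg {J} J' J.card ≤ 1 := by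
        unfold deg
        exact (card_filter_le _ _).trans (by simp)
      omega)
  rw [card_singleton] at h
  exact h

theorem inv_petal {K d : ℕ} (hK : 1 ≤ K) {A : Finset (Finset L)} {c : ℕ → ℕ} (hI : Inv K d A c)
    {J : Finset L} {i : ℕ} (hP : Picked K A J i) :
    ∃ s0 : ℕ, 1 ≤ s0 ∧ s0 < d ∧ K * beta K s0 ≤ (petals A J i).card ∧
      Inv K d (add A (petals A J i))
        (Function.update c s0 (c s0 + (petals A J i).card)) := by
  have hJ1 : 1 ≤ J.card := hP.ne.card_pos
  have hlt := hP.lt
  have hKb : ∀ s, 1 ≤ K * beta K s := fun s => Nat.mul_pos hK (beta_pos K s)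
  have hdpos : 0 < deg A J i := lt_of_lt_of_le (hKb _) hP.heavy
  obtain ⟨f, hf⟩ := Finset.card_pos.mp hdpos
  rw [mem_filter] at hf
  obtain ⟨hfA, hfc, hJf⟩ := hf
  have hid : i ≤ d := by
    have := (hI.size f hfA).2
    omega
  have hinj : ∀ S : Finset (Finset L), (∀ g ∈ S, J ⊆ g) →
      Set.InjOn (fun g : Finset L => g \ J) (S : Set (Finset L)) := by
    intro S hS a ha b hb hab
    have ha' := hS a ha
    have hb' := hS b hb
    have h1 : (a \ J) ∪ J = a := sdiff_union_of_subset ha'
    have h2 : (b \ J) ∪ J = b := sdiff_union_of_subset hb'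
    have hab' : a \ J = b \ J := hab
    rw [← h1, ← h2, hab']
  have hcardP : (petals A J i).card = deg A J i := by
    unfold petals deg
    rw [card_image_of_injOn]
    exact hinj _ (fun g hg => (mem_filter.mp hg).2.2)
  have hmemP : ∀ p ∈ petals A J i, ∃ g ∈ A, g.card = i ∧ J ⊆ g ∧ p = g \ J := by
    intro p hp
    unfold petals at hp
    rw [mem_image] at hp
    obtain ⟨g, hg, hgp⟩ := hp
    rw [mem_filter] at hg
    exact ⟨g, hg.1, hg.2.1, hg.2.2, hgp.symm⟩
  refine ⟨i - J.card, by omega, by omega, ?_, ?_⟩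
  · rw [hcardP]
    exact hP.heavy
  refine inv_add hI (by omega) (by omega) ?_ ?_ ?_
  · intro p hp
    obtain ⟨g, _, hgc, hJg, rfl⟩ := hmemP p hp
    rw [card_sdiff_of_subset hJg, hgc]
  · intro p hp f' hf' hsub
    obtain ⟨g, hgA, hgc, hJg, rfl⟩ := hmemP p hp
    have h1 : f' = g := hI.anti f' hf' g hgA (hsub.trans sdiff_subset)
    obtain ⟨x, hx⟩ := hP.ne
    have h2 : x ∈ g \ J := hsub (h1 ▸ hJg hx)
    rw [mem_sdiff] at h2
    exact h2.2 hx
  · intro J' hJ' hJ'lt
    have h1 := hP.min J' hJ' (i - J.card) (by omega) hJ'lt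
    have h2 : deg (petals A J i) J' (i - J.card) ≤ K * beta K (i - J.card - J'.card) := by
      by_cases hex : ∃ p ∈ petals A J i, J' ⊆ p
      · obtain ⟨p, hp, hJp⟩ := hex
        obtain ⟨g, hgA, hgc, hJg, hpg⟩ := hmemP p hp
        have hdisj : Disjoint J J' := by
          rw [disjoint_left]
          intro x hxJ hxJ'
          have := hJp hxJ'
          rw [hpg, mem_sdiff] at this
          exact this.2 hxJ
        have hcU : (J ∪ J').card = J.card + J'.card := card_union_of_disjoint hdisj
        have hJ'1 : 1 ≤ J'.card := hJ'.card_pos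
        have hmx := hP.max (J ∪ J') (by omega) (by omega)
        rw [hcU] at hmx
        have hle : deg (petals A J i) J' (i - J.card) ≤ deg A (J ∪ J') i := by
          unfold deg
          have hsub : (petals A J i).filter (fun f => f.card = i - J.card ∧ J' ⊆ f) ⊆
              (A.filter (fun f => f.card = i ∧ J ∪ J' ⊆ f)).image (fun g => g \ J) := by
            intro q hq
            rw [mem_filter] at hq
            obtain ⟨g', hgA', hgc', hJg', hqg⟩ := hmemP q hq.1
            rw [mem_image]
            refine ⟨g', ?_, hqg.symm⟩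
            rw [mem_filter]
            refine ⟨hgA', hgc', union_subset hJg' ?_⟩
            have := hq.2.2
            rw [hqg] at this
            exact this.trans sdiff_subset
          exact (card_le_card hsub).trans card_image_le
        have heq : i - J.card - J'.card = i - (J.card + J'.card) := by omega
        rw [heq]
        exact hle.trans hmx.le
      · have h0 : deg (petals A J i) J' (i - J.card) = 0 := by
          unfold deg
          rw [card_eq_zero, filter_eq_empty_iff]
          intro p hp hh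
          exact hex ⟨p, hp, hh.2⟩
        rw [h0]
        exact Nat.zero_le _
    omega

theorem free_petals {A : Finset (Finset L)} {T J : Finset L} (i : ℕ) (hA : free A T)
    (hJ : J ⊆ T) : free (petals A J i) T := by
  intro p hp hpT
  unfold petals at hp
  rw [mem_image] at hp
  obtain ⟨g, hg, hgp⟩ := hp
  rw [mem_filter] at hg
  apply hA g hg.1
  intro x hx
  by_cases hxJ : x ∈ J
  · exact hJ hxJ
  · apply hpT
    rw [← hgp, mem_sdiff]
    exact ⟨hx, hxJ⟩

end Pool.Agent.SH5ee
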