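import Pool.Agent.Lib.MP_5ee345_lc.AddInv
import Pool.Agent.Lib.MP_5ee345_lc.Beta

/-!
JOB Mt (`MP_5ee345_lc`): truncated maximal matchings and rounds.

`exists_mt`: among the subsets `M ⊆ G` with pairwise disjoint members and `M.card ≤ Q` take one with
the largest `card`. If `M.card < Q` and `e ∈ G` is disjoint from all members of `M` then `e ∉ M`
(`e` is nonempty, so not disjoint from itself) and `insert e M` is larger.
`mt_spec`: `Exists.choose_spec`.
`inv_round`: `P = mt Q (gph d F A)`, `s0 = d`: members have size `d` and contain no member of `A`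
(definition of `gph`). For `J` nonempty, `J.card < d`: `deg A J d < K beta (d - J.card)` (`Light`), and
`deg P J d ≤ 1` as two different members of `P` are disjoint and `J ≠ ∅`. Use `inv_add`.
-/

namespace Pool.Agent.SH5ee

open Finset

variable {L : Type} [DecidableEq L]

theorem exists_mt (Q : ℕ) (G : Finset (Finset L)) (hG : ∀ e ∈ G, e.Nonempty) :
    ∃ M, IsMt Q G M := by
  classical
  set S := G.powerset.filter (fun M => (∀ e ∈ M, ∀ f ∈ M, e ≠ f → Disjoint e f) ∧ M.card ≤ Q)
    with hS
  have hne : S.Nonempty := by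
    refine ⟨∅, ?_⟩
    rw [hS, mem_filter, mem_powerset]
    exact ⟨empty_subset _, fun e he => absurd he (notMem_empty e), by simp⟩
  obtain ⟨M, hM, hmax⟩ := exists_max_image S Finset.card hne
  have hM' := hM
  rw [hS, mem_filter, mem_powerset] at hM'
  obtain ⟨h1, h2, h3⟩ := hM'
  refine ⟨M, h1, h2, h3, ?_⟩
  by_cases hQ : M.card = Q
  · exact Or.inl hQ
  · right
    intro e he
    by_contra hcon
    push Not at hcon
    have heM : e ∉ M := by
      intro h4
      have h5 := hcon e h4
      rw [disjoint_self_iff_empty] at h5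
      exact (hG e he).ne_empty h5
    have h6 : insert e M ∈ S := by
      rw [hS, mem_filter, mem_powerset]
      refine ⟨insert_subset he h1, ?_, ?_⟩
      · intro a ha b hb hab
        rw [mem_insert] at ha hb
        rcases ha with rfl | ha
        · rcases hb with rfl | hb
          · exact absurd rfl hab
          · exact hcon b hb
        · rcases hb with rfl | hb
          · exact (hcon a ha).symm
          · exact h2 a ha b hb hab
      · rw [card_insert_of_notMem heM]
        omega
    have h7 := hmax _ h6
    rw [card_insert_of_notMem heM] at h7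
    omega

theorem mt_spec (Q : ℕ) (G : Finset (Finset L)) (hG : ∀ e ∈ G, e.Nonempty) :
    IsMt Q G (mt Q G) := by
  have h := exists_mt Q G hG
  unfold mt
  rw [dif_pos h]
  exact h.choose_spec

theorem mt_gph_spec (Q d : ℕ) (hd : 1 ≤ d) (F A : Finset (Finset L)) :
    IsMt Q (gph d F A) (mt Q (gph d F A)) := by
  refine mt_spec Q _ fun e he => ?_
  unfold gph at he
  rw [mem_filter] at he
  rw [← card_pos, he.2.1]
  exact hd

theorem inv_round {K d Q : ℕ} (hK : 1 ≤ K) (hd : 1 ≤ d) {A : Finset (Finset L)} {c : ℕ → ℕ}
    (hI : Inv K d A c) (hL : Light K A) (F : Finset (Finset L)) :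
    Inv K d (roundF d Q F A) (Function.update c d (c d + (mt Q (gph d F A)).card)) := by
  have hM := mt_gph_spec Q d hd F A
  have hmem : ∀ p ∈ mt Q (gph d F A), p.card = d ∧ ∀ f ∈ A, ¬ f ⊆ p := by
    intro p hp
    have h1 := hM.sub hp
    unfold gph at h1
    rw [mem_filter] at h1
    exact h1.2
  refine inv_add hI hd le_rfl (fun p hp => (hmem p hp).1) (fun p hp => (hmem p hp).2) ?_
  intro J hJ hJd
  have h1 := hL J hJ d hJd
  have h2 : deg (mt Q (gph d F A)) J d ≤ 1 := by
    unfold deg
    rw [card_le_one]
    intro a ha b hb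
    rw [mem_filter] at ha hb
    by_contra hab
    have h3 := hM.disj a ha.1 b hb.1 hab
    obtain ⟨x, hx⟩ := hJ
    exact disjoint_left.mp h3 (ha.2.2 hx) (hb.2.2 hx)
  omega

end Pool.Agent.SH5ee
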