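import Pool.Agent.Lib.MP_5ee345_lc.Beta

/-!
JOB Pick (`MP_5ee345_lc`): choice of the heavy pair. `Beta.lean` is imported (job Beta): `beta_pos`.

`pick_spec`: if `A` is not light there are `J ≠ ∅` and `s > J.card` with
`K beta (s - J.card) ≤ deg A J s`. Let `i` be the smallest such `s` (`Nat.find`), and among the heavy `J`
for this `i` (all `J` with `J.Nonempty`, `J.card < i`, heavy; they lie in a member of `A` of size `i`
because `K beta ≥ 1`, so they form a finite set: filter of `A.biUnion powerset`) take one with the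
largest `card` (`Finset.exists_max_image`). Then `pick` is this choice or another one with the same
property (`Exists.choose_spec`).

-/

namespace Pool.Agent.SH5ee

open Finset

variable {L : Type} [DecidableEq L]

private theorem Pick_mem {K : ℕ} (hK : 1 ≤ K) {A : Finset (Finset L)} {J : Finset L} {s : ℕ}
    (h : K * beta K (s - J.card) ≤ deg A J s) : J ∈ A.biUnion Finset.powerset := by
  have h1 : 1 ≤ deg A J s := le_trans (Nat.mul_le_mul hK (beta_pos K (s - J.card))) h
  unfold deg at h1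
  obtain ⟨f, hf⟩ := Finset.card_pos.1 (show 0 < _ from h1)
  rw [mem_filter] at hf
  rw [mem_biUnion]
  exact ⟨f, hf.1, mem_powerset.2 hf.2.2⟩

private theorem Pick_exists {K : ℕ} (hK : 1 ≤ K) {A : Finset (Finset L)} (h : ¬ Light K A) :
    ∃ q : Finset L × ℕ, Picked K A q.1 q.2 := by
  classical
  have h0 : ∃ s : ℕ, ∃ J : Finset L, J.Nonempty ∧ J.card < s ∧ K * beta K (s - J.card) ≤ deg A J s := by
    unfold Light at h
    push Not at h
    obtain ⟨J, hJ, s, hs, hd⟩ := h
    exact ⟨s, J, hJ, hs, hd⟩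
  set i := Nat.find h0 with hi
  obtain ⟨J0, hJ0, hJ0i, hJ0d⟩ := Nat.find_spec h0
  rw [← hi] at hJ0i hJ0d
  set C : Finset (Finset L) := (A.biUnion Finset.powerset).filter
    (fun J => J.Nonempty ∧ J.card < i ∧ K * beta K (i - J.card) ≤ deg A J i) with hC
  have hCne : C.Nonempty := ⟨J0, mem_filter.2 ⟨Pick_mem hK hJ0d, hJ0, hJ0i, hJ0d⟩⟩
  obtain ⟨J, hJC, hJmax⟩ := Finset.exists_max_image C (fun J => J.card) hCne
  obtain ⟨-, hJ1, hJ2, hJ3⟩ := mem_filter.1 hJC
  refine ⟨(J, i), ⟨hJ1, hJ2, hJ3, ?_, ?_⟩⟩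
  · intro J' hJ' s hs hJs
    by_contra hcon
    exact Nat.find_min h0 hs ⟨J', hJ', hJs, not_lt.1 hcon⟩
  · intro J' hJJ' hJ'i
    by_contra hcon
    have hne : J'.Nonempty := Finset.card_pos.1 (lt_of_le_of_lt (Nat.zero_le _) hJJ')
    have h1 : J' ∈ C := mem_filter.2 ⟨Pick_mem hK (not_lt.1 hcon), hne, hJ'i, not_lt.1 hcon⟩
    have h2 := hJmax J' h1
    exact absurd hJJ' (not_lt.2 h2)

theorem pick_spec {K : ℕ} (hK : 1 ≤ K) {A : Finset (Finset L)} (h : ¬ Light K A) :
    Picked K A (pick K A).1 (pick K A).2 := by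
  have h1 := Pick_exists hK h
  unfold pick
  rw [dif_pos h1]
  exact h1.choose_spec

end Pool.Agent.SH5ee
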