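import Pool.Agent.Lib.MP_5ee345_lc.ExK

/-!
JOB StNum (`MP_5ee345_lc`): the numerical part of one step. `ExK.lean` is imported (may hold `sorry`).

Given `d ≥ 2`, `ε > 0`. `exists_K d (ε / 4)` gives `K`, `ρ`. Let `η = ε / (2 d)`,
`R = ⌈2 * beta K d / η⌉₊`, `c = ε / (4 (R + 1))`, and `N0` large. For `N ≥ N0` take `Q = ⌊η N⌋₊`; for `N ≥ 2 / η`,
`Q ≥ η N / 2` and `Q ≥ 1`. Then `2 ^ (d Q) ≤ 2 ^ (ε N / 2)`, and `r Q ≤ beta K d * N` gives `r ≤ 2 beta K d / η ≤ R`.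
Let `H = (∑ s ∈ Ico 1 d, beta K s) * N`, `P = (d - 1) * N / K` (division in `ℕ`, so `P * K ≤ (d - 1) * N`).
`exists_K` gives `2 ^ (-(ε N / 4)) ≤ (1 - 2 ρ) ^ H * ρ ^ P`, so
`X ≤ 2 ^ (ε N / 4) * (1 / ρ) ^ R * (H + 1) (P + 1) (R + 1) * m ^ R` (all factors positive; if `X ≤ 0` nothing to do), and
`m ^ R ≤ 2 ^ (c N R) ≤ 2 ^ (ε N / 4)`. The factor `(1/ρ) ^ R (H + 1) (P + 1) (R + 1)` is at most
`C (N + 1) ^ 2` with a constant `C`, and `C (N+1)^2 ≤ 2 ^ (ε N / 4)` for all large `N`; the same for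
`(∑ ...) * N ≤ 2 ^ (ε N)`. (Polynomial against exponential: e.g.
`isLittleO_pow_const_const_pow_of_one_lt`, or `tendsto_pow_const_div_const_pow_of_one_lt`;
`2 ^ (δ * N) = (2 ^ δ) ^ N`, `Real.rpow_mul`, `Real.rpow_natCast`.)
-/

namespace Pool.Agent.SH5ee

open Finset

/-- polynomials are smaller than exponentials, eventually -/
theorem poly_lt_exp (C : ℝ) (D : ℕ) (δ : ℝ) (hδ : 0 < δ) : ∃ N0 : ℕ, ∀ N : ℕ, N0 ≤ N →
    C * ((N : ℝ) + 1) ^ D ≤ 2 ^ (δ * (N : ℝ)) := by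
  have hr1 : (1 : ℝ) < 2 ^ δ := Real.one_lt_rpow (by norm_num) hδ
  set r : ℝ := 2 ^ δ with hr
  have hr0 : 0 < r := by linarith
  have h1 := tendsto_pow_const_div_const_pow_of_one_lt D hr1
  have h2 : (0 : ℝ) < 1 / ((|C| + 1) * r) := by positivity
  have h3 := h1.eventually (gt_mem_nhds h2)
  obtain ⟨N0, hN0⟩ := Filter.eventually_atTop.1 h3
  refine ⟨N0, fun N hN => ?_⟩
  have h4 := hN0 (N + 1) (by omega)
  have h5 : (2 : ℝ) ^ (δ * (N : ℝ)) = r ^ N := by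
    rw [hr]
    exact Real.rpow_mul_natCast (by norm_num) δ N
  rw [h5]
  have h6 : (0 : ℝ) < r ^ (N + 1) := pow_pos hr0 _
  have h7 : (0 : ℝ) < (|C| + 1) * r := by positivity
  rw [div_lt_div_iff₀ h6 h7, one_mul, pow_succ] at h4
  have h8 : (((N + 1 : ℕ) : ℝ)) ^ D * (|C| + 1) < r ^ N := by
    have h9 : (((N + 1 : ℕ) : ℝ)) ^ D * (|C| + 1) * r < r ^ N * r := by
      linarith
    exact lt_of_mul_lt_mul_right h9 hr0.le
  push_cast at h8
  have h10 : C ≤ |C| + 1 := by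
    have := le_abs_self C
    linarith
  have h11 : (0 : ℝ) ≤ ((N : ℝ) + 1) ^ D := by positivity
  nlinarith [mul_le_mul_of_nonneg_right h10 h11]

theorem step_num (d : ℕ) (hd : 2 ≤ d) (ε : ℝ) (hε : 0 < ε) :
    ∃ K : ℕ, 1 ≤ K ∧ ∃ ρ : ℝ, 0 < ρ ∧ ρ < 1 / 2 ∧ ∃ c : ℝ, 0 < c ∧ ∃ R N0 : ℕ,
      ∀ N : ℕ, N0 ≤ N → ∃ Q : ℕ, 1 ≤ Q ∧ (2 : ℝ) ^ (d * Q) ≤ 2 ^ (ε * (N : ℝ)) ∧
        (∀ r : ℕ, r * Q ≤ beta K d * N → r ≤ R) ∧
        ((((∑ s ∈ Icc 1 d, (1 + 2 * (K * beta K (s - 1)))) * N : ℕ) : ℝ) ≤ 2 ^ (ε * (N : ℝ))) ∧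
        ∀ m X : ℝ, 1 ≤ m → m ≤ 2 ^ (c * (N : ℝ)) →
          X * ((1 - 2 * ρ) ^ ((∑ s ∈ Ico 1 d, beta K s) * N) * ρ ^ ((d - 1) * N / K) * ρ ^ R) ≤
            ((((∑ s ∈ Ico 1 d, beta K s) * N : ℕ) : ℝ) + 1) * ((((d - 1) * N / K : ℕ) : ℝ) + 1) *
              ((R : ℝ) + 1) * m ^ R →
          X ≤ 2 ^ (ε * (N : ℝ)) := by
  obtain ⟨K, hK, ρ, hρ0, hρ1, hKρ⟩ := exists_K d (ε / 4) (by positivity)
  have hd0 : (0 : ℝ) < d := by exact_mod_cast (by omega : 0 < d)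
  set η : ℝ := ε / (2 * d) with hη
  have hη0 : 0 < η := by positivity
  set b : ℝ := (beta K d : ℝ) with hb
  have hb0 : 0 ≤ b := Nat.cast_nonneg _
  set R : ℕ := ⌈2 * b / η⌉₊ with hR
  set c : ℝ := ε / (4 * (R + 1)) with hc
  have hc0 : 0 < c := by positivity
  set B : ℕ := ∑ s ∈ Ico 1 d, beta K s with hB
  set S : ℕ := ∑ s ∈ Icc 1 d, (1 + 2 * (K * beta K (s - 1))) with hS
  set C1 : ℝ := (ρ ^ R)⁻¹ * (B + 1) * d * (R + 1) with hC1
  obtain ⟨N1, hN1⟩ := poly_lt_exp C1 2 (ε / 4) (by positivity)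
  obtain ⟨N2, hN2⟩ := poly_lt_exp (S : ℝ) 1 ε hε
  refine ⟨K, hK, ρ, hρ0, hρ1, c, hc0, R, N1 + N2 + ⌈2 / η⌉₊ + 1, fun N hN => ?_⟩
  have hNpos : (0 : ℝ) < N := by exact_mod_cast (by omega : 0 < N)
  have hηN : 2 ≤ η * N := by
    have h1 : 2 / η ≤ (N : ℝ) := (Nat.le_ceil _).trans (by exact_mod_cast (by omega : ⌈2 / η⌉₊ ≤ N))
    rw [div_le_iff₀ hη0] at h1
    linarith
  have hQle : ((⌊η * N⌋₊ : ℕ) : ℝ) ≤ η * N := Nat.floor_le (by positivity)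
  have hQge : η * N / 2 ≤ ((⌊η * N⌋₊ : ℕ) : ℝ) := by
    have h1 := Nat.lt_floor_add_one (η * (N : ℝ))
    linarith
  have hu : ∀ x : ℝ, (0 : ℝ) < 2 ^ x := fun x => Real.rpow_pos_of_pos (by norm_num) x
  refine ⟨⌊η * N⌋₊, ?_, ?_, ?_, ?_, ?_⟩
  · exact Nat.le_floor (by push_cast; linarith)
  · rw [← Real.rpow_natCast]
    refine Real.rpow_le_rpow_of_exponent_le (by norm_num) ?_
    push_cast
    have h1 : (d : ℝ) * ((⌊η * N⌋₊ : ℕ) : ℝ) ≤ d * (η * N) := mul_le_mul_of_nonneg_left hQle hd0.le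
    have h2 : (d : ℝ) * (η * N) = ε * N / 2 := by
      rw [hη]
      field_simp
    have h3 : 0 ≤ ε * N := by positivity
    linarith
  · intro r hr
    have h1 : (r : ℝ) * ((⌊η * N⌋₊ : ℕ) : ℝ) ≤ b * N := by
      rw [hb]
      exact_mod_cast hr
    have h2 : (r : ℝ) * (η * N / 2) ≤ b * N :=
      (mul_le_mul_of_nonneg_left hQge (Nat.cast_nonneg r)).trans h1
    have h3 : (r : ℝ) ≤ 2 * b / η := by
      rw [le_div_iff₀ hη0]
      have h4 : (r : ℝ) * η * N ≤ 2 * b * N := by linarith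
      exact le_of_mul_le_mul_right h4 hNpos
    exact_mod_cast h3.trans (Nat.le_ceil _)
  · have h1 := hN2 N (by omega)
    rw [pow_one] at h1
    push_cast
    refine le_trans ?_ h1
    have h2 : (0 : ℝ) ≤ S := Nat.cast_nonneg _
    rw [hS] at h2 ⊢
    push_cast at h2 ⊢
    nlinarith
  · intro m X hm hmc hX
    rcases le_or_gt X 0 with hX0 | hX0
    · exact hX0.trans (hu _).le
    set u : ℝ := 2 ^ (ε / 4 * (N : ℝ)) with hudef
    have hu0 : 0 < u := hu _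
    have hw : u⁻¹ ≤ (1 - 2 * ρ) ^ (B * N) * ρ ^ ((d - 1) * N / K) := by
      have h1 := hKρ N (B * N) ((d - 1) * N / K) le_rfl (Nat.div_mul_le_self _ _)
      rw [Real.rpow_neg (by norm_num)] at h1
      exact h1
    have hρR : 0 < ρ ^ R := pow_pos hρ0 R
    have hmR : m ^ R ≤ u := by
      have h1 : m ^ R ≤ (2 ^ (c * (N : ℝ)) : ℝ) ^ R := pow_le_pow_left₀ (by linarith) hmc R
      refine h1.trans ?_
      rw [← Real.rpow_mul_natCast (by norm_num), hudef]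
      refine Real.rpow_le_rpow_of_exponent_le (by norm_num) ?_
      have h2 : c * (R : ℝ) ≤ ε / 4 := by
        rw [hc, div_mul_eq_mul_div, div_le_div_iff₀ (by positivity) (by norm_num)]
        have h3 : (0 : ℝ) ≤ R := Nat.cast_nonneg R
        nlinarith
      calc c * (N : ℝ) * R = c * R * N := by ring
        _ ≤ ε / 4 * N := mul_le_mul_of_nonneg_right h2 hNpos.le
    have hH : ((B * N : ℕ) : ℝ) + 1 ≤ ((B : ℝ) + 1) * (N + 1) := by
      push_cast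
      have h2 : (0 : ℝ) ≤ B := Nat.cast_nonneg _
      nlinarith
    have hP : (((d - 1) * N / K : ℕ) : ℝ) + 1 ≤ (d : ℝ) * (N + 1) := by
      have h1 : (d - 1) * N / K ≤ (d - 1) * N := Nat.div_le_self _ _
      have h2 : (((d - 1) * N / K : ℕ) : ℝ) ≤ (((d - 1) * N : ℕ) : ℝ) := by exact_mod_cast h1
      rw [Nat.cast_mul, Nat.cast_sub (by omega), Nat.cast_one] at h2
      have h3 : (1 : ℝ) ≤ d := by exact_mod_cast (by omega : 1 ≤ d)
      nlinarith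
    have hmR0 : 0 ≤ m ^ R := pow_nonneg (by linarith) R
    have hRR : (0 : ℝ) ≤ (R : ℝ) + 1 := by positivity
    have h5 : X * (u⁻¹ * ρ ^ R) ≤
        (((B : ℝ) + 1) * (N + 1)) * ((d : ℝ) * (N + 1)) * ((R : ℝ) + 1) * u := by
      calc X * (u⁻¹ * ρ ^ R) ≤
          X * ((1 - 2 * ρ) ^ (B * N) * ρ ^ ((d - 1) * N / K) * ρ ^ R) :=
            mul_le_mul_of_nonneg_left (mul_le_mul_of_nonneg_right hw hρR.le) hX0.le
        _ ≤ _ := hX
        _ ≤ _ := by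
            have h6 : (0 : ℝ) ≤ ((B * N : ℕ) : ℝ) + 1 := by positivity
            have h7 : (0 : ℝ) ≤ (((d - 1) * N / K : ℕ) : ℝ) + 1 := by positivity
            exact mul_le_mul (mul_le_mul_of_nonneg_right (mul_le_mul hH hP h7 (by positivity)) hRR)
              hmR hmR0 (by positivity)
    have h6 : X ≤ u * (C1 * ((N : ℝ) + 1) ^ 2) * u := by
      have h7 : X = X * (u⁻¹ * ρ ^ R) * (u * (ρ ^ R)⁻¹) := by
        field_simp
      rw [h7]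
      refine (mul_le_mul_of_nonneg_right h5 (by positivity)).trans (le_of_eq ?_)
      rw [hC1]
      ring
    have h8 := hN1 N (by omega)
    rw [← hudef] at h8
    have h9 : u * (C1 * ((N : ℝ) + 1) ^ 2) * u ≤ u * u * u :=
      mul_le_mul_of_nonneg_right (mul_le_mul_of_nonneg_left h8 hu0.le) hu0.le
    have h10 : u * u * u ≤ 2 ^ (ε * (N : ℝ)) := by
      rw [hudef, ← Real.rpow_add (by norm_num), ← Real.rpow_add (by norm_num)]
      refine Real.rpow_le_rpow_of_exponent_le (by norm_num) ?_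
      have h11 : 0 ≤ ε * N := by positivity
      linarith
    exact h6.trans (h9.trans h10)

end Pool.Agent.SH5ee
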