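import Pool.Agent.Lib.MP_5ee345_lc.Bd
import Pool.Agent.Lib.MP_5ee345_lc.Hp
import Pool.Agent.Lib.MP_5ee345_lc.Pick
import Pool.Agent.Lib.MP_5ee345_lc.Mt

/-!
JOB Tm (`MP_5ee345_lc`): every `T` has a correct final state. The imported files may hold `sorry`.

Fix `T`. Call `(A, c, h, p, r)` a trace if `Path K d Q W h p r A`, `Inv K d A c`, `free A T` and
(1) `h ≤ ∑ s ∈ Ico 1 d, c s`,
(2) `(p : ℝ) ≤ ∑ s ∈ Ico 1 d, (c s : ℝ) / (K * beta K s)`,
(3) `r * Q ≤ c d`,
(4) `h + p + r ≤ ∑ s ∈ Icc 1 d, c s`.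
`(∅, 0, 0, 0, 0)` is a trace (`inv_empty`). By `c_le`, (4) bounds `h + p + r` for all traces, so there is
a trace with `h + p + r` maximal. Claim: it is final.
* If `A` is not light, let `(J, i) = pick K A` (`pick_spec`). If `¬ J ⊆ T`, then `heartF K A = add A {J}` with
  `c` increased by one at `J.card ∈ [1, d-1]` gives a trace with `h + 1` (`inv_heart`, `free_add`). If `J ⊆ T`,
  then `petalF K A` with `c` increased at `s0 ∈ [1, d-1]` by `(petals A J i).card ≥ K * beta K s0 ≥ 1` gives a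
  trace with `p + 1` (`inv_petal`, `free_petals`); in (2) the right side grows by at least `1`. Both
  contradict maximality.
* If `A` is light and for some `F ∈ W` the matching `M = mt Q (gph d F A)` has not `M.card < Q`, so
  `M.card = Q` (`mt_gph_spec`), and no `e ∈ M` is contained in `T`, then `roundF d Q F A` with `c` increased
  by `Q` at `d` gives a trace with `r + 1` (`inv_round`, `free_add`).
Then `h ≤ (∑ s ∈ Ico 1 d, beta K s) * N` by (1) and `c_le`; by (2), `p ≤ ∑ s ∈ Ico 1 d, N / K = (d-1) N / K`;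
`r Q ≤ beta K d * N` by (3). (`N = Fintype.card L`.)
Sums after `Function.update`: `Finset.sum_update_of_mem`, or `Finset.sum_le_sum` with
`Function.update` unfolded.
-/

namespace Pool.Agent.SH5ee

open Finset

variable {L : Type} [DecidableEq L] [Fintype L]

theorem Tm_upd (c : ℕ → ℕ) (s0 k s : ℕ) :
    Function.update c s0 (c s0 + k) s = c s + if s = s0 then k else 0 := by
  by_cases h : s = s0
  · rw [h, Function.update_self, if_pos rfl]
  · rw [Function.update_of_ne h, if_neg h, add_zero]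

theorem Tm_sum (c : ℕ → ℕ) (s0 k : ℕ) (S : Finset ℕ) :
    ∑ s ∈ S, Function.update c s0 (c s0 + k) s = ∑ s ∈ S, c s + if s0 ∈ S then k else 0 := by
  simp only [Tm_upd]
  rw [Finset.sum_add_distrib, Finset.sum_ite_eq' S s0 (fun _ => k)]

theorem Tm_sumR (c : ℕ → ℕ) (w : ℕ → ℝ) (s0 k : ℕ) (S : Finset ℕ) :
    ∑ s ∈ S, ((Function.update c s0 (c s0 + k) s : ℕ) : ℝ) / w s =
      ∑ s ∈ S, (c s : ℝ) / w s + if s0 ∈ S then (k : ℝ) / w s0 else 0 := by
  simp only [Tm_upd]
  have h1 : ∀ s ∈ S, ((c s + if s = s0 then k else 0 : ℕ) : ℝ) / w s =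
      (c s : ℝ) / w s + if s = s0 then (k : ℝ) / w s else 0 := by
    intro s _
    by_cases h : s = s0
    · rw [if_pos h, if_pos h, Nat.cast_add, add_div]
    · rw [if_neg h, if_neg h, add_zero, add_zero]
  rw [Finset.sum_congr rfl h1, Finset.sum_add_distrib,
    Finset.sum_ite_eq' S s0 (fun s => (k : ℝ) / w s)]

/-- traces with `n` steps -/
def TmP (K d Q : ℕ) (W : Finset (Finset (Finset L))) (T : Finset L) (n : ℕ) : Prop :=
  ∃ (A : Finset (Finset L)) (c : ℕ → ℕ) (h p r : ℕ), Path K d Q W h p r A ∧ Inv K d A c ∧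
    free A T ∧ h ≤ ∑ s ∈ Ico 1 d, c s ∧
    (p : ℝ) ≤ ∑ s ∈ Ico 1 d, (c s : ℝ) / ((K * beta K s : ℕ) : ℝ) ∧ r * Q ≤ c d ∧
    h + p + r ≤ ∑ s ∈ Icc 1 d, c s ∧ h + p + r = n

theorem exists_done {K d Q : ℕ} (hK : 1 ≤ K) (hd : 1 ≤ d) (hQ : 1 ≤ Q)
    (W : Finset (Finset (Finset L))) (T : Finset L) :
    ∃ (A : Finset (Finset L)) (c : ℕ → ℕ) (h p r : ℕ), Path K d Q W h p r A ∧ Inv K d A c ∧
      Done d Q W A T ∧ h ≤ (∑ s ∈ Ico 1 d, beta K s) * Fintype.card L ∧
      p * K ≤ (d - 1) * Fintype.card L ∧ r * Q ≤ beta K d * Fintype.card L := by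
  classical
  have h0 : TmP K d Q W T 0 := by
    refine ⟨∅, fun _ => 0, 0, 0, 0, Path.init, inv_empty K d, ?_, ?_, ?_, ?_, ?_, rfl⟩
    · intro f hf
      exact absurd hf (Finset.notMem_empty f)
    · exact Nat.zero_le _
    · simp
    · simp
    · exact Nat.zero_le _
  have hbig : ∃ n, ¬ TmP K d Q W T n := by
    refine ⟨(∑ s ∈ Icc 1 d, beta K s * Fintype.card L) + 1, ?_⟩
    rintro ⟨A, c, h, p, r, -, hI, -, -, -, -, h4, h5⟩
    have h6 : ∑ s ∈ Icc 1 d, c s ≤ ∑ s ∈ Icc 1 d, beta K s * Fintype.card L :=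
      Finset.sum_le_sum fun s hs => c_le hI s (Finset.mem_Icc.1 hs).1
    omega
  obtain ⟨n, hn, hn1⟩ : ∃ n, TmP K d Q W T n ∧ ¬ TmP K d Q W T (n + 1) := by
    have h1 := Nat.find_spec hbig
    have h2 : Nat.find hbig ≠ 0 := by
      intro h3
      rw [h3] at h1
      exact h1 h0
    obtain ⟨n, hn⟩ := Nat.exists_eq_succ_of_ne_zero h2
    refine ⟨n, ?_, ?_⟩
    · by_contra h3
      have h4 := Nat.find_min' hbig h3
      omega
    · rw [hn] at h1
      exact h1
  obtain ⟨A, c, h, p, r, hPa, hI, hfr, e1, e2, e3, e4, e5⟩ := hn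
  have hL : Light K A := by
    by_contra hnL
    have hpk := pick_spec hK hnL
    by_cases hJ : (pick K A).1 ⊆ T
    · obtain ⟨s0, s1, s2, s3, s4⟩ := inv_petal hK hI hpk
      have hb : 1 ≤ K * beta K s0 := Nat.mul_pos hK (beta_pos K s0)
      refine hn1 ⟨petalF K A, _, h, p + 1, r, Path.petal hPa, s4,
        free_add hfr (free_petals _ hfr hJ), ?_, ?_, ?_, ?_, by omega⟩
      · rw [Tm_sum]
        omega
      · rw [Tm_sumR c (fun s => ((K * beta K s : ℕ) : ℝ)) s0, if_pos (Finset.mem_Ico.2 ⟨s1, s2⟩)]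
        have h7 : (1 : ℝ) ≤ ((petals A (pick K A).1 (pick K A).2).card : ℝ) /
            ((K * beta K s0 : ℕ) : ℝ) := by
          rw [le_div_iff₀ (by exact_mod_cast hb), one_mul]
          exact_mod_cast s3
        push_cast at e2 h7 ⊢
        linarith
      · rw [Tm_upd, if_neg (by omega), add_zero]
        exact e3
      · rw [Tm_sum, if_pos (Finset.mem_Icc.2 ⟨s1, s2.le⟩)]
        omega
    · obtain ⟨s1, s2, s4⟩ := inv_heart hK hI hpk
      refine hn1 ⟨heartF K A, _, h + 1, p, r, Path.heart hPa, s4, free_add hfr ?_, ?_, ?_, ?_, ?_,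
        by omega⟩
      · intro f hf
        rw [Finset.mem_singleton] at hf
        rw [hf]
        exact hJ
      · rw [Tm_sum, if_pos (Finset.mem_Ico.2 ⟨s1, s2⟩)]
        omega
      · rw [Tm_sumR c (fun s => ((K * beta K s : ℕ) : ℝ)), if_pos (Finset.mem_Ico.2 ⟨s1, s2⟩)]
        have h7 : (0 : ℝ) ≤ ((1 : ℕ) : ℝ) / ((K * beta K (pick K A).1.card : ℕ) : ℝ) := by
          positivity
        linarith
      · rw [Tm_upd, if_neg (by omega), add_zero]
        exact e3
      · rw [Tm_sum, if_pos (Finset.mem_Icc.2 ⟨s1, s2.le⟩)]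
        omega
  have hDone : Done d Q W A T := by
    refine ⟨hfr, fun F hF => ?_⟩
    by_contra hcon
    rw [not_or, not_lt] at hcon
    obtain ⟨hc1, hc2⟩ := hcon
    have hM := mt_gph_spec Q d hd F A
    have hMc : (mt Q (gph d F A)).card = Q := le_antisymm hM.card hc1
    have s4 := inv_round (Q := Q) hK hd hI hL F
    refine hn1 ⟨roundF d Q F A, _, h, p, r + 1, Path.round hPa hF, s4, free_add hfr ?_, ?_, ?_, ?_,
      ?_, by omega⟩
    · intro f hf hfT
      exact hc2 ⟨f, hf, hfT⟩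
    · rw [Tm_sum]
      omega
    · rw [Tm_sumR c (fun s => ((K * beta K s : ℕ) : ℝ)), if_neg (by simp)]
      linarith
    · rw [Tm_upd, if_pos rfl, hMc]
      nlinarith [e3]
    · rw [Tm_sum, if_pos (Finset.mem_Icc.2 ⟨hd, le_rfl⟩), hMc]
      omega
  refine ⟨A, c, h, p, r, hPa, hI, hDone, ?_, ?_, ?_⟩
  · refine e1.trans ?_
    rw [Finset.sum_mul]
    exact Finset.sum_le_sum fun s hs => c_le hI s (Finset.mem_Ico.1 hs).1
  · have hK0 : (0 : ℝ) < K := by exact_mod_cast hK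
    have h7 : ∑ s ∈ Ico 1 d, (c s : ℝ) / ((K * beta K s : ℕ) : ℝ) ≤
        ∑ s ∈ Ico 1 d, (Fintype.card L : ℝ) / K := by
      refine Finset.sum_le_sum fun s hs => ?_
      have hb : (0 : ℝ) < beta K s := by exact_mod_cast beta_pos K s
      have h8 : (c s : ℝ) ≤ beta K s * Fintype.card L := by
        exact_mod_cast c_le hI s (Finset.mem_Ico.1 hs).1
      rw [Nat.cast_mul, div_le_div_iff₀ (by positivity) hK0]
      nlinarith
    rw [Finset.sum_const, Nat.card_Ico, nsmul_eq_mul] at h7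
    have h9 : (p : ℝ) * K ≤ ((d - 1 : ℕ) : ℝ) * Fintype.card L := by
      have h10 := e2.trans h7
      have h11 := mul_le_mul_of_nonneg_right h10 hK0.le
      have h12 : ((d - 1 : ℕ) : ℝ) * ((Fintype.card L : ℝ) / K) * K =
          ((d - 1 : ℕ) : ℝ) * Fintype.card L := by
        field_simp
      rw [h12] at h11
      exact h11
    exact_mod_cast h9
  · exact e3.trans (c_le hI d hd)

end Pool.Agent.SH5ee
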