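import Pool.Agent.Lib.MP_5ee345_lc.Cases
import Pool.Agent.Lib.MP_5ee345_lc.Tm
import Pool.Agent.Lib.MP_5ee345_lc.Ds
import Pool.Agent.Lib.MP_5ee345_lc.Ct
import Pool.Agent.Lib.MP_5ee345_lc.StNum

/-!
JOB St (`MP_5ee345_lc`): the step `StepD d` for `d ≥ 2`. The imported files may hold `sorry`.

Given `ε > 0` take `K, ρ, c, R, N0` from `step_num d hd ε`; use this `c` and `N0`. Let `N = Fintype.card L ≥ N0`
and `Q` from `step_num`. If `W = ∅` take `ι = Unit`, `S = fun _ => ∅`, `lo = up = fun _ _ => ∅` (`1 ≤ 2 ^ (ε N)`).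
Otherwise let `H = (∑ s ∈ Ico 1 d, beta K s) * N`, `P = (d - 1) * N / K` and let `ι` be the subtype of all
`A : Finset (Finset L)` with `(∃ h ≤ H, ∃ p ≤ P, ∃ r ≤ R, Path K d Q W h p r A) ∧ ∃ c', Inv K d A c'`
(classical `Fintype`). Its cardinality is at most the one of the filter in `states_card`, so it is
`≤ 2 ^ (ε N)` by the last part of `step_num` with `m = W.card`, `X` = the cardinality.
`S A = A.1`: at most `2 ^ (ε N)` members (`card_le` and `step_num`), all nonempty (`Inv.size`).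
`lo A F`, `up A F`: from `core d Q hd F _ A.1` for `F ∈ W` (use `choose`, or `if h : F ∈ W then ... else ∅`), with at
most `2 ^ (d * Q) ≤ 2 ^ (ε N)` members. Completeness: for `T` take `A` from `exists_done`
(`p * K ≤ (d - 1) * N` gives `p ≤ P`: `Nat.le_div_iff_mul_le`; `r ≤ R` by `step_num`).
-/

namespace Pool.Agent.SH5ee

open Finset

theorem stepD (d : ℕ) (hd : 2 ≤ d) : StepD d := by
  classical
  intro ε hε
  obtain ⟨K, hK, ρ, hρ0, hρ1, c, hc, R, N0, hN⟩ := step_num d hd ε hε
  refine ⟨c, hc, N0, ?_⟩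
  intro L _ _ hL W hWd hWc
  obtain ⟨Q, hQ, h2Q, hrR, hsum, hX⟩ := hN (Fintype.card L) hL
  have hpow1 : (1 : ℝ) ≤ 2 ^ (ε * (Fintype.card L : ℝ)) :=
    Real.one_le_rpow (by norm_num) (by positivity)
  rcases W.eq_empty_or_nonempty with hW | hW
  · subst hW
    refine ⟨Unit, inferInstance, fun _ => ∅, fun _ _ => ∅, fun _ _ => ∅, ?_, ?_, ?_, ?_, ?_, ?_⟩
    · simpa using hpow1
    · intro v
      refine ⟨?_, ?_⟩
      · simp only [Finset.card_empty, Nat.cast_zero]
        linarith
      · intro f hf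
        exact absurd hf (Finset.notMem_empty f)
    · intro v F hF
      exact absurd hF (Finset.notMem_empty F)
    · intro v F hF
      exact absurd hF (Finset.notMem_empty F)
    · intro v F hF
      exact absurd hF (Finset.notMem_empty F)
    · intro T
      refine ⟨(), ?_, ?_⟩
      · intro f hf
        exact absurd hf (Finset.notMem_empty f)
      · intro F hF
        exact absurd hF (Finset.notMem_empty F)
  · have hW1 : 1 ≤ W.card := Finset.card_pos.mpr hW
    let H : ℕ := (∑ s ∈ Ico 1 d, beta K s) * Fintype.card L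
    let P : ℕ := (d - 1) * Fintype.card L / K
    let SS : Finset (Finset (Finset L)) := univ.filter (fun A : Finset (Finset L) =>
      (∃ h ≤ H, ∃ p ≤ P, ∃ r ≤ R, Path K d Q W h p r A) ∧ ∃ c', Inv K d A c')
    have hcore : ∀ (A F : Finset (Finset L)), ∃ lu : Finset (Finset (Finset L)) × Finset (Finset (Finset L)),
        F ∈ W → (lu.1.card ≤ 2 ^ (d * Q) ∧ lu.2.card ≤ 2 ^ (d * Q) ∧
          (∀ G ∈ lu.1, ∀ e ∈ G, e.card ≤ d - 1) ∧ (∀ G ∈ lu.2, ∀ e ∈ G, e.card ≤ d - 1) ∧
          (∀ T : Finset L, (∀ G ∈ lu.1, dnf G T) → dnf F T) ∧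
          (∀ T : Finset L, free A T → dnf F T → ∀ G ∈ lu.2, dnf G T) ∧
          (∀ T : Finset L, free A T →
            ((mt Q (gph d F A)).card < Q ∨ ∃ e ∈ mt Q (gph d F A), e ⊆ T) →
            (dnf F T → ∀ G ∈ lu.1, dnf G T) ∧ ((∀ G ∈ lu.2, dnf G T) → dnf F T))) := by
      intro A F
      by_cases hF : F ∈ W
      · obtain ⟨lo, up, h⟩ := core d Q hd F (hWd F hF) A
        exact ⟨(lo, up), fun _ => h⟩
      · exact ⟨(∅, ∅), fun h => absurd h hF⟩
    choose lu hlu using hcore
    have hq : ∀ n : ℕ, n ≤ 2 ^ (d * Q) → (n : ℝ) ≤ 2 ^ (ε * (Fintype.card L : ℝ)) := by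
      intro n hn
      have h1 : (n : ℝ) ≤ (2 : ℝ) ^ (d * Q) := by exact_mod_cast hn
      exact h1.trans h2Q
    refine ⟨{x // x ∈ SS}, inferInstance, fun v => v.1, fun v F => (lu v.1 F).1,
      fun v F => (lu v.1 F).2, ?_, ?_, ?_, ?_, ?_, ?_⟩
    · rw [Fintype.card_coe]
      have hm1 : (1 : ℝ) ≤ (W.card : ℝ) := by exact_mod_cast hW1
      refine (?_ : ((SS.card : ℕ) : ℝ) ≤ _)
      apply hX (W.card : ℝ) _ hm1 hWc
      have hst := states_card K d Q W hW1 ρ hρ0 hρ1 H P R
      refine le_trans ?_ hst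
      apply mul_le_mul_of_nonneg_right
      · have hle : SS.card ≤ (univ.filter (fun A : Finset (Finset L) =>
            ∃ h ≤ H, ∃ p ≤ P, ∃ r ≤ R, Path K d Q W h p r A)).card := by
          apply Finset.card_le_card
          intro A hA
          simp only [SS, Finset.mem_filter, Finset.mem_univ, true_and] at hA ⊢
          exact hA.1
        exact_mod_cast hle
      · have : 0 < 1 - 2 * ρ := by linarith
        positivity
    · intro v
      have hv := v.2
      simp only [SS, Finset.mem_filter, Finset.mem_univ, true_and] at hv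
      obtain ⟨-, c', hc'⟩ := hv
      refine ⟨?_, ?_⟩
      · have h1 := card_le hc'
        have h2 : ((v.1.card : ℕ) : ℝ) ≤
            (((∑ s ∈ Icc 1 d, (1 + 2 * (K * beta K (s - 1)))) * Fintype.card L : ℕ) : ℝ) := by
          exact_mod_cast h1
        exact h2.trans hsum
      · intro f hf
        have := (hc'.size f hf).1
        exact Finset.card_pos.mp this
    · intro v F hF
      obtain ⟨h1, h2, h3, h4, -, -, -⟩ := hlu v.1 F hF
      exact ⟨hq _ h1, hq _ h2, h3, h4⟩
    · intro v F hF T hT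
      obtain ⟨-, -, -, -, h5, -, -⟩ := hlu v.1 F hF
      exact h5 T hT
    · intro v F hF T hfree hT
      obtain ⟨-, -, -, -, -, h6, -⟩ := hlu v.1 F hF
      exact h6 T hfree hT
    · intro T
      obtain ⟨A, c', h, p, r, hpath, hinv, hdone, hh, hp, hr⟩ :=
        exists_done hK (by omega : 1 ≤ d) hQ W T
      have hmem : A ∈ SS := by
        simp only [SS, Finset.mem_filter, Finset.mem_univ, true_and]
        refine ⟨⟨h, hh, p, ?_, r, hrR r hr, hpath⟩, c', hinv⟩
        exact (Nat.le_div_iff_mul_le (by omega)).mpr hp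
      refine ⟨⟨A, hmem⟩, hdone.1, ?_⟩
      intro F hF
      obtain ⟨-, -, -, -, -, -, h7⟩ := hlu A F hF
      exact h7 T hdone.1 (hdone.2 F hF)

end Pool.Agent.SH5ee
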